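import Pool.Agent.P.MP_df4ecf_al.Q1.Words

/-!
Functionals modulo two given by tries of letters: the check of the relations and the pairing.
-/

namespace Pool.Agent.P.MP_df4ecf_al.Q1

open Tr

theorem sum_Cl {M : Type} [AddCommMonoid M] (g : Cl → M) :
    ∑ c, g c = g .c0 + g .c1 + g .c2 + g .c3 := by
  have : (Finset.univ : Finset Cl) = {.c0, .c1, .c2, .c3} := by decide
  rw [this, Finset.sum_insert (by decide), Finset.sum_insert (by decide),
    Finset.sum_insert (by decide), Finset.sum_singleton, add_assoc, add_assoc]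

noncomputable section

/-- The child of a given letter. -/
def chL (t : Tr) (x : Lt) : Tr := Bool.rec (t.ch x.1).ch0 (t.ch x.1).ch1 x.2

/-- The subtrie at a word. -/
def subL : Tr → List Lt → Tr
  | t, [] => t
  | t, x :: w => subL (chL t x) w

/-- The pattern of a word. -/
def code : List Lt → List Cl
  | [] => []
  | x :: w => x.1 :: Bool.rec .c0 .c1 x.2 :: code w

theorem code_length (w : List Lt) : (code w).length = 2 * w.length := by
  induction w with
  | nil => rfl
  | cons x w ih => simp only [code, List.length_cons, ih]; ring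

theorem subL_eq (w : List Lt) : ∀ t : Tr, subL t w = t.sub (code w) := by
  induction w with
  | nil => intro t; rfl
  | cons x w ih =>
    intro t
    obtain ⟨c, b⟩ := x
    rw [subL, ih]
    cases b <;> rfl

theorem subL_append (a b : List Lt) : ∀ t : Tr, subL t (a ++ b) = subL (subL t a) b := by
  induction a with
  | nil => intro t; rfl
  | cons x a ih => intro t; exact ih _

theorem chL_nil (x : Lt) : chL nil x = nil := by
  obtain ⟨c, b⟩ := x
  cases c <;> cases b <;> rfl

theorem nil_subL (w : List Lt) : subL nil w = nil := by rw [subL_eq, nil_sub]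

/-- The parity of a leaf. -/
def par (t : Tr) : ZMod 2 := ((t.pos + t.neg : ℕ) : ZMod 2)

theorem par_nil : par nil = 0 := rfl

theorem par_dif (w : List Lt) (s t : Tr) :
    par (subL (dif (2 * w.length) s t) w) = par (subL s w) + par (subL t w) := by
  rw [subL_eq, subL_eq, subL_eq, ← code_length, dif_sub]
  simp only [par, Tr.dif_pos, Tr.dif_neg, Nat.add_eq]
  push_cast
  ring

/-- One term of a relation. -/
def addR (d : ℕ) (t : Tr) (j k : Cl) (e b b' : Bool) (acc : Tr) : Tr :=
  Bool.rec acc (dif d (dif d acc (chL (chL t (j, b)) (k, b'))) (chL (chL t (k, b')) (j, b)))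
    (relP j k e b && relQ j k e b')

/-- The check of one relation. -/
def chkR (d : ℕ) (t : Tr) (j k : Cl) (e : Bool) : Bool :=
  allL (fun p n => Nat.beq (Nat.mod (Nat.add p n) 2) 0) d
    (addR d t j k e true true <| addR d t j k e true false <| addR d t j k e false true <|
      addR d t j k e false false nil)

/-- The relation evaluated on a functional. -/
def relSum (g : List Lt → ZMod 2) (a b : List Lt) (j k : Cl) (e : Bool) : ZMod 2 :=
  ∑ c, ∑ c', if (relP j k e c && relQ j k e c') = true then
    g (a ++ (j, c) :: (k, c') :: b) + g (a ++ (k, c') :: (j, c) :: b) else 0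

theorem par_addR (w : List Lt) (t : Tr) (j k : Cl) (e b b' : Bool) (acc : Tr) :
    par (subL (addR (2 * w.length) t j k e b b' acc) w) = par (subL acc w) +
      if (relP j k e b && relQ j k e b') = true then
        par (subL t ((j, b) :: (k, b') :: w)) + par (subL t ((k, b') :: (j, b) :: w)) else 0 := by
  unfold addR
  cases relP j k e b && relQ j k e b'
  · simp
  · change par (subL (dif _ _ _) w) = _
    rw [par_dif, par_dif, if_pos rfl, add_assoc]
    rfl

theorem chkR_spec (w : List Lt) (t : Tr) (j k : Cl) (e : Bool)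
    (h : chkR (2 * w.length) t j k e = true) :
    relSum (fun v => par (subL t v)) [] w j k e = 0 := by
  unfold chkR at h
  rw [← code_length] at h
  have h1 := allL_sub (g := fun p n => Nat.beq (Nat.mod (Nat.add p n) 2) 0) rfl _ _ h
  rw [Nat.beq_eq, ← subL_eq, code_length] at h1
  have h2 := (ZMod.natCast_eq_zero_iff _ 2).2 (Nat.dvd_of_mod_eq_zero h1)
  change par _ = 0 at h2
  rw [par_addR, par_addR, par_addR, par_addR, nil_subL, par_nil] at h2
  simp only [relSum, Fintype.sum_bool, List.nil_append]
  linear_combination h2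

open Cl in
/-- The check of all relations at the start of the words. -/
def chkN (d : ℕ) (t : Tr) : Bool :=
  chkR d t c0 c0 false && chkR d t c1 c1 false && chkR d t c2 c2 false && chkR d t c3 c3 false &&
  chkR d t c0 c1 false && chkR d t c0 c1 true && chkR d t c0 c2 false && chkR d t c0 c2 true &&
  chkR d t c0 c3 false && chkR d t c0 c3 true && chkR d t c1 c2 false && chkR d t c1 c2 true &&
  chkR d t c1 c3 false && chkR d t c1 c3 true && chkR d t c2 c3 false && chkR d t c2 c3 true

theorem chkN_spec (w : List Lt) (t : Tr) (h : chkN (2 * w.length) t = true) (j k : Cl) (e : Bool) :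
    relSum (fun v => par (subL t v)) [] w j k e = 0 := by
  simp only [chkN, Bool.and_eq_true] at h
  cases j <;> cases k <;> cases e <;>
    first
    | (apply chkR_spec; tauto)
    | simp [relSum, relP]

open Cl in
/-- A test for all eight letters. -/
def all8 (g : Lt → Bool) : Bool :=
  g (c0, false) && g (c0, true) && g (c1, false) && g (c1, true) && g (c2, false) && g (c2, true) &&
    g (c3, false) && g (c3, true)

theorem all8_spec {g : Lt → Bool} (h : all8 g = true) (x : Lt) : g x = true := by
  simp only [all8, Bool.and_eq_true] at h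
  obtain ⟨c, b⟩ := x
  cases c <;> cases b <;> tauto

/-- The check of all relations in all places. -/
def chkA (d : ℕ) : Tr → Bool :=
  Nat.rec (fun t => t.ifNil true (chkN 0 t))
    (fun d ih t => t.ifNil true (chkN (Nat.mul 2 (Nat.succ d)) t && all8 fun x => ih (chL t x))) d

theorem chkA_succ {d : ℕ} {t : Tr} (h : chkA (d + 1) t = true) :
    t = nil ∨ (chkN (2 * (d + 1)) t = true ∧ ∀ x, chkA d (chL t x) = true) := by
  have key : ∀ t : Tr, (chkN (2 * (d + 1)) t && all8 fun x => chkA d (chL t x)) = true →
      chkN (2 * (d + 1)) t = true ∧ ∀ x, chkA d (chL t x) = true := by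
    intro t h
    rw [Bool.and_eq_true] at h
    exact ⟨h.1, all8_spec h.2⟩
  cases t with
  | nil => exact Or.inl rfl
  | leaf p n => exact Or.inr (key _ h)
  | node _ _ _ _ => exact Or.inr (key _ h)

theorem chkA_spec (a : List Lt) : ∀ (d : ℕ) (t : Tr) (b : List Lt), a.length + b.length = d →
    chkA d t = true → ∀ j k e, relSum (fun v => par (subL t v)) a b j k e = 0 := by
  have hnil : ∀ a b j k e, relSum (fun v => par (subL nil v)) a b j k e = 0 := by
    intro a b j k e
    simp [relSum, nil_subL, par_nil]
  induction a with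
  | nil =>
    intro d t b hb h
    rw [List.length_nil, zero_add] at hb
    cases d with
    | zero =>
      cases t with
      | nil => exact hnil _ _
      | leaf p n => exact chkN_spec b _ (hb ▸ h)
      | node _ _ _ _ => exact chkN_spec b _ (hb ▸ h)
    | succ d =>
      rcases chkA_succ h with rfl | h
      · exact hnil _ _
      · exact chkN_spec b _ (by rw [hb]; exact h.1)
  | cons x a ih =>
    intro d t b hb h
    rw [List.length_cons] at hb
    cases d with
    | zero => omega
    | succ d =>
      rcases chkA_succ h with rfl | h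
      · exact hnil _ _
      · exact ih d _ b (by omega) (h.2 x)

open Cl in
/-- A sum over all eight letters. -/
def sum8 (g : Lt → ℕ) : ℕ :=
  Nat.add (Nat.add (Nat.add (Nat.add (g (c0, true)) (g (c0, false)))
    (Nat.add (g (c1, true)) (g (c1, false)))) (Nat.add (g (c2, true)) (g (c2, false))))
      (Nat.add (g (c3, true)) (g (c3, false)))

theorem sum8_spec (g : Lt → ℕ) : sum8 g = ∑ x, g x := by
  simp only [Fintype.sum_prod_type, sum_Cl, Fintype.sum_bool]
  rfl

/-- The pairing of a function with a trie. -/
def sumT (n : ℕ) : Tr → (List Lt → ℕ) → ℕ :=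
  Nat.rec (fun t g => t.ifNil 0 (Nat.mul (g []) (Nat.add t.pos t.neg)))
    (fun _ ih t g => t.ifNil 0 (sum8 fun x => ih (chL t x) fun v => g (x :: v))) n

theorem sumT_spec (n : ℕ) : ∀ (t : Tr) (g : List Lt → ℕ),
    (sumT n t g : ZMod 2) = sumW n fun v => (g v : ZMod 2) * par (subL t v) := by
  have hnil : ∀ (n : ℕ) (g : List Lt → ℕ),
      (0 : ZMod 2) = sumW n fun v => (g v : ZMod 2) * par (subL nil v) := by
    intro n g
    simp only [nil_subL, par_nil, mul_zero, sumW_zero]
  induction n with
  | zero =>
    intro t g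
    cases t with
    | nil => exact hnil 0 g
    | leaf p n => exact Nat.cast_mul _ _
    | node _ _ _ _ => exact Nat.cast_mul _ _
  | succ n ih =>
    intro t g
    have : ((sum8 fun x => sumT n (chL t x) fun v => g (x :: v) : ℕ) : ZMod 2) =
        sumW (n + 1) fun v => (g v : ZMod 2) * par (subL t v) := by
      rw [sum8_spec, Nat.cast_sum, sumW]
      exact Finset.sum_congr rfl fun x _ => ih _ _
    cases t with
    | nil => exact hnil _ g
    | leaf p n => exact this
    | node _ _ _ _ => exact this

/-- Insertion of a letter. -/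
def ins (k : ℕ) : Lt → List Lt → List Lt :=
  Nat.rec (fun z w => z :: w) (fun _ ih z w => List.rec [z] (fun y w' _ => y :: ih z w') w) k

theorem ins_spec (k : ℕ) : ∀ (z : Lt) (w : List Lt), ins k z w = w.take k ++ z :: w.drop k := by
  induction k with
  | zero => intro z w; rfl
  | succ k ih =>
    intro z w
    cases w with
    | nil => rfl
    | cons y w => exact congrArg (List.cons y) (ih z w)

/-- The unsigned version of the commutator expansions. -/
def natE (F : List Lt → ℕ) (k : ℕ) : List Lt → ℕ :=
  Nat.rec F (fun k ih w => Nat.add (ih w)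
    (ih (List.rec [] (fun z w' _ => ins (Nat.add k 3) z w') w))) k

theorem natE_spec (F : List Lt → ℕ) (F' : List Lt → ℤ) (h : ∀ w, (F w : ZMod 2) = F' w) (k : ℕ) :
    ∀ w, (natE F k w : ZMod 2) = Efun F' 3 k w := by
  induction k with
  | zero => exact h
  | succ k ih =>
    intro w
    have e : (List.rec [] (fun z w' _ => ins (Nat.add k 3) z w') w : List Lt) = rotw (k + 3) w := by
      cases w with
      | nil => rfl
      | cons z w => exact ins_spec _ z w
    change ((natE F k w + natE F k _ : ℕ) : ZMod 2) = _
    rw [e, Efun, Nat.cast_add, Int.cast_sub, ih, ih, CharTwo.sub_eq_add]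

/-- Equality of colours. -/
def ceq (a b : Cl) : Bool :=
  Cl.rec (Cl.rec true false false false b) (Cl.rec false true false false b)
    (Cl.rec false false true false b) (Cl.rec false false false true b) a

theorem ceq_spec (a b : Cl) : ceq a b = decide (a = b) := by cases a <;> cases b <;> rfl

/-- A fast version of `bits`. -/
def bitsF (c : Cl) (w : List Lt) : List Bool :=
  List.rec [] (fun l _ ih => Bool.rec ih (l.2 :: ih) (ceq l.1 c)) w

theorem bitsF_spec (c : Cl) (w : List Lt) : bitsF c w = bits c w := by
  induction w with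
  | nil => rfl
  | cons l w ih =>
    change (Bool.rec (bitsF c w) (l.2 :: bitsF c w) (ceq l.1 c) : List Bool) = _
    rw [ceq_spec, ih, bits]
    by_cases h : l.1 = c <;> simp [h]

/-- Lists of length at most two. -/
def short (l : List Bool) : Bool :=
  List.rec true (fun _ l _ => List.rec true (fun _ l _ => List.rec true (fun _ _ _ => false) l) l) l

theorem short_spec (l : List Bool) : short l = true ↔ l.length ≤ 2 := by
  match l with
  | [] => simp [short]
  | [_] => simp [short]
  | [_, _] => simp [short]
  | _ :: _ :: _ :: _ => simp [short]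

/-- The unsigned value of a trie at a word. -/
def evn (t : Tr) (w : List Lt) : ℕ :=
  Bool.rec 0 ((fun s i => Nat.add (fld (Tr.pos s) i) (fld (Tr.neg s) i)) (t.sub (w.map Prod.fst))
      (ixG fun c => bitsF c w))
    (short (bitsF .c0 w) && short (bitsF .c1 w) && short (bitsF .c2 w) && short (bitsF .c3 w))

theorem evn_spec (t : Tr) (w : List Lt) : (evn t w : ZMod 2) = ev t w := by
  have hv : (short (bitsF .c0 w) && short (bitsF .c1 w) && short (bitsF .c2 w) &&
      short (bitsF .c3 w)) = true ↔ valid w := by
    simp only [Bool.and_eq_true, short_spec, bitsF_spec, valid]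
    refine ⟨fun h c => by cases c <;> tauto, fun h => ⟨⟨⟨h _, h _⟩, h _⟩, h _⟩⟩
  unfold evn ev
  by_cases h : valid w
  · rw [hv.2 h, if_pos h]
    simp only [bitsF_spec, val, idx, Nat.add_eq, Nat.cast_add, Int.cast_sub, Int.cast_natCast,
      CharTwo.sub_eq_add]
  · rw [Bool.eq_false_iff.2 (hv.not.2 h), if_neg h]
    rfl

open Cl in
/-- The coefficients of the cubic corrections. -/
def tt {M : Type} (z : M) (ng : M → M) (s : Cl → Cl → Bool → M) : Cl → Lt → M
  | c0, (c2, true) => s c0 c2 false
  | c0, (c3, true) => s c0 c3 false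
  | c1, (c2, true) => s c1 c2 false
  | c1, (c3, true) => s c1 c3 false
  | c2, (c3, false) => s c2 c3 false
  | c2, (c1, true) => ng (s c1 c2 true)
  | c3, (c1, false) => ng (s c1 c3 true)
  | c3, (c2, false) => ng (s c2 c3 true)
  | _, _ => z

/-- The expansion of the cubic corrections. -/
def Fp (s : Cl → Cl → Bool → List Lt → ℤ) : List Lt → ℤ
  | x :: y :: z :: u =>
    (if x.1 = y.1 ∧ x.2 = false ∧ y.2 = true then tt 0 Neg.neg (fun j k e => s j k e u) x.1 z else 0) -
    (if y.1 = z.1 ∧ y.2 = false ∧ z.2 = true then tt 0 Neg.neg (fun j k e => s j k e u) y.1 x else 0)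
  | _ => 0

/-- The unsigned coefficient of a relation. -/
def scn (S : Tr) (u : List Lt) (j k : Cl) (e : Bool) : ℕ :=
  Nat.add (evn S ((j, e) :: (k, false) :: u)) (evn S ((j, e) :: (k, true) :: u))

/-- A pair of letters of the same colour with increasing bits. -/
def isP (x y : Lt) : Bool := Bool.rec (Bool.rec false (ceq x.1 y.1) y.2) false x.2

/-- The unsigned expansion of the cubic corrections. -/
def Fn (S : Tr) (w : List Lt) : ℕ :=
  List.rec 0 (fun x w _ => List.rec 0 (fun y w _ => List.rec 0 (fun z u _ =>
    Nat.add (Bool.rec 0 (tt 0 id (scn S u) x.1 z) (isP x y))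
      (Bool.rec 0 (tt 0 id (scn S u) y.1 x) (isP y z))) w) w) w

theorem tt_spec (S : Tr) (u : List Lt) (c : Cl) (q : Lt) :
    ((tt 0 id (scn S u) c q : ℕ) : ZMod 2) = (tt 0 Neg.neg (fun j k e => sc S j k e u) c q : ℤ) := by
  have h : ∀ j k e, (scn S u j k e : ZMod 2) = (sc S j k e u : ℤ) := by
    intro j k e
    simp only [scn, sc, Nat.add_eq, Nat.cast_add, Int.cast_sub, evn_spec, CharTwo.sub_eq_add]
  obtain ⟨c', b⟩ := q
  cases c <;> cases c' <;> cases b <;> simp [tt, h, CharTwo.neg_eq]

theorem isP_spec (x y : Lt) (n : ℕ) (m : ℤ) (h : (n : ZMod 2) = m) :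
    ((Bool.rec 0 n (isP x y) : ℕ) : ZMod 2) =
      (if x.1 = y.1 ∧ x.2 = false ∧ y.2 = true then m else 0 : ℤ) := by
  obtain ⟨c, b⟩ := x
  obtain ⟨c', b'⟩ := y
  by_cases hc : c = c' <;> cases b <;> cases b' <;> simp [isP, ceq_spec, hc, h]

theorem Fn_spec (S : Tr) (w : List Lt) : (Fn S w : ZMod 2) = Fp (sc S) w := by
  match w with
  | [] => rfl
  | [_] => rfl
  | [_, _] => rfl
  | x :: y :: z :: u =>
    change ((Bool.rec 0 _ (isP x y) + Bool.rec 0 _ (isP y z) : ℕ) : ZMod 2) = _
    rw [Nat.cast_add, isP_spec x y _ _ (tt_spec S u x.1 z), isP_spec y z _ _ (tt_spec S u y.1 x),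
      Fp, Int.cast_sub, CharTwo.sub_eq_add]

/-- The check of the pairing. -/
def okPair (S T : Tr) : Bool := Nat.beq (Nat.mod (sumT 9 T (natE (Fn S) 6)) 2) 1

theorem okPair_spec {S T : Tr} (h : okPair S T = true) :
    (sumW 9 fun v => (Efun (Fp (sc S)) 3 6 v : ZMod 2) * par (subL T v)) = 1 := by
  have h1 : sumT 9 T (natE (Fn S) 6) % 2 = 1 := by
    rw [okPair, Nat.beq_eq] at h
    exact h
  have h2 := sumT_spec 9 T (natE (Fn S) 6)
  rw [← ZMod.natCast_mod, h1] at h2
  simp only [natE_spec _ _ (Fn_spec S)] at h2
  exact h2.symm.trans Nat.cast_one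

end

end Pool.Agent.P.MP_df4ecf_al.Q1
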