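import Pool.Agent.P.MP_df4ecf_al.Q1.Trie

/-!
The support of the detecting functional.
-/

namespace Pool.Agent.P.MP_df4ecf_al.Q1

open Tr

/-- A leaf. -/
def lf : Tr := leaf 1 0

/-- A node with two children. -/
def nd (a b : Tr) : Tr := node a b nil nil

def dF61 : Tr :=
  (node nil (nd nil (node nil nil (nd (node (nd (node nil (nd (node (nd (node nil nil (nd nil
  (node nil nil nil (nd nil lf))) nil) nil) nil (nd nil (node (nd (node nil nil nil (nd nil lf))
  nil) nil nil (nd nil (node (nd lf nil) nil nil nil)))) nil) (node (nd nil (node nil nil (nd nil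
  (node nil nil nil (nd nil lf))) nil)) nil (nd (node (nd (node nil nil nil (nd nil lf)) nil) nil
  nil (nd nil (node (nd lf nil) nil nil nil))) (node (nd (node nil nil nil (nd nil lf)) nil) nil
  nil (nd nil (node (nd lf nil) nil nil nil)))) (nd nil (node nil nil (nd (node (nd lf nil) nil
  nil nil) nil) nil)))) nil (nd (node nil (nd (node nil nil (nd (node (nd lf nil) nil nil nil)
  nil) nil) nil) nil nil) (node nil (nd (node nil nil (nd (node (nd lf nil) nil nil nil) nil) nil)
  nil) nil nil))) nil) (nd nil (node (nd (node (nd nil (node nil nil (nd nil (node nil nil nil (nd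
  nil lf))) nil)) nil (nd (node (nd (node nil nil nil (nd nil lf)) nil) nil nil (nd nil (node (nd
  lf nil) nil nil nil))) (node (nd (node nil nil nil (nd nil lf)) nil) nil nil (nd nil (node (nd
  lf nil) nil nil nil)))) (nd nil (node nil nil (nd (node (nd lf nil) nil nil nil) nil) nil)))
  (node (nd (node nil nil (nd nil (node nil nil nil (nd nil lf))) nil) nil) nil (nd nil (node (nd
  (node nil nil nil (nd nil lf)) nil) nil nil (nd nil (node (nd lf nil) nil nil nil)))) nil)) nil
  nil (nd nil (node (nd (node nil nil (nd (node (nd lf nil) nil nil nil) nil) nil) nil) nil nil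
  nil)))) nil (nd (node (nd (node nil (nd (node nil nil (nd (node (nd lf nil) nil nil nil) nil)
  nil) nil) nil nil) nil) (nd (node (nd (node nil nil (nd (node (nd lf nil) nil nil nil) nil) nil)
  nil) nil nil nil) nil) nil nil) (node (nd (node nil (nd (node nil nil (nd (node (nd lf nil) nil
  nil nil) nil) nil) nil) nil nil) nil) (nd (node (nd (node nil nil (nd (node (nd lf nil) nil nil
  nil) nil) nil) nil) nil nil nil) nil) nil nil))) (node (nd (node nil (nd (node (nd (node nil nil
  (nd nil (node nil nil nil (nd nil lf))) nil) nil) nil (nd nil (node (nd (node nil nil nil (nd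
  nil lf)) nil) nil nil (nd nil (node (nd lf nil) nil nil nil)))) nil) (node (nd nil (node nil nil
  (nd nil (node nil nil nil (nd nil lf))) nil)) nil (nd (node (nd (node nil nil nil (nd nil lf))
  nil) nil nil (nd nil (node (nd lf nil) nil nil nil))) (node (nd (node nil nil nil (nd nil lf))
  nil) nil nil (nd nil (node (nd lf nil) nil nil nil)))) (nd nil (node nil nil (nd (node (nd lf
  nil) nil nil nil) nil) nil)))) nil (nd (node nil (nd (node nil nil (nd (node (nd lf nil) nil nil
  nil) nil) nil) nil) nil nil) (node nil (nd (node nil nil (nd (node (nd lf nil) nil nil nil) nil)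
  nil) nil) nil nil))) (node nil (nd (node (nd (node nil nil (nd nil (node nil nil nil (nd nil
  lf))) nil) nil) nil (nd nil (node (nd (node nil nil nil (nd nil lf)) nil) nil nil (nd nil (node
  (nd lf nil) nil nil nil)))) nil) (node (nd nil (node nil nil (nd nil (node nil nil nil (nd nil
  lf))) nil)) nil (nd (node (nd (node nil nil nil (nd nil lf)) nil) nil nil (nd nil (node (nd lf
  nil) nil nil nil))) (node (nd (node nil nil nil (nd nil lf)) nil) nil nil (nd nil (node (nd lf
  nil) nil nil nil)))) (nd nil (node nil nil (nd (node (nd lf nil) nil nil nil) nil) nil)))) nil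
  (nd (node nil (nd (node nil nil (nd (node (nd lf nil) nil nil nil) nil) nil) nil) nil nil) (node
  nil (nd (node nil nil (nd (node (nd lf nil) nil nil nil) nil) nil) nil) nil nil)))) (nd (node
  (nd (node (nd nil (node nil nil (nd nil (node nil nil nil (nd nil lf))) nil)) nil (nd (node (nd
  (node nil nil nil (nd nil lf)) nil) nil nil (nd nil (node (nd lf nil) nil nil nil))) (node (nd
  (node nil nil nil (nd nil lf)) nil) nil nil (nd nil (node (nd lf nil) nil nil nil)))) (nd nil
  (node nil nil (nd (node (nd lf nil) nil nil nil) nil) nil))) (node (nd (node nil nil (nd nil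
  (node nil nil nil (nd nil lf))) nil) nil) nil (nd nil (node (nd (node nil nil nil (nd nil lf))
  nil) nil nil (nd nil (node (nd lf nil) nil nil nil)))) nil)) nil nil (nd nil (node (nd (node nil
  nil (nd (node (nd lf nil) nil nil nil) nil) nil) nil) nil nil nil))) (node (nd (node (nd nil
  (node nil nil (nd nil (node nil nil nil (nd nil lf))) nil)) nil (nd (node (nd (node nil nil nil
  (nd nil lf)) nil) nil nil (nd nil (node (nd lf nil) nil nil nil))) (node (nd (node nil nil nil
  (nd nil lf)) nil) nil nil (nd nil (node (nd lf nil) nil nil nil)))) (nd nil (node nil nil (nd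
  (node (nd lf nil) nil nil nil) nil) nil))) (node (nd (node nil nil (nd nil (node nil nil nil (nd
  nil lf))) nil) nil) nil (nd nil (node (nd (node nil nil nil (nd nil lf)) nil) nil nil (nd nil
  (node (nd lf nil) nil nil nil)))) nil)) nil nil (nd nil (node (nd (node nil nil (nd (node (nd lf
  nil) nil nil nil) nil) nil) nil) nil nil nil)))) nil (nd (node (nd (node nil (nd (node nil nil
  (nd (node (nd lf nil) nil nil nil) nil) nil) nil) nil nil) nil) (nd (node (nd (node nil nil (nd
  (node (nd lf nil) nil nil nil) nil) nil) nil) nil nil nil) nil) nil nil) nil))) nil)) (nd nil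
  (node nil (nd (node (nd (node nil (nd (node (nd (node nil nil (nd nil (node nil nil nil (nd nil
  lf))) nil) nil) nil (nd nil (node (nd (node nil nil nil (nd nil lf)) nil) nil nil (nd nil (node
  (nd lf nil) nil nil nil)))) nil) (node (nd nil (node nil nil (nd nil (node nil nil nil (nd nil
  lf))) nil)) nil (nd (node (nd (node nil nil nil (nd nil lf)) nil) nil nil (nd nil (node (nd lf
  nil) nil nil nil))) (node (nd (node nil nil nil (nd nil lf)) nil) nil nil (nd nil (node (nd lf
  nil) nil nil nil)))) (nd nil (node nil nil (nd (node (nd lf nil) nil nil nil) nil) nil)))) nil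
  (nd (node nil (nd (node nil nil (nd (node (nd lf nil) nil nil nil) nil) nil) nil) nil nil) (node
  nil (nd (node nil nil (nd (node (nd lf nil) nil nil nil) nil) nil) nil) nil nil))) nil) (nd nil
  (node (nd (node (nd nil (node nil nil (nd nil (node nil nil nil (nd nil lf))) nil)) nil (nd
  (node (nd (node nil nil nil (nd nil lf)) nil) nil nil (nd nil (node (nd lf nil) nil nil nil)))
  (node (nd (node nil nil nil (nd nil lf)) nil) nil nil (nd nil (node (nd lf nil) nil nil nil))))
  (nd nil (node nil nil (nd (node (nd lf nil) nil nil nil) nil) nil))) (node (nd (node nil nil (nd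
  nil (node nil nil nil (nd nil lf))) nil) nil) nil (nd nil (node (nd (node nil nil nil (nd nil
  lf)) nil) nil nil (nd nil (node (nd lf nil) nil nil nil)))) nil)) nil nil (nd nil (node (nd
  (node nil nil (nd (node (nd lf nil) nil nil nil) nil) nil) nil) nil nil nil)))) nil (nd (node
  (nd (node nil (nd (node nil nil (nd (node (nd lf nil) nil nil nil) nil) nil) nil) nil nil) nil)
  (nd (node (nd (node nil nil (nd (node (nd lf nil) nil nil nil) nil) nil) nil) nil nil nil) nil)
  nil nil) (node (nd (node nil (nd (node nil nil (nd (node (nd lf nil) nil nil nil) nil) nil) nil)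
  nil nil) nil) (nd (node (nd (node nil nil (nd (node (nd lf nil) nil nil nil) nil) nil) nil) nil
  nil nil) nil) nil nil))) (node (nd nil (node nil (nd (node (nd (node nil nil (nd nil (node nil
  nil nil (nd nil lf))) nil) nil) nil (nd nil (node (nd (node nil nil nil (nd nil lf)) nil) nil
  nil (nd nil (node (nd lf nil) nil nil nil)))) nil) (node (nd nil (node nil nil (nd nil (node nil
  nil nil (nd nil lf))) nil)) nil (nd (node (nd (node nil nil nil (nd nil lf)) nil) nil nil (nd
  nil (node (nd lf nil) nil nil nil))) (node (nd (node nil nil nil (nd nil lf)) nil) nil nil (nd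
  nil (node (nd lf nil) nil nil nil)))) (nd nil (node nil nil (nd (node (nd lf nil) nil nil nil)
  nil) nil)))) nil (nd (node nil (nd (node nil nil (nd (node (nd lf nil) nil nil nil) nil) nil)
  nil) nil nil) (node nil (nd (node nil nil (nd (node (nd lf nil) nil nil nil) nil) nil) nil) nil
  nil)))) (nd (node (nd (node (nd nil (node nil nil (nd nil (node nil nil nil (nd nil lf))) nil))
  nil (nd (node (nd (node nil nil nil (nd nil lf)) nil) nil nil (nd nil (node (nd lf nil) nil nil
  nil))) (node (nd (node nil nil nil (nd nil lf)) nil) nil nil (nd nil (node (nd lf nil) nil nil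
  nil)))) (nd nil (node nil nil (nd (node (nd lf nil) nil nil nil) nil) nil))) (node (nd (node nil
  nil (nd nil (node nil nil nil (nd nil lf))) nil) nil) nil (nd nil (node (nd (node nil nil nil
  (nd nil lf)) nil) nil nil (nd nil (node (nd lf nil) nil nil nil)))) nil)) nil nil (nd nil (node
  (nd (node nil nil (nd (node (nd lf nil) nil nil nil) nil) nil) nil) nil nil nil))) nil) nil (nd
  nil (node (nd (node nil (nd (node nil nil (nd (node (nd lf nil) nil nil nil) nil) nil) nil) nil
  nil) nil) (nd (node (nd (node nil nil (nd (node (nd lf nil) nil nil nil) nil) nil) nil) nil nil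
  nil) nil) nil nil)))) nil nil)) nil)

def dF63 : Tr :=
  (node (nd nil (node nil nil (nd (node (nd (node nil (nd (node (nd (node nil nil (nd nil (node
  nil nil nil (nd nil lf))) nil) nil) nil (nd nil (node (nd (node nil nil nil (nd nil lf)) nil)
  nil nil (nd nil (node (nd lf nil) nil nil nil)))) nil) (node (nd nil (node nil nil (nd nil (node
  nil nil nil (nd nil lf))) nil)) nil (nd (node (nd (node nil nil nil (nd nil lf)) nil) nil nil
  (nd nil (node (nd lf nil) nil nil nil))) (node (nd (node nil nil nil (nd nil lf)) nil) nil nil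
  (nd nil (node (nd lf nil) nil nil nil)))) (nd nil (node nil nil (nd (node (nd lf nil) nil nil
  nil) nil) nil)))) nil (nd (node nil (nd (node nil nil (nd (node (nd lf nil) nil nil nil) nil)
  nil) nil) nil nil) (node nil (nd (node nil nil (nd (node (nd lf nil) nil nil nil) nil) nil) nil)
  nil nil))) nil) (nd nil (node (nd (node (nd nil (node nil nil (nd nil (node nil nil nil (nd nil
  lf))) nil)) nil (nd (node (nd (node nil nil nil (nd nil lf)) nil) nil nil (nd nil (node (nd lf
  nil) nil nil nil))) (node (nd (node nil nil nil (nd nil lf)) nil) nil nil (nd nil (node (nd lf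
  nil) nil nil nil)))) (nd nil (node nil nil (nd (node (nd lf nil) nil nil nil) nil) nil))) (node
  (nd (node nil nil (nd nil (node nil nil nil (nd nil lf))) nil) nil) nil (nd nil (node (nd (node
  nil nil nil (nd nil lf)) nil) nil nil (nd nil (node (nd lf nil) nil nil nil)))) nil)) nil nil
  (nd nil (node (nd (node nil nil (nd (node (nd lf nil) nil nil nil) nil) nil) nil) nil nil
  nil)))) nil (nd (node (nd (node nil (nd (node nil nil (nd (node (nd lf nil) nil nil nil) nil)
  nil) nil) nil nil) nil) (nd (node (nd (node nil nil (nd (node (nd lf nil) nil nil nil) nil) nil)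
  nil) nil nil nil) nil) nil nil) (node (nd (node nil (nd (node nil nil (nd (node (nd lf nil) nil
  nil nil) nil) nil) nil) nil nil) nil) (nd (node (nd (node nil nil (nd (node (nd lf nil) nil nil
  nil) nil) nil) nil) nil nil nil) nil) nil nil))) (node (nd (node nil (nd (node (nd (node nil nil
  (nd nil (node nil nil nil (nd nil lf))) nil) nil) nil (nd nil (node (nd (node nil nil nil (nd
  nil lf)) nil) nil nil (nd nil (node (nd lf nil) nil nil nil)))) nil) (node (nd nil (node nil nil
  (nd nil (node nil nil nil (nd nil lf))) nil)) nil (nd (node (nd (node nil nil nil (nd nil lf))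
  nil) nil nil (nd nil (node (nd lf nil) nil nil nil))) (node (nd (node nil nil nil (nd nil lf))
  nil) nil nil (nd nil (node (nd lf nil) nil nil nil)))) (nd nil (node nil nil (nd (node (nd lf
  nil) nil nil nil) nil) nil)))) nil (nd (node nil (nd (node nil nil (nd (node (nd lf nil) nil nil
  nil) nil) nil) nil) nil nil) (node nil (nd (node nil nil (nd (node (nd lf nil) nil nil nil) nil)
  nil) nil) nil nil))) (node nil (nd (node (nd (node nil nil (nd nil (node nil nil nil (nd nil
  lf))) nil) nil) nil (nd nil (node (nd (node nil nil nil (nd nil lf)) nil) nil nil (nd nil (node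
  (nd lf nil) nil nil nil)))) nil) (node (nd nil (node nil nil (nd nil (node nil nil nil (nd nil
  lf))) nil)) nil (nd (node (nd (node nil nil nil (nd nil lf)) nil) nil nil (nd nil (node (nd lf
  nil) nil nil nil))) (node (nd (node nil nil nil (nd nil lf)) nil) nil nil (nd nil (node (nd lf
  nil) nil nil nil)))) (nd nil (node nil nil (nd (node (nd lf nil) nil nil nil) nil) nil)))) nil
  (nd (node nil (nd (node nil nil (nd (node (nd lf nil) nil nil nil) nil) nil) nil) nil nil) (node
  nil (nd (node nil nil (nd (node (nd lf nil) nil nil nil) nil) nil) nil) nil nil)))) (nd (node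
  (nd (node (nd nil (node nil nil (nd nil (node nil nil nil (nd nil lf))) nil)) nil (nd (node (nd
  (node nil nil nil (nd nil lf)) nil) nil nil (nd nil (node (nd lf nil) nil nil nil))) (node (nd
  (node nil nil nil (nd nil lf)) nil) nil nil (nd nil (node (nd lf nil) nil nil nil)))) (nd nil
  (node nil nil (nd (node (nd lf nil) nil nil nil) nil) nil))) (node (nd (node nil nil (nd nil
  (node nil nil nil (nd nil lf))) nil) nil) nil (nd nil (node (nd (node nil nil nil (nd nil lf))
  nil) nil nil (nd nil (node (nd lf nil) nil nil nil)))) nil)) nil nil (nd nil (node (nd (node nil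
  nil (nd (node (nd lf nil) nil nil nil) nil) nil) nil) nil nil nil))) (node (nd (node (nd nil
  (node nil nil (nd nil (node nil nil nil (nd nil lf))) nil)) nil (nd (node (nd (node nil nil nil
  (nd nil lf)) nil) nil nil (nd nil (node (nd lf nil) nil nil nil))) (node (nd (node nil nil nil
  (nd nil lf)) nil) nil nil (nd nil (node (nd lf nil) nil nil nil)))) (nd nil (node nil nil (nd
  (node (nd lf nil) nil nil nil) nil) nil))) (node (nd (node nil nil (nd nil (node nil nil nil (nd
  nil lf))) nil) nil) nil (nd nil (node (nd (node nil nil nil (nd nil lf)) nil) nil nil (nd nil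
  (node (nd lf nil) nil nil nil)))) nil)) nil nil (nd nil (node (nd (node nil nil (nd (node (nd lf
  nil) nil nil nil) nil) nil) nil) nil nil nil)))) nil (nd (node (nd (node nil (nd (node nil nil
  (nd (node (nd lf nil) nil nil nil) nil) nil) nil) nil nil) nil) (nd (node (nd (node nil nil (nd
  (node (nd lf nil) nil nil nil) nil) nil) nil) nil nil nil) nil) nil nil) nil))) nil)) nil (nd
  (node (nd (node (nd nil (node nil (nd (node (nd (node nil nil (nd nil (node nil nil nil (nd nil
  lf))) nil) nil) nil (nd nil (node (nd (node nil nil nil (nd nil lf)) nil) nil nil (nd nil (node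
  (nd lf nil) nil nil nil)))) nil) (node (nd nil (node nil nil (nd nil (node nil nil nil (nd nil
  lf))) nil)) nil (nd (node (nd (node nil nil nil (nd nil lf)) nil) nil nil (nd nil (node (nd lf
  nil) nil nil nil))) (node (nd (node nil nil nil (nd nil lf)) nil) nil nil (nd nil (node (nd lf
  nil) nil nil nil)))) (nd nil (node nil nil (nd (node (nd lf nil) nil nil nil) nil) nil)))) nil
  (nd (node nil (nd (node nil nil (nd (node (nd lf nil) nil nil nil) nil) nil) nil) nil nil) (node
  nil (nd (node nil nil (nd (node (nd lf nil) nil nil nil) nil) nil) nil) nil nil)))) (nd (node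
  (nd (node (nd nil (node nil nil (nd nil (node nil nil nil (nd nil lf))) nil)) nil (nd (node (nd
  (node nil nil nil (nd nil lf)) nil) nil nil (nd nil (node (nd lf nil) nil nil nil))) (node (nd
  (node nil nil nil (nd nil lf)) nil) nil nil (nd nil (node (nd lf nil) nil nil nil)))) (nd nil
  (node nil nil (nd (node (nd lf nil) nil nil nil) nil) nil))) (node (nd (node nil nil (nd nil
  (node nil nil nil (nd nil lf))) nil) nil) nil (nd nil (node (nd (node nil nil nil (nd nil lf))
  nil) nil nil (nd nil (node (nd lf nil) nil nil nil)))) nil)) nil nil (nd nil (node (nd (node nil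
  nil (nd (node (nd lf nil) nil nil nil) nil) nil) nil) nil nil nil))) nil) nil (nd nil (node (nd
  (node nil (nd (node nil nil (nd (node (nd lf nil) nil nil nil) nil) nil) nil) nil nil) nil) (nd
  (node (nd (node nil nil (nd (node (nd lf nil) nil nil nil) nil) nil) nil) nil nil nil) nil) nil
  nil))) (node (nd (node nil (nd (node (nd (node nil nil (nd nil (node nil nil nil (nd nil lf)))
  nil) nil) nil (nd nil (node (nd (node nil nil nil (nd nil lf)) nil) nil nil (nd nil (node (nd lf
  nil) nil nil nil)))) nil) (node (nd nil (node nil nil (nd nil (node nil nil nil (nd nil lf)))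
  nil)) nil (nd (node (nd (node nil nil nil (nd nil lf)) nil) nil nil (nd nil (node (nd lf nil)
  nil nil nil))) (node (nd (node nil nil nil (nd nil lf)) nil) nil nil (nd nil (node (nd lf nil)
  nil nil nil)))) (nd nil (node nil nil (nd (node (nd lf nil) nil nil nil) nil) nil)))) nil (nd
  (node nil (nd (node nil nil (nd (node (nd lf nil) nil nil nil) nil) nil) nil) nil nil) (node nil
  (nd (node nil nil (nd (node (nd lf nil) nil nil nil) nil) nil) nil) nil nil))) nil) (nd nil
  (node (nd (node (nd nil (node nil nil (nd nil (node nil nil nil (nd nil lf))) nil)) nil (nd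
  (node (nd (node nil nil nil (nd nil lf)) nil) nil nil (nd nil (node (nd lf nil) nil nil nil)))
  (node (nd (node nil nil nil (nd nil lf)) nil) nil nil (nd nil (node (nd lf nil) nil nil nil))))
  (nd nil (node nil nil (nd (node (nd lf nil) nil nil nil) nil) nil))) (node (nd (node nil nil (nd
  nil (node nil nil nil (nd nil lf))) nil) nil) nil (nd nil (node (nd (node nil nil nil (nd nil
  lf)) nil) nil nil (nd nil (node (nd lf nil) nil nil nil)))) nil)) nil nil (nd nil (node (nd
  (node nil nil (nd (node (nd lf nil) nil nil nil) nil) nil) nil) nil nil nil)))) nil (nd (node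
  (nd (node nil (nd (node nil nil (nd (node (nd lf nil) nil nil nil) nil) nil) nil) nil nil) nil)
  (nd (node (nd (node nil nil (nd (node (nd lf nil) nil nil nil) nil) nil) nil) nil nil nil) nil)
  nil nil) (node (nd (node nil (nd (node nil nil (nd (node (nd lf nil) nil nil nil) nil) nil) nil)
  nil nil) nil) (nd (node (nd (node nil nil (nd (node (nd lf nil) nil nil nil) nil) nil) nil) nil
  nil nil) nil) nil nil)))) nil nil nil) (node (nd (node (nd nil (node nil (nd (node (nd (node nil
  nil (nd nil (node nil nil nil (nd nil lf))) nil) nil) nil (nd nil (node (nd (node nil nil nil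
  (nd nil lf)) nil) nil nil (nd nil (node (nd lf nil) nil nil nil)))) nil) (node (nd nil (node nil
  nil (nd nil (node nil nil nil (nd nil lf))) nil)) nil (nd (node (nd (node nil nil nil (nd nil
  lf)) nil) nil nil (nd nil (node (nd lf nil) nil nil nil))) (node (nd (node nil nil nil (nd nil
  lf)) nil) nil nil (nd nil (node (nd lf nil) nil nil nil)))) (nd nil (node nil nil (nd (node (nd
  lf nil) nil nil nil) nil) nil)))) nil (nd (node nil (nd (node nil nil (nd (node (nd lf nil) nil
  nil nil) nil) nil) nil) nil nil) (node nil (nd (node nil nil (nd (node (nd lf nil) nil nil nil)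
  nil) nil) nil) nil nil)))) (nd (node (nd (node (nd nil (node nil nil (nd nil (node nil nil nil
  (nd nil lf))) nil)) nil (nd (node (nd (node nil nil nil (nd nil lf)) nil) nil nil (nd nil (node
  (nd lf nil) nil nil nil))) (node (nd (node nil nil nil (nd nil lf)) nil) nil nil (nd nil (node
  (nd lf nil) nil nil nil)))) (nd nil (node nil nil (nd (node (nd lf nil) nil nil nil) nil) nil)))
  (node (nd (node nil nil (nd nil (node nil nil nil (nd nil lf))) nil) nil) nil (nd nil (node (nd
  (node nil nil nil (nd nil lf)) nil) nil nil (nd nil (node (nd lf nil) nil nil nil)))) nil)) nil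
  nil (nd nil (node (nd (node nil nil (nd (node (nd lf nil) nil nil nil) nil) nil) nil) nil nil
  nil))) nil) nil (nd nil (node (nd (node nil (nd (node nil nil (nd (node (nd lf nil) nil nil nil)
  nil) nil) nil) nil nil) nil) (nd (node (nd (node nil nil (nd (node (nd lf nil) nil nil nil) nil)
  nil) nil) nil nil nil) nil) nil nil))) (node (nd (node nil (nd (node (nd (node nil nil (nd nil
  (node nil nil nil (nd nil lf))) nil) nil) nil (nd nil (node (nd (node nil nil nil (nd nil lf))
  nil) nil nil (nd nil (node (nd lf nil) nil nil nil)))) nil) (node (nd nil (node nil nil (nd nil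
  (node nil nil nil (nd nil lf))) nil)) nil (nd (node (nd (node nil nil nil (nd nil lf)) nil) nil
  nil (nd nil (node (nd lf nil) nil nil nil))) (node (nd (node nil nil nil (nd nil lf)) nil) nil
  nil (nd nil (node (nd lf nil) nil nil nil)))) (nd nil (node nil nil (nd (node (nd lf nil) nil
  nil nil) nil) nil)))) nil (nd (node nil (nd (node nil nil (nd (node (nd lf nil) nil nil nil)
  nil) nil) nil) nil nil) (node nil (nd (node nil nil (nd (node (nd lf nil) nil nil nil) nil) nil)
  nil) nil nil))) nil) (nd nil (node (nd (node (nd nil (node nil nil (nd nil (node nil nil nil (nd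
  nil lf))) nil)) nil (nd (node (nd (node nil nil nil (nd nil lf)) nil) nil nil (nd nil (node (nd
  lf nil) nil nil nil))) (node (nd (node nil nil nil (nd nil lf)) nil) nil nil (nd nil (node (nd
  lf nil) nil nil nil)))) (nd nil (node nil nil (nd (node (nd lf nil) nil nil nil) nil) nil)))
  (node (nd (node nil nil (nd nil (node nil nil nil (nd nil lf))) nil) nil) nil (nd nil (node (nd
  (node nil nil nil (nd nil lf)) nil) nil nil (nd nil (node (nd lf nil) nil nil nil)))) nil)) nil
  nil (nd nil (node (nd (node nil nil (nd (node (nd lf nil) nil nil nil) nil) nil) nil) nil nil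
  nil)))) nil (nd (node (nd (node nil (nd (node nil nil (nd (node (nd lf nil) nil nil nil) nil)
  nil) nil) nil nil) nil) (nd (node (nd (node nil nil (nd (node (nd lf nil) nil nil nil) nil) nil)
  nil) nil nil nil) nil) nil nil) (node (nd (node nil (nd (node nil nil (nd (node (nd lf nil) nil
  nil nil) nil) nil) nil) nil nil) nil) (nd (node (nd (node nil nil (nd (node (nd lf nil) nil nil
  nil) nil) nil) nil) nil nil nil) nil) nil nil)))) nil nil nil)) nil)

def dF64 : Tr :=
  (node (nd (node nil (nd (node (nd (node nil (nd (node (nd (node nil nil (nd nil (node nil nil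
  nil (nd nil lf))) nil) nil) nil (nd nil (node (nd (node nil nil nil (nd nil lf)) nil) nil nil
  (nd nil (node (nd lf nil) nil nil nil)))) nil) (node (nd nil (node nil nil (nd nil (node nil nil
  nil (nd nil lf))) nil)) nil (nd (node (nd (node nil nil nil (nd nil lf)) nil) nil nil (nd nil
  (node (nd lf nil) nil nil nil))) (node (nd (node nil nil nil (nd nil lf)) nil) nil nil (nd nil
  (node (nd lf nil) nil nil nil)))) (nd nil (node nil nil (nd (node (nd lf nil) nil nil nil) nil)
  nil)))) nil (nd (node nil (nd (node nil nil (nd (node (nd lf nil) nil nil nil) nil) nil) nil)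
  nil nil) (node nil (nd (node nil nil (nd (node (nd lf nil) nil nil nil) nil) nil) nil) nil
  nil))) nil) (nd nil (node (nd (node (nd nil (node nil nil (nd nil (node nil nil nil (nd nil
  lf))) nil)) nil (nd (node (nd (node nil nil nil (nd nil lf)) nil) nil nil (nd nil (node (nd lf
  nil) nil nil nil))) (node (nd (node nil nil nil (nd nil lf)) nil) nil nil (nd nil (node (nd lf
  nil) nil nil nil)))) (nd nil (node nil nil (nd (node (nd lf nil) nil nil nil) nil) nil))) (node
  (nd (node nil nil (nd nil (node nil nil nil (nd nil lf))) nil) nil) nil (nd nil (node (nd (node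
  nil nil nil (nd nil lf)) nil) nil nil (nd nil (node (nd lf nil) nil nil nil)))) nil)) nil nil
  (nd nil (node (nd (node nil nil (nd (node (nd lf nil) nil nil nil) nil) nil) nil) nil nil
  nil)))) nil (nd (node (nd (node nil (nd (node nil nil (nd (node (nd lf nil) nil nil nil) nil)
  nil) nil) nil nil) nil) (nd (node (nd (node nil nil (nd (node (nd lf nil) nil nil nil) nil) nil)
  nil) nil nil nil) nil) nil nil) (node (nd (node nil (nd (node nil nil (nd (node (nd lf nil) nil
  nil nil) nil) nil) nil) nil nil) nil) (nd (node (nd (node nil nil (nd (node (nd lf nil) nil nil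
  nil) nil) nil) nil) nil nil nil) nil) nil nil))) (node (nd nil (node nil (nd (node (nd (node nil
  nil (nd nil (node nil nil nil (nd nil lf))) nil) nil) nil (nd nil (node (nd (node nil nil nil
  (nd nil lf)) nil) nil nil (nd nil (node (nd lf nil) nil nil nil)))) nil) (node (nd nil (node nil
  nil (nd nil (node nil nil nil (nd nil lf))) nil)) nil (nd (node (nd (node nil nil nil (nd nil
  lf)) nil) nil nil (nd nil (node (nd lf nil) nil nil nil))) (node (nd (node nil nil nil (nd nil
  lf)) nil) nil nil (nd nil (node (nd lf nil) nil nil nil)))) (nd nil (node nil nil (nd (node (nd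
  lf nil) nil nil nil) nil) nil)))) nil (nd (node nil (nd (node nil nil (nd (node (nd lf nil) nil
  nil nil) nil) nil) nil) nil nil) (node nil (nd (node nil nil (nd (node (nd lf nil) nil nil nil)
  nil) nil) nil) nil nil)))) (nd (node (nd (node (nd nil (node nil nil (nd nil (node nil nil nil
  (nd nil lf))) nil)) nil (nd (node (nd (node nil nil nil (nd nil lf)) nil) nil nil (nd nil (node
  (nd lf nil) nil nil nil))) (node (nd (node nil nil nil (nd nil lf)) nil) nil nil (nd nil (node
  (nd lf nil) nil nil nil)))) (nd nil (node nil nil (nd (node (nd lf nil) nil nil nil) nil) nil)))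
  (node (nd (node nil nil (nd nil (node nil nil nil (nd nil lf))) nil) nil) nil (nd nil (node (nd
  (node nil nil nil (nd nil lf)) nil) nil nil (nd nil (node (nd lf nil) nil nil nil)))) nil)) nil
  nil (nd nil (node (nd (node nil nil (nd (node (nd lf nil) nil nil nil) nil) nil) nil) nil nil
  nil))) nil) nil (nd nil (node (nd (node nil (nd (node nil nil (nd (node (nd lf nil) nil nil nil)
  nil) nil) nil) nil nil) nil) (nd (node (nd (node nil nil (nd (node (nd lf nil) nil nil nil) nil)
  nil) nil) nil nil nil) nil) nil nil)))) nil nil) nil) (nd nil (node (nd (node (nd nil (node nil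
  (nd (node (nd (node nil nil (nd nil (node nil nil nil (nd nil lf))) nil) nil) nil (nd nil (node
  (nd (node nil nil nil (nd nil lf)) nil) nil nil (nd nil (node (nd lf nil) nil nil nil)))) nil)
  (node (nd nil (node nil nil (nd nil (node nil nil nil (nd nil lf))) nil)) nil (nd (node (nd
  (node nil nil nil (nd nil lf)) nil) nil nil (nd nil (node (nd lf nil) nil nil nil))) (node (nd
  (node nil nil nil (nd nil lf)) nil) nil nil (nd nil (node (nd lf nil) nil nil nil)))) (nd nil
  (node nil nil (nd (node (nd lf nil) nil nil nil) nil) nil)))) nil (nd (node nil (nd (node nil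
  nil (nd (node (nd lf nil) nil nil nil) nil) nil) nil) nil nil) (node nil (nd (node nil nil (nd
  (node (nd lf nil) nil nil nil) nil) nil) nil) nil nil)))) (nd (node (nd (node (nd nil (node nil
  nil (nd nil (node nil nil nil (nd nil lf))) nil)) nil (nd (node (nd (node nil nil nil (nd nil
  lf)) nil) nil nil (nd nil (node (nd lf nil) nil nil nil))) (node (nd (node nil nil nil (nd nil
  lf)) nil) nil nil (nd nil (node (nd lf nil) nil nil nil)))) (nd nil (node nil nil (nd (node (nd
  lf nil) nil nil nil) nil) nil))) (node (nd (node nil nil (nd nil (node nil nil nil (nd nil lf)))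
  nil) nil) nil (nd nil (node (nd (node nil nil nil (nd nil lf)) nil) nil nil (nd nil (node (nd lf
  nil) nil nil nil)))) nil)) nil nil (nd nil (node (nd (node nil nil (nd (node (nd lf nil) nil nil
  nil) nil) nil) nil) nil nil nil))) nil) nil (nd nil (node (nd (node nil (nd (node nil nil (nd
  (node (nd lf nil) nil nil nil) nil) nil) nil) nil nil) nil) (nd (node (nd (node nil nil (nd
  (node (nd lf nil) nil nil nil) nil) nil) nil) nil nil nil) nil) nil nil))) (node (nd (node nil
  (nd (node (nd (node nil nil (nd nil (node nil nil nil (nd nil lf))) nil) nil) nil (nd nil (node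
  (nd (node nil nil nil (nd nil lf)) nil) nil nil (nd nil (node (nd lf nil) nil nil nil)))) nil)
  (node (nd nil (node nil nil (nd nil (node nil nil nil (nd nil lf))) nil)) nil (nd (node (nd
  (node nil nil nil (nd nil lf)) nil) nil nil (nd nil (node (nd lf nil) nil nil nil))) (node (nd
  (node nil nil nil (nd nil lf)) nil) nil nil (nd nil (node (nd lf nil) nil nil nil)))) (nd nil
  (node nil nil (nd (node (nd lf nil) nil nil nil) nil) nil)))) nil (nd (node nil (nd (node nil
  nil (nd (node (nd lf nil) nil nil nil) nil) nil) nil) nil nil) (node nil (nd (node nil nil (nd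
  (node (nd lf nil) nil nil nil) nil) nil) nil) nil nil))) nil) (nd nil (node (nd (node (nd nil
  (node nil nil (nd nil (node nil nil nil (nd nil lf))) nil)) nil (nd (node (nd (node nil nil nil
  (nd nil lf)) nil) nil nil (nd nil (node (nd lf nil) nil nil nil))) (node (nd (node nil nil nil
  (nd nil lf)) nil) nil nil (nd nil (node (nd lf nil) nil nil nil)))) (nd nil (node nil nil (nd
  (node (nd lf nil) nil nil nil) nil) nil))) (node (nd (node nil nil (nd nil (node nil nil nil (nd
  nil lf))) nil) nil) nil (nd nil (node (nd (node nil nil nil (nd nil lf)) nil) nil nil (nd nil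
  (node (nd lf nil) nil nil nil)))) nil)) nil nil (nd nil (node (nd (node nil nil (nd (node (nd lf
  nil) nil nil nil) nil) nil) nil) nil nil nil)))) nil (nd (node (nd (node nil (nd (node nil nil
  (nd (node (nd lf nil) nil nil nil) nil) nil) nil) nil nil) nil) (nd (node (nd (node nil nil (nd
  (node (nd lf nil) nil nil nil) nil) nil) nil) nil nil nil) nil) nil nil) (node (nd (node nil (nd
  (node nil nil (nd (node (nd lf nil) nil nil nil) nil) nil) nil) nil nil) nil) (nd (node (nd
  (node nil nil (nd (node (nd lf nil) nil nil nil) nil) nil) nil) nil nil nil) nil) nil nil))))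
  nil nil nil)) nil nil)

def dF65 : Tr :=
  (node (nd (node nil (nd (node (nd (node nil (nd (node (nd (node nil nil (nd nil (node nil nil
  nil (nd nil lf))) nil) nil) nil (nd nil (node (nd (node nil nil nil (nd nil lf)) nil) nil nil
  (nd nil (node (nd lf nil) nil nil nil)))) nil) (node (nd nil (node nil nil (nd nil (node nil nil
  nil (nd nil lf))) nil)) nil (nd (node (nd (node nil nil nil (nd nil lf)) nil) nil nil (nd nil
  (node (nd lf nil) nil nil nil))) (node (nd (node nil nil nil (nd nil lf)) nil) nil nil (nd nil
  (node (nd lf nil) nil nil nil)))) (nd nil (node nil nil (nd (node (nd lf nil) nil nil nil) nil)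
  nil)))) nil (nd (node nil (nd (node nil nil (nd (node (nd lf nil) nil nil nil) nil) nil) nil)
  nil nil) (node nil (nd (node nil nil (nd (node (nd lf nil) nil nil nil) nil) nil) nil) nil
  nil))) nil) (nd nil (node (nd (node (nd nil (node nil nil (nd nil (node nil nil nil (nd nil
  lf))) nil)) nil (nd (node (nd (node nil nil nil (nd nil lf)) nil) nil nil (nd nil (node (nd lf
  nil) nil nil nil))) (node (nd (node nil nil nil (nd nil lf)) nil) nil nil (nd nil (node (nd lf
  nil) nil nil nil)))) (nd nil (node nil nil (nd (node (nd lf nil) nil nil nil) nil) nil))) (node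
  (nd (node nil nil (nd nil (node nil nil nil (nd nil lf))) nil) nil) nil (nd nil (node (nd (node
  nil nil nil (nd nil lf)) nil) nil nil (nd nil (node (nd lf nil) nil nil nil)))) nil)) nil nil
  (nd nil (node (nd (node nil nil (nd (node (nd lf nil) nil nil nil) nil) nil) nil) nil nil
  nil)))) nil (nd (node (nd (node nil (nd (node nil nil (nd (node (nd lf nil) nil nil nil) nil)
  nil) nil) nil nil) nil) (nd (node (nd (node nil nil (nd (node (nd lf nil) nil nil nil) nil) nil)
  nil) nil nil nil) nil) nil nil) (node (nd (node nil (nd (node nil nil (nd (node (nd lf nil) nil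
  nil nil) nil) nil) nil) nil nil) nil) (nd (node (nd (node nil nil (nd (node (nd lf nil) nil nil
  nil) nil) nil) nil) nil nil nil) nil) nil nil))) (node (nd nil (node nil (nd (node (nd (node nil
  nil (nd nil (node nil nil nil (nd nil lf))) nil) nil) nil (nd nil (node (nd (node nil nil nil
  (nd nil lf)) nil) nil nil (nd nil (node (nd lf nil) nil nil nil)))) nil) (node (nd nil (node nil
  nil (nd nil (node nil nil nil (nd nil lf))) nil)) nil (nd (node (nd (node nil nil nil (nd nil
  lf)) nil) nil nil (nd nil (node (nd lf nil) nil nil nil))) (node (nd (node nil nil nil (nd nil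
  lf)) nil) nil nil (nd nil (node (nd lf nil) nil nil nil)))) (nd nil (node nil nil (nd (node (nd
  lf nil) nil nil nil) nil) nil)))) nil (nd (node nil (nd (node nil nil (nd (node (nd lf nil) nil
  nil nil) nil) nil) nil) nil nil) (node nil (nd (node nil nil (nd (node (nd lf nil) nil nil nil)
  nil) nil) nil) nil nil)))) (nd (node (nd (node (nd nil (node nil nil (nd nil (node nil nil nil
  (nd nil lf))) nil)) nil (nd (node (nd (node nil nil nil (nd nil lf)) nil) nil nil (nd nil (node
  (nd lf nil) nil nil nil))) (node (nd (node nil nil nil (nd nil lf)) nil) nil nil (nd nil (node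
  (nd lf nil) nil nil nil)))) (nd nil (node nil nil (nd (node (nd lf nil) nil nil nil) nil) nil)))
  (node (nd (node nil nil (nd nil (node nil nil nil (nd nil lf))) nil) nil) nil (nd nil (node (nd
  (node nil nil nil (nd nil lf)) nil) nil nil (nd nil (node (nd lf nil) nil nil nil)))) nil)) nil
  nil (nd nil (node (nd (node nil nil (nd (node (nd lf nil) nil nil nil) nil) nil) nil) nil nil
  nil))) nil) nil (nd nil (node (nd (node nil (nd (node nil nil (nd (node (nd lf nil) nil nil nil)
  nil) nil) nil) nil nil) nil) (nd (node (nd (node nil nil (nd (node (nd lf nil) nil nil nil) nil)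
  nil) nil) nil nil nil) nil) nil nil)))) nil nil) nil) (nd nil (node (nd (node (nd nil (node nil
  (nd (node (nd (node nil nil (nd nil (node nil nil nil (nd nil lf))) nil) nil) nil (nd nil (node
  (nd (node nil nil nil (nd nil lf)) nil) nil nil (nd nil (node (nd lf nil) nil nil nil)))) nil)
  (node (nd nil (node nil nil (nd nil (node nil nil nil (nd nil lf))) nil)) nil (nd (node (nd
  (node nil nil nil (nd nil lf)) nil) nil nil (nd nil (node (nd lf nil) nil nil nil))) (node (nd
  (node nil nil nil (nd nil lf)) nil) nil nil (nd nil (node (nd lf nil) nil nil nil)))) (nd nil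
  (node nil nil (nd (node (nd lf nil) nil nil nil) nil) nil)))) nil (nd (node nil (nd (node nil
  nil (nd (node (nd lf nil) nil nil nil) nil) nil) nil) nil nil) (node nil (nd (node nil nil (nd
  (node (nd lf nil) nil nil nil) nil) nil) nil) nil nil)))) (nd (node (nd (node (nd nil (node nil
  nil (nd nil (node nil nil nil (nd nil lf))) nil)) nil (nd (node (nd (node nil nil nil (nd nil
  lf)) nil) nil nil (nd nil (node (nd lf nil) nil nil nil))) (node (nd (node nil nil nil (nd nil
  lf)) nil) nil nil (nd nil (node (nd lf nil) nil nil nil)))) (nd nil (node nil nil (nd (node (nd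
  lf nil) nil nil nil) nil) nil))) (node (nd (node nil nil (nd nil (node nil nil nil (nd nil lf)))
  nil) nil) nil (nd nil (node (nd (node nil nil nil (nd nil lf)) nil) nil nil (nd nil (node (nd lf
  nil) nil nil nil)))) nil)) nil nil (nd nil (node (nd (node nil nil (nd (node (nd lf nil) nil nil
  nil) nil) nil) nil) nil nil nil))) nil) nil (nd nil (node (nd (node nil (nd (node nil nil (nd
  (node (nd lf nil) nil nil nil) nil) nil) nil) nil nil) nil) (nd (node (nd (node nil nil (nd
  (node (nd lf nil) nil nil nil) nil) nil) nil) nil nil nil) nil) nil nil))) (node (nd (node nil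
  (nd (node (nd (node nil nil (nd nil (node nil nil nil (nd nil lf))) nil) nil) nil (nd nil (node
  (nd (node nil nil nil (nd nil lf)) nil) nil nil (nd nil (node (nd lf nil) nil nil nil)))) nil)
  (node (nd nil (node nil nil (nd nil (node nil nil nil (nd nil lf))) nil)) nil (nd (node (nd
  (node nil nil nil (nd nil lf)) nil) nil nil (nd nil (node (nd lf nil) nil nil nil))) (node (nd
  (node nil nil nil (nd nil lf)) nil) nil nil (nd nil (node (nd lf nil) nil nil nil)))) (nd nil
  (node nil nil (nd (node (nd lf nil) nil nil nil) nil) nil)))) nil (nd (node nil (nd (node nil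
  nil (nd (node (nd lf nil) nil nil nil) nil) nil) nil) nil nil) (node nil (nd (node nil nil (nd
  (node (nd lf nil) nil nil nil) nil) nil) nil) nil nil))) nil) (nd nil (node (nd (node (nd nil
  (node nil nil (nd nil (node nil nil nil (nd nil lf))) nil)) nil (nd (node (nd (node nil nil nil
  (nd nil lf)) nil) nil nil (nd nil (node (nd lf nil) nil nil nil))) (node (nd (node nil nil nil
  (nd nil lf)) nil) nil nil (nd nil (node (nd lf nil) nil nil nil)))) (nd nil (node nil nil (nd
  (node (nd lf nil) nil nil nil) nil) nil))) (node (nd (node nil nil (nd nil (node nil nil nil (nd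
  nil lf))) nil) nil) nil (nd nil (node (nd (node nil nil nil (nd nil lf)) nil) nil nil (nd nil
  (node (nd lf nil) nil nil nil)))) nil)) nil nil (nd nil (node (nd (node nil nil (nd (node (nd lf
  nil) nil nil nil) nil) nil) nil) nil nil nil)))) nil (nd (node (nd (node nil (nd (node nil nil
  (nd (node (nd lf nil) nil nil nil) nil) nil) nil) nil nil) nil) (nd (node (nd (node nil nil (nd
  (node (nd lf nil) nil nil nil) nil) nil) nil) nil nil nil) nil) nil nil) (node (nd (node nil (nd
  (node nil nil (nd (node (nd lf nil) nil nil nil) nil) nil) nil) nil nil) nil) (nd (node (nd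
  (node nil nil (nd (node (nd lf nil) nil nil nil) nil) nil) nil) nil nil nil) nil) nil nil))))
  nil nil nil)) nil nil)

def dF74 : Tr :=
  (node (nd (node nil (nd (node (nd (node nil (nd (node (nd (node nil nil (nd nil (node nil nil
  nil (nd nil lf))) nil) nil) nil (nd nil (node (nd (node nil nil nil (nd nil lf)) nil) nil nil
  (nd nil (node (nd lf nil) nil nil nil)))) nil) (node (nd nil (node nil nil (nd nil (node nil nil
  nil (nd nil lf))) nil)) nil (nd (node (nd (node nil nil nil (nd nil lf)) nil) nil nil (nd nil
  (node (nd lf nil) nil nil nil))) (node (nd (node nil nil nil (nd nil lf)) nil) nil nil (nd nil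
  (node (nd lf nil) nil nil nil)))) (nd nil (node nil nil (nd (node (nd lf nil) nil nil nil) nil)
  nil)))) nil (nd (node nil (nd (node nil nil (nd (node (nd lf nil) nil nil nil) nil) nil) nil)
  nil nil) (node nil (nd (node nil nil (nd (node (nd lf nil) nil nil nil) nil) nil) nil) nil
  nil))) nil) (nd nil (node (nd (node (nd nil (node nil nil (nd nil (node nil nil nil (nd nil
  lf))) nil)) nil (nd (node (nd (node nil nil nil (nd nil lf)) nil) nil nil (nd nil (node (nd lf
  nil) nil nil nil))) (node (nd (node nil nil nil (nd nil lf)) nil) nil nil (nd nil (node (nd lf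
  nil) nil nil nil)))) (nd nil (node nil nil (nd (node (nd lf nil) nil nil nil) nil) nil))) (node
  (nd (node nil nil (nd nil (node nil nil nil (nd nil lf))) nil) nil) nil (nd nil (node (nd (node
  nil nil nil (nd nil lf)) nil) nil nil (nd nil (node (nd lf nil) nil nil nil)))) nil)) nil nil
  (nd nil (node (nd (node nil nil (nd (node (nd lf nil) nil nil nil) nil) nil) nil) nil nil
  nil)))) nil (nd (node (nd (node nil (nd (node nil nil (nd (node (nd lf nil) nil nil nil) nil)
  nil) nil) nil nil) nil) (nd (node (nd (node nil nil (nd (node (nd lf nil) nil nil nil) nil) nil)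
  nil) nil nil nil) nil) nil nil) (node (nd (node nil (nd (node nil nil (nd (node (nd lf nil) nil
  nil nil) nil) nil) nil) nil nil) nil) (nd (node (nd (node nil nil (nd (node (nd lf nil) nil nil
  nil) nil) nil) nil) nil nil nil) nil) nil nil))) (node (nd nil (node nil (nd (node (nd (node nil
  nil (nd nil (node nil nil nil (nd nil lf))) nil) nil) nil (nd nil (node (nd (node nil nil nil
  (nd nil lf)) nil) nil nil (nd nil (node (nd lf nil) nil nil nil)))) nil) (node (nd nil (node nil
  nil (nd nil (node nil nil nil (nd nil lf))) nil)) nil (nd (node (nd (node nil nil nil (nd nil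
  lf)) nil) nil nil (nd nil (node (nd lf nil) nil nil nil))) (node (nd (node nil nil nil (nd nil
  lf)) nil) nil nil (nd nil (node (nd lf nil) nil nil nil)))) (nd nil (node nil nil (nd (node (nd
  lf nil) nil nil nil) nil) nil)))) nil (nd (node nil (nd (node nil nil (nd (node (nd lf nil) nil
  nil nil) nil) nil) nil) nil nil) (node nil (nd (node nil nil (nd (node (nd lf nil) nil nil nil)
  nil) nil) nil) nil nil)))) (nd (node (nd (node (nd nil (node nil nil (nd nil (node nil nil nil
  (nd nil lf))) nil)) nil (nd (node (nd (node nil nil nil (nd nil lf)) nil) nil nil (nd nil (node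
  (nd lf nil) nil nil nil))) (node (nd (node nil nil nil (nd nil lf)) nil) nil nil (nd nil (node
  (nd lf nil) nil nil nil)))) (nd nil (node nil nil (nd (node (nd lf nil) nil nil nil) nil) nil)))
  (node (nd (node nil nil (nd nil (node nil nil nil (nd nil lf))) nil) nil) nil (nd nil (node (nd
  (node nil nil nil (nd nil lf)) nil) nil nil (nd nil (node (nd lf nil) nil nil nil)))) nil)) nil
  nil (nd nil (node (nd (node nil nil (nd (node (nd lf nil) nil nil nil) nil) nil) nil) nil nil
  nil))) nil) nil (nd nil (node (nd (node nil (nd (node nil nil (nd (node (nd lf nil) nil nil nil)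
  nil) nil) nil) nil nil) nil) (nd (node (nd (node nil nil (nd (node (nd lf nil) nil nil nil) nil)
  nil) nil) nil nil nil) nil) nil nil)))) nil nil) nil) (nd nil (node (nd (node (nd nil (node nil
  (nd (node (nd (node nil nil (nd nil (node nil nil nil (nd nil lf))) nil) nil) nil (nd nil (node
  (nd (node nil nil nil (nd nil lf)) nil) nil nil (nd nil (node (nd lf nil) nil nil nil)))) nil)
  (node (nd nil (node nil nil (nd nil (node nil nil nil (nd nil lf))) nil)) nil (nd (node (nd
  (node nil nil nil (nd nil lf)) nil) nil nil (nd nil (node (nd lf nil) nil nil nil))) (node (nd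
  (node nil nil nil (nd nil lf)) nil) nil nil (nd nil (node (nd lf nil) nil nil nil)))) (nd nil
  (node nil nil (nd (node (nd lf nil) nil nil nil) nil) nil)))) nil (nd (node nil (nd (node nil
  nil (nd (node (nd lf nil) nil nil nil) nil) nil) nil) nil nil) (node nil (nd (node nil nil (nd
  (node (nd lf nil) nil nil nil) nil) nil) nil) nil nil)))) (nd (node (nd (node (nd nil (node nil
  nil (nd nil (node nil nil nil (nd nil lf))) nil)) nil (nd (node (nd (node nil nil nil (nd nil
  lf)) nil) nil nil (nd nil (node (nd lf nil) nil nil nil))) (node (nd (node nil nil nil (nd nil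
  lf)) nil) nil nil (nd nil (node (nd lf nil) nil nil nil)))) (nd nil (node nil nil (nd (node (nd
  lf nil) nil nil nil) nil) nil))) (node (nd (node nil nil (nd nil (node nil nil nil (nd nil lf)))
  nil) nil) nil (nd nil (node (nd (node nil nil nil (nd nil lf)) nil) nil nil (nd nil (node (nd lf
  nil) nil nil nil)))) nil)) nil nil (nd nil (node (nd (node nil nil (nd (node (nd lf nil) nil nil
  nil) nil) nil) nil) nil nil nil))) nil) nil (nd nil (node (nd (node nil (nd (node nil nil (nd
  (node (nd lf nil) nil nil nil) nil) nil) nil) nil nil) nil) (nd (node (nd (node nil nil (nd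
  (node (nd lf nil) nil nil nil) nil) nil) nil) nil nil nil) nil) nil nil))) (node (nd (node nil
  (nd (node (nd (node nil nil (nd nil (node nil nil nil (nd nil lf))) nil) nil) nil (nd nil (node
  (nd (node nil nil nil (nd nil lf)) nil) nil nil (nd nil (node (nd lf nil) nil nil nil)))) nil)
  (node (nd nil (node nil nil (nd nil (node nil nil nil (nd nil lf))) nil)) nil (nd (node (nd
  (node nil nil nil (nd nil lf)) nil) nil nil (nd nil (node (nd lf nil) nil nil nil))) (node (nd
  (node nil nil nil (nd nil lf)) nil) nil nil (nd nil (node (nd lf nil) nil nil nil)))) (nd nil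
  (node nil nil (nd (node (nd lf nil) nil nil nil) nil) nil)))) nil (nd (node nil (nd (node nil
  nil (nd (node (nd lf nil) nil nil nil) nil) nil) nil) nil nil) (node nil (nd (node nil nil (nd
  (node (nd lf nil) nil nil nil) nil) nil) nil) nil nil))) nil) (nd nil (node (nd (node (nd nil
  (node nil nil (nd nil (node nil nil nil (nd nil lf))) nil)) nil (nd (node (nd (node nil nil nil
  (nd nil lf)) nil) nil nil (nd nil (node (nd lf nil) nil nil nil))) (node (nd (node nil nil nil
  (nd nil lf)) nil) nil nil (nd nil (node (nd lf nil) nil nil nil)))) (nd nil (node nil nil (nd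
  (node (nd lf nil) nil nil nil) nil) nil))) (node (nd (node nil nil (nd nil (node nil nil nil (nd
  nil lf))) nil) nil) nil (nd nil (node (nd (node nil nil nil (nd nil lf)) nil) nil nil (nd nil
  (node (nd lf nil) nil nil nil)))) nil)) nil nil (nd nil (node (nd (node nil nil (nd (node (nd lf
  nil) nil nil nil) nil) nil) nil) nil nil nil)))) nil (nd (node (nd (node nil (nd (node nil nil
  (nd (node (nd lf nil) nil nil nil) nil) nil) nil) nil nil) nil) (nd (node (nd (node nil nil (nd
  (node (nd lf nil) nil nil nil) nil) nil) nil) nil nil nil) nil) nil nil) (node (nd (node nil (nd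
  (node nil nil (nd (node (nd lf nil) nil nil nil) nil) nil) nil) nil nil) nil) (nd (node (nd
  (node nil nil (nd (node (nd lf nil) nil nil nil) nil) nil) nil) nil nil nil) nil) nil nil))))
  nil nil nil)) nil nil)

def dF75 : Tr :=
  (node (nd (node nil (nd (node (nd (node nil (nd (node (nd (node nil nil (nd nil (node nil nil
  nil (nd nil lf))) nil) nil) nil (nd nil (node (nd (node nil nil nil (nd nil lf)) nil) nil nil
  (nd nil (node (nd lf nil) nil nil nil)))) nil) (node (nd nil (node nil nil (nd nil (node nil nil
  nil (nd nil lf))) nil)) nil (nd (node (nd (node nil nil nil (nd nil lf)) nil) nil nil (nd nil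
  (node (nd lf nil) nil nil nil))) (node (nd (node nil nil nil (nd nil lf)) nil) nil nil (nd nil
  (node (nd lf nil) nil nil nil)))) (nd nil (node nil nil (nd (node (nd lf nil) nil nil nil) nil)
  nil)))) nil (nd (node nil (nd (node nil nil (nd (node (nd lf nil) nil nil nil) nil) nil) nil)
  nil nil) (node nil (nd (node nil nil (nd (node (nd lf nil) nil nil nil) nil) nil) nil) nil
  nil))) nil) (nd nil (node (nd (node (nd nil (node nil nil (nd nil (node nil nil nil (nd nil
  lf))) nil)) nil (nd (node (nd (node nil nil nil (nd nil lf)) nil) nil nil (nd nil (node (nd lf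
  nil) nil nil nil))) (node (nd (node nil nil nil (nd nil lf)) nil) nil nil (nd nil (node (nd lf
  nil) nil nil nil)))) (nd nil (node nil nil (nd (node (nd lf nil) nil nil nil) nil) nil))) (node
  (nd (node nil nil (nd nil (node nil nil nil (nd nil lf))) nil) nil) nil (nd nil (node (nd (node
  nil nil nil (nd nil lf)) nil) nil nil (nd nil (node (nd lf nil) nil nil nil)))) nil)) nil nil
  (nd nil (node (nd (node nil nil (nd (node (nd lf nil) nil nil nil) nil) nil) nil) nil nil
  nil)))) nil (nd (node (nd (node nil (nd (node nil nil (nd (node (nd lf nil) nil nil nil) nil)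
  nil) nil) nil nil) nil) (nd (node (nd (node nil nil (nd (node (nd lf nil) nil nil nil) nil) nil)
  nil) nil nil nil) nil) nil nil) (node (nd (node nil (nd (node nil nil (nd (node (nd lf nil) nil
  nil nil) nil) nil) nil) nil nil) nil) (nd (node (nd (node nil nil (nd (node (nd lf nil) nil nil
  nil) nil) nil) nil) nil nil nil) nil) nil nil))) (node (nd nil (node nil (nd (node (nd (node nil
  nil (nd nil (node nil nil nil (nd nil lf))) nil) nil) nil (nd nil (node (nd (node nil nil nil
  (nd nil lf)) nil) nil nil (nd nil (node (nd lf nil) nil nil nil)))) nil) (node (nd nil (node nil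
  nil (nd nil (node nil nil nil (nd nil lf))) nil)) nil (nd (node (nd (node nil nil nil (nd nil
  lf)) nil) nil nil (nd nil (node (nd lf nil) nil nil nil))) (node (nd (node nil nil nil (nd nil
  lf)) nil) nil nil (nd nil (node (nd lf nil) nil nil nil)))) (nd nil (node nil nil (nd (node (nd
  lf nil) nil nil nil) nil) nil)))) nil (nd (node nil (nd (node nil nil (nd (node (nd lf nil) nil
  nil nil) nil) nil) nil) nil nil) (node nil (nd (node nil nil (nd (node (nd lf nil) nil nil nil)
  nil) nil) nil) nil nil)))) (nd (node (nd (node (nd nil (node nil nil (nd nil (node nil nil nil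
  (nd nil lf))) nil)) nil (nd (node (nd (node nil nil nil (nd nil lf)) nil) nil nil (nd nil (node
  (nd lf nil) nil nil nil))) (node (nd (node nil nil nil (nd nil lf)) nil) nil nil (nd nil (node
  (nd lf nil) nil nil nil)))) (nd nil (node nil nil (nd (node (nd lf nil) nil nil nil) nil) nil)))
  (node (nd (node nil nil (nd nil (node nil nil nil (nd nil lf))) nil) nil) nil (nd nil (node (nd
  (node nil nil nil (nd nil lf)) nil) nil nil (nd nil (node (nd lf nil) nil nil nil)))) nil)) nil
  nil (nd nil (node (nd (node nil nil (nd (node (nd lf nil) nil nil nil) nil) nil) nil) nil nil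
  nil))) nil) nil (nd nil (node (nd (node nil (nd (node nil nil (nd (node (nd lf nil) nil nil nil)
  nil) nil) nil) nil nil) nil) (nd (node (nd (node nil nil (nd (node (nd lf nil) nil nil nil) nil)
  nil) nil) nil nil nil) nil) nil nil)))) nil nil) (node nil (nd (node (nd (node nil (nd (node (nd
  (node nil nil (nd nil (node nil nil nil (nd nil lf))) nil) nil) nil (nd nil (node (nd (node nil
  nil nil (nd nil lf)) nil) nil nil (nd nil (node (nd lf nil) nil nil nil)))) nil) (node (nd nil
  (node nil nil (nd nil (node nil nil nil (nd nil lf))) nil)) nil (nd (node (nd (node nil nil nil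
  (nd nil lf)) nil) nil nil (nd nil (node (nd lf nil) nil nil nil))) (node (nd (node nil nil nil
  (nd nil lf)) nil) nil nil (nd nil (node (nd lf nil) nil nil nil)))) (nd nil (node nil nil (nd
  (node (nd lf nil) nil nil nil) nil) nil)))) nil (nd (node nil (nd (node nil nil (nd (node (nd lf
  nil) nil nil nil) nil) nil) nil) nil nil) (node nil (nd (node nil nil (nd (node (nd lf nil) nil
  nil nil) nil) nil) nil) nil nil))) nil) (nd nil (node (nd (node (nd nil (node nil nil (nd nil
  (node nil nil nil (nd nil lf))) nil)) nil (nd (node (nd (node nil nil nil (nd nil lf)) nil) nil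
  nil (nd nil (node (nd lf nil) nil nil nil))) (node (nd (node nil nil nil (nd nil lf)) nil) nil
  nil (nd nil (node (nd lf nil) nil nil nil)))) (nd nil (node nil nil (nd (node (nd lf nil) nil
  nil nil) nil) nil))) (node (nd (node nil nil (nd nil (node nil nil nil (nd nil lf))) nil) nil)
  nil (nd nil (node (nd (node nil nil nil (nd nil lf)) nil) nil nil (nd nil (node (nd lf nil) nil
  nil nil)))) nil)) nil nil (nd nil (node (nd (node nil nil (nd (node (nd lf nil) nil nil nil)
  nil) nil) nil) nil nil nil)))) nil (nd (node (nd (node nil (nd (node nil nil (nd (node (nd lf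
  nil) nil nil nil) nil) nil) nil) nil nil) nil) (nd (node (nd (node nil nil (nd (node (nd lf nil)
  nil nil nil) nil) nil) nil) nil nil nil) nil) nil nil) (node (nd (node nil (nd (node nil nil (nd
  (node (nd lf nil) nil nil nil) nil) nil) nil) nil nil) nil) (nd (node (nd (node nil nil (nd
  (node (nd lf nil) nil nil nil) nil) nil) nil) nil nil nil) nil) nil nil))) (node (nd nil (node
  nil (nd (node (nd (node nil nil (nd nil (node nil nil nil (nd nil lf))) nil) nil) nil (nd nil
  (node (nd (node nil nil nil (nd nil lf)) nil) nil nil (nd nil (node (nd lf nil) nil nil nil))))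
  nil) (node (nd nil (node nil nil (nd nil (node nil nil nil (nd nil lf))) nil)) nil (nd (node (nd
  (node nil nil nil (nd nil lf)) nil) nil nil (nd nil (node (nd lf nil) nil nil nil))) (node (nd
  (node nil nil nil (nd nil lf)) nil) nil nil (nd nil (node (nd lf nil) nil nil nil)))) (nd nil
  (node nil nil (nd (node (nd lf nil) nil nil nil) nil) nil)))) nil (nd (node nil (nd (node nil
  nil (nd (node (nd lf nil) nil nil nil) nil) nil) nil) nil nil) (node nil (nd (node nil nil (nd
  (node (nd lf nil) nil nil nil) nil) nil) nil) nil nil)))) (nd (node (nd (node (nd nil (node nil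
  nil (nd nil (node nil nil nil (nd nil lf))) nil)) nil (nd (node (nd (node nil nil nil (nd nil
  lf)) nil) nil nil (nd nil (node (nd lf nil) nil nil nil))) (node (nd (node nil nil nil (nd nil
  lf)) nil) nil nil (nd nil (node (nd lf nil) nil nil nil)))) (nd nil (node nil nil (nd (node (nd
  lf nil) nil nil nil) nil) nil))) (node (nd (node nil nil (nd nil (node nil nil nil (nd nil lf)))
  nil) nil) nil (nd nil (node (nd (node nil nil nil (nd nil lf)) nil) nil nil (nd nil (node (nd lf
  nil) nil nil nil)))) nil)) nil nil (nd nil (node (nd (node nil nil (nd (node (nd lf nil) nil nil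
  nil) nil) nil) nil) nil nil nil))) nil) nil (nd nil (node (nd (node nil (nd (node nil nil (nd
  (node (nd lf nil) nil nil nil) nil) nil) nil) nil nil) nil) (nd (node (nd (node nil nil (nd
  (node (nd lf nil) nil nil nil) nil) nil) nil) nil nil nil) nil) nil nil)))) nil nil)) (nd (node
  (nd (node (nd nil (node nil (nd (node (nd (node nil nil (nd nil (node nil nil nil (nd nil lf)))
  nil) nil) nil (nd nil (node (nd (node nil nil nil (nd nil lf)) nil) nil nil (nd nil (node (nd lf
  nil) nil nil nil)))) nil) (node (nd nil (node nil nil (nd nil (node nil nil nil (nd nil lf)))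
  nil)) nil (nd (node (nd (node nil nil nil (nd nil lf)) nil) nil nil (nd nil (node (nd lf nil)
  nil nil nil))) (node (nd (node nil nil nil (nd nil lf)) nil) nil nil (nd nil (node (nd lf nil)
  nil nil nil)))) (nd nil (node nil nil (nd (node (nd lf nil) nil nil nil) nil) nil)))) nil (nd
  (node nil (nd (node nil nil (nd (node (nd lf nil) nil nil nil) nil) nil) nil) nil nil) (node nil
  (nd (node nil nil (nd (node (nd lf nil) nil nil nil) nil) nil) nil) nil nil)))) (nd (node (nd
  (node (nd nil (node nil nil (nd nil (node nil nil nil (nd nil lf))) nil)) nil (nd (node (nd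
  (node nil nil nil (nd nil lf)) nil) nil nil (nd nil (node (nd lf nil) nil nil nil))) (node (nd
  (node nil nil nil (nd nil lf)) nil) nil nil (nd nil (node (nd lf nil) nil nil nil)))) (nd nil
  (node nil nil (nd (node (nd lf nil) nil nil nil) nil) nil))) (node (nd (node nil nil (nd nil
  (node nil nil nil (nd nil lf))) nil) nil) nil (nd nil (node (nd (node nil nil nil (nd nil lf))
  nil) nil nil (nd nil (node (nd lf nil) nil nil nil)))) nil)) nil nil (nd nil (node (nd (node nil
  nil (nd (node (nd lf nil) nil nil nil) nil) nil) nil) nil nil nil))) nil) nil (nd nil (node (nd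
  (node nil (nd (node nil nil (nd (node (nd lf nil) nil nil nil) nil) nil) nil) nil nil) nil) (nd
  (node (nd (node nil nil (nd (node (nd lf nil) nil nil nil) nil) nil) nil) nil nil nil) nil) nil
  nil))) (node (nd (node nil (nd (node (nd (node nil nil (nd nil (node nil nil nil (nd nil lf)))
  nil) nil) nil (nd nil (node (nd (node nil nil nil (nd nil lf)) nil) nil nil (nd nil (node (nd lf
  nil) nil nil nil)))) nil) (node (nd nil (node nil nil (nd nil (node nil nil nil (nd nil lf)))
  nil)) nil (nd (node (nd (node nil nil nil (nd nil lf)) nil) nil nil (nd nil (node (nd lf nil)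
  nil nil nil))) (node (nd (node nil nil nil (nd nil lf)) nil) nil nil (nd nil (node (nd lf nil)
  nil nil nil)))) (nd nil (node nil nil (nd (node (nd lf nil) nil nil nil) nil) nil)))) nil (nd
  (node nil (nd (node nil nil (nd (node (nd lf nil) nil nil nil) nil) nil) nil) nil nil) (node nil
  (nd (node nil nil (nd (node (nd lf nil) nil nil nil) nil) nil) nil) nil nil))) nil) (nd nil
  (node (nd (node (nd nil (node nil nil (nd nil (node nil nil nil (nd nil lf))) nil)) nil (nd
  (node (nd (node nil nil nil (nd nil lf)) nil) nil nil (nd nil (node (nd lf nil) nil nil nil)))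
  (node (nd (node nil nil nil (nd nil lf)) nil) nil nil (nd nil (node (nd lf nil) nil nil nil))))
  (nd nil (node nil nil (nd (node (nd lf nil) nil nil nil) nil) nil))) (node (nd (node nil nil (nd
  nil (node nil nil nil (nd nil lf))) nil) nil) nil (nd nil (node (nd (node nil nil nil (nd nil
  lf)) nil) nil nil (nd nil (node (nd lf nil) nil nil nil)))) nil)) nil nil (nd nil (node (nd
  (node nil nil (nd (node (nd lf nil) nil nil nil) nil) nil) nil) nil nil nil)))) nil (nd (node
  (nd (node nil (nd (node nil nil (nd (node (nd lf nil) nil nil nil) nil) nil) nil) nil nil) nil)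
  (nd (node (nd (node nil nil (nd (node (nd lf nil) nil nil nil) nil) nil) nil) nil nil nil) nil)
  nil nil) (node (nd (node nil (nd (node nil nil (nd (node (nd lf nil) nil nil nil) nil) nil) nil)
  nil nil) nil) (nd (node (nd (node nil nil (nd (node (nd lf nil) nil nil nil) nil) nil) nil) nil
  nil nil) nil) nil nil)))) nil nil nil) (node (nd (node (nd nil (node nil (nd (node (nd (node nil
  nil (nd nil (node nil nil nil (nd nil lf))) nil) nil) nil (nd nil (node (nd (node nil nil nil
  (nd nil lf)) nil) nil nil (nd nil (node (nd lf nil) nil nil nil)))) nil) (node (nd nil (node nil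
  nil (nd nil (node nil nil nil (nd nil lf))) nil)) nil (nd (node (nd (node nil nil nil (nd nil
  lf)) nil) nil nil (nd nil (node (nd lf nil) nil nil nil))) (node (nd (node nil nil nil (nd nil
  lf)) nil) nil nil (nd nil (node (nd lf nil) nil nil nil)))) (nd nil (node nil nil (nd (node (nd
  lf nil) nil nil nil) nil) nil)))) nil (nd (node nil (nd (node nil nil (nd (node (nd lf nil) nil
  nil nil) nil) nil) nil) nil nil) (node nil (nd (node nil nil (nd (node (nd lf nil) nil nil nil)
  nil) nil) nil) nil nil)))) (nd (node (nd (node (nd nil (node nil nil (nd nil (node nil nil nil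
  (nd nil lf))) nil)) nil (nd (node (nd (node nil nil nil (nd nil lf)) nil) nil nil (nd nil (node
  (nd lf nil) nil nil nil))) (node (nd (node nil nil nil (nd nil lf)) nil) nil nil (nd nil (node
  (nd lf nil) nil nil nil)))) (nd nil (node nil nil (nd (node (nd lf nil) nil nil nil) nil) nil)))
  (node (nd (node nil nil (nd nil (node nil nil nil (nd nil lf))) nil) nil) nil (nd nil (node (nd
  (node nil nil nil (nd nil lf)) nil) nil nil (nd nil (node (nd lf nil) nil nil nil)))) nil)) nil
  nil (nd nil (node (nd (node nil nil (nd (node (nd lf nil) nil nil nil) nil) nil) nil) nil nil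
  nil))) nil) nil (nd nil (node (nd (node nil (nd (node nil nil (nd (node (nd lf nil) nil nil nil)
  nil) nil) nil) nil nil) nil) (nd (node (nd (node nil nil (nd (node (nd lf nil) nil nil nil) nil)
  nil) nil) nil nil nil) nil) nil nil))) (node (nd (node nil (nd (node (nd (node nil nil (nd nil
  (node nil nil nil (nd nil lf))) nil) nil) nil (nd nil (node (nd (node nil nil nil (nd nil lf))
  nil) nil nil (nd nil (node (nd lf nil) nil nil nil)))) nil) (node (nd nil (node nil nil (nd nil
  (node nil nil nil (nd nil lf))) nil)) nil (nd (node (nd (node nil nil nil (nd nil lf)) nil) nil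
  nil (nd nil (node (nd lf nil) nil nil nil))) (node (nd (node nil nil nil (nd nil lf)) nil) nil
  nil (nd nil (node (nd lf nil) nil nil nil)))) (nd nil (node nil nil (nd (node (nd lf nil) nil
  nil nil) nil) nil)))) nil (nd (node nil (nd (node nil nil (nd (node (nd lf nil) nil nil nil)
  nil) nil) nil) nil nil) (node nil (nd (node nil nil (nd (node (nd lf nil) nil nil nil) nil) nil)
  nil) nil nil))) nil) (nd nil (node (nd (node (nd nil (node nil nil (nd nil (node nil nil nil (nd
  nil lf))) nil)) nil (nd (node (nd (node nil nil nil (nd nil lf)) nil) nil nil (nd nil (node (nd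
  lf nil) nil nil nil))) (node (nd (node nil nil nil (nd nil lf)) nil) nil nil (nd nil (node (nd
  lf nil) nil nil nil)))) (nd nil (node nil nil (nd (node (nd lf nil) nil nil nil) nil) nil)))
  (node (nd (node nil nil (nd nil (node nil nil nil (nd nil lf))) nil) nil) nil (nd nil (node (nd
  (node nil nil nil (nd nil lf)) nil) nil nil (nd nil (node (nd lf nil) nil nil nil)))) nil)) nil
  nil (nd nil (node (nd (node nil nil (nd (node (nd lf nil) nil nil nil) nil) nil) nil) nil nil
  nil)))) nil (nd (node (nd (node nil (nd (node nil nil (nd (node (nd lf nil) nil nil nil) nil)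
  nil) nil) nil nil) nil) (nd (node (nd (node nil nil (nd (node (nd lf nil) nil nil nil) nil) nil)
  nil) nil nil nil) nil) nil nil) (node (nd (node nil (nd (node nil nil (nd (node (nd lf nil) nil
  nil nil) nil) nil) nil) nil nil) nil) (nd (node (nd (node nil nil (nd (node (nd lf nil) nil nil
  nil) nil) nil) nil) nil nil nil) nil) nil nil)))) nil nil nil)) nil nil)

/-- The data. -/
def dF : Tr :=
  (node nil nil nil (nd (node (nd nil dF61) (nd nil dF63) (nd dF64 dF65) nil) (node nil nil (nd
  dF74 dF75) nil)))

end Pool.Agent.P.MP_df4ecf_al.Q1
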