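import Pool.Agent.P.MP_df4ecf_al.Q1.DataS
import Pool.Agent.P.MP_df4ecf_al.Q1.DataF
import Pool.Agent.P.MP_df4ecf_al.Q1.Comp

/-!
The kernel checks of the detecting functional.
-/

namespace Pool.Agent.P.MP_df4ecf_al.Q1

theorem dF_rel : chkA 7 dF = true := by decide +kernel

theorem dF_pair : okPair dS dF = true := by decide +kernel

end Pool.Agent.P.MP_df4ecf_al.Q1
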