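import Pool.Agent.P.MP_df4ecf_al.Q1.DataS

/-!
The kernel checks of the identity among the relations.
-/

namespace Pool.Agent.P.MP_df4ecf_al.Q1

theorem dS_lo : Tr.okLo dS = true := by decide +kernel

theorem dS_zero : Tr.okZero dS = true := by decide +kernel

end Pool.Agent.P.MP_df4ecf_al.Q1
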