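import Pool.Agent.P.MP_df4ecf_al.Defs

/-!
The group of basis-conjugating automorphisms of a free group.
-/

namespace Pool.Agent.P.MP_df4ecf_al

/-- The automorphisms of the free group of rank `n` that send every generator to a conjugate of
itself. -/
def PSigma (n : ℕ) : Subgroup (MulAut (FreeGroup (Fin n))) where
  carrier := {φ | ∀ i, ∃ w, φ (FreeGroup.of i) = w * FreeGroup.of i * w⁻¹}
  one_mem' := fun _ => ⟨1, by simp⟩
  mul_mem' := fun {φ ψ} hφ hψ i => by
    obtain ⟨v, hv⟩ := hφ i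
    obtain ⟨w, hw⟩ := hψ i
    exact ⟨φ w * v, by simp [hw, hv, mul_assoc]⟩
  inv_mem' := fun {φ} hφ i => by
    obtain ⟨w, hw⟩ := hφ i
    refine ⟨φ⁻¹ w⁻¹, φ.injective ?_⟩
    simp [hw, mul_assoc]

end Pool.Agent.P.MP_df4ecf_al
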