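import Pool.Agent.P.MP_df4ecf_al.Q1.Mod

/-!
The new relation does not hold in the filtered ring.
-/

namespace Pool.Agent.P.MP_df4ecf_al.Q1

attribute [local instance 100] LieRing.ofAssociativeRing

theorem Fp_expand {C : Type} [Ring C] (X : Lt → C) (s : Cl → Cl → Bool → List Lt → ℤ)
    (u : List Lt) : (sumW 3 fun v => Fp s (v ++ u) • mon X v) =
      ∑ c, ∑ q, tt 0 Neg.neg (fun j k e => s j k e u) c q • ⁅X (c, false) * X (c, true), X q⁆ := by
  generalize ht : tt 0 Neg.neg (fun j k e => s j k e u) = t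
  simp only [sumW, Fp, List.cons_append, List.nil_append, ht, mon, List.map_cons, List.map_nil,
    List.prod_cons, List.prod_nil, mul_one, sub_smul, Finset.sum_sub_distrib, Ring.lie_def,
    smul_sub]
  congr 1
  · simp [Fintype.sum_prod_type, mul_assoc, -zsmul_eq_mul]
  · rw [Finset.sum_comm (f := fun c q => t c q • (X q * (X (c, false) * X (c, true))))]
    refine Finset.sum_congr rfl fun x _ => ?_
    simp [Fintype.sum_prod_type, -zsmul_eq_mul]

theorem corr_alg {C : Type} [Ring C] (X : Lt → C) (s : Cl → Cl → Bool → ℤ) :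
    (∑ j, ∑ k, ∑ e, s j k e •
      (⁅if relP j k e false && relP j k e true then X (j, false) * X (j, true) else 0,
        facQ X j k e⁆ + ⁅facP X j k e,
      if relQ j k e false && relQ j k e true then X (k, false) * X (k, true) else 0⁆)) =
      ∑ c, ∑ q, tt 0 Neg.neg s c q • ⁅X (c, false) * X (c, true), X q⁆ := by
  have sk : ∀ p a b, ⁅X p, X a * X b⁆ = -⁅X a * X b, X p⁆ := fun _ _ _ => (lie_skew _ _).symm
  simp only [Fintype.sum_prod_type, sum_Cl, Fintype.sum_bool, facP, facQ, relP, relQ, tt]
  simp only [Bool.not_true, Bool.not_false, Bool.and_true, Bool.and_false, Bool.false_eq_true,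
    if_true, if_false, zero_lie, lie_zero, add_zero, zero_add, smul_zero, zero_smul, neg_smul,
    smul_neg, sk]
  abel

theorem corr_expand (s : Cl → Cl → Bool → List Lt → ℤ) (u : List Lt) :
    (∑ j, ∑ k, ∑ e, s j k e u • ⁅(mu (gP j k e) : CC) - 1, (mu (gQ j k e) : CC) - 1⁆) =
      sumW 3 fun v => Fp s (v ++ u) • mon XX v := by
  rw [Fp_expand, ← corr_alg]
  simp only [mu_rel]

/-- The functional of a trie. -/
noncomputable def fun9 (T : Tr) (h : chkA 7 T = true) : MM :=
  ⟨fun w => if w.length = 9 then par (subL T w) else 0,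
    fun a b j k e => by
      by_cases hl : a.length + b.length = 7
      · have := chkA_spec a 7 T b hl h j k e
        have e1 : ∀ x y : Lt, (a ++ x :: y :: b).length = 9 := by intro x y; simp; omega
        simpa only [relSum, e1, if_true] using this
      · have e1 : ∀ x y : Lt, ¬ (a ++ x :: y :: b).length = 9 := by intro x y; simp; omega
        simp only [relSum, e1, if_false, add_zero, ite_self, Finset.sum_const_zero],
    fun w hw => if_neg (by omega)⟩

theorem pair_eval (n : ℕ) (g : MM) (p : List Lt → ZMod 2) (hp : ∀ v, v.length = n → g.1 v = p v)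
    (E : List Lt → ℤ) (h0 : (sumW n fun v => E (v ++ []) • mon XX v) = 0) :
    (sumW n fun v => (E v : ZMod 2) * p v) = 0 := by
  let φ : CC →+ ZMod 2 := AddMonoidHom.mk' (fun c => (c g).1 []) (fun _ _ => rfl)
  have h1 := (sumW_map φ n _).symm.trans ((congrArg φ h0).trans (map_zero φ))
  refine (sumW_congr n fun v hv => ?_).trans h1
  rw [map_zsmul, List.append_nil, zsmul_eq_mul, ← hp v hv]
  exact congrArg _ (mon_apply v g []).symm

theorem corr_ne {S T : Tr} (h : chkA 7 T = true) (h' : okPair S T = true) :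
    lseq (fun y => (mu (FreeGroup.of y) : CC) - 1) (fun u => ∑ j, ∑ k, ∑ e, sc S j k e u •
      ⁅(mu (gP j k e) : CC) - 1, (mu (gQ j k e) : CC) - 1⁆) 6 [] ≠ 0 := by
  rw [funext mu_of']
  intro h0
  have h1 := (lseq_expand XX _ (Fp (sc S)) 3 (corr_expand (sc S)) 6 []).symm.trans h0
  rw [show 6 + 3 = 9 from rfl] at h1
  have h2 := pair_eval 9 (fun9 T h) (fun v => par (subL T v)) (fun v hv => if_pos hv) _ h1
  rw [okPair_spec h'] at h2
  exact one_ne_zero h2

end Pool.Agent.P.MP_df4ecf_al.Q1
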