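import Pool.Agent.P.MP_df4ecf_al.Q1.John
import Pool.Agent.P.MP_df4ecf_al.Q1.Mod2
import Pool.Agent.P.MP_df4ecf_al.Q1.CheckS
import Pool.Agent.P.MP_df4ecf_al.Q1.CheckF

/-!
A relation of degree nine in the graded Lie ring of the basis-conjugating group of rank four that
does not follow from the quadratic relations.
-/

namespace Pool.Agent.P.MP_df4ecf_al.Q1

open scoped commutatorElement

attribute [local instance 100] LieRing.ofAssociativeRing

/-- The map from the free group on the eight generators. -/
def piG : FreeGroup Lt →* PSigma 4 := FreeGroup.lift gen8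

theorem piG_of (x : Lt) : piG (FreeGroup.of x) = gen8 x := by simp [piG]

theorem piG_rel (j k : Cl) (e : Bool) : piG ⁅gP j k e, gQ j k e⁆ = 1 := by
  rw [map_commutatorElement, commutatorElement_eq_one_iff_mul_comm]
  apply Subtype.ext
  apply MulEquiv.toMonoidHom_injective
  apply FreeGroup.ext_hom
  intro i
  cases j <;> cases k <;> cases e <;>
    simp only [gP, gQ, relP, relQ, Bool.not_true, Bool.not_false, if_true, Bool.false_eq_true,
      if_false, one_mul, mul_one, map_mul, map_one, piG_of, gen8] <;>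
    fin_cases i <;> simp [alpha_apply, cj_of, mul_assoc]

theorem main : ∃ r : FreeLieRing (Piece (PSigma 4) 0),
    FreeLieRing.extend (inclOne (PSigma 4)) r = 0 ∧ r ∉ quadIdeal (inclOne (PSigma 4)) := by
  obtain ⟨r, h1, h2⟩ := abstract_main FF mu mu_mem piG
    (lamOf (fun φ => lamE XX (dE φ)) (lam_mul XX))
    (fun x => by rw [lamOf_cl, piG_of, lam_gen8, mu_of']) (sc dS) (Efun_zero dS_lo dS_zero)
    piG_rel mu_rel_mem FF_ten
  refine ⟨r, h1, fun hr => corr_ne dF_rel dF_pair ?_⟩
  exact h2.symm.trans (LieHom.mem_ker.1 (quad_PS XX rel_CC hr))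

end Pool.Agent.P.MP_df4ecf_al.Q1
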