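import Pool.Agent.P.MP_df4ecf_al.Q1.Final

/-!
The passage from rank four to all higher ranks by a retraction.
-/

namespace Pool.Agent.P.MP_df4ecf_al.Q1

open scoped commutatorElement

attribute [local instance 100] LieRing.ofAssociativeRing

variable {n : ℕ} (hn : 4 ≤ n)

/-- The inclusion of free groups. -/
def iF : FreeGroup (Fin 4) →* FreeGroup (Fin n) := FreeGroup.map (Fin.castLE hn)

/-- The projection of free groups. -/
def pF (n : ℕ) : FreeGroup (Fin n) →* FreeGroup (Fin 4) :=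
  FreeGroup.lift fun j => if h : j.val < 4 then FreeGroup.of ⟨j.val, h⟩ else 1

theorem iF_of (i : Fin 4) : iF hn (FreeGroup.of i) = FreeGroup.of (Fin.castLE hn i) := rfl

theorem pF_of (j : Fin n) :
    pF n (FreeGroup.of j) = if h : j.val < 4 then FreeGroup.of ⟨j.val, h⟩ else 1 := by
  simp [pF]

theorem pF_iF (x : FreeGroup (Fin 4)) : pF n (iF hn x) = x := by
  have : (pF n).comp (iF hn) = MonoidHom.id _ := by
    ext i
    simp [iF_of, pF_of]
  exact DFunLike.congr_fun this x

/-- The induced endomorphism in rank four. -/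
def retE (φ : PSigma n) : FreeGroup (Fin 4) →* FreeGroup (Fin 4) :=
  (pF n).comp ((φ : MulAut (FreeGroup (Fin n))).toMonoidHom.comp (iF hn))

theorem retE_apply (φ : PSigma n) (x) :
    retE hn φ x = pF n ((φ : MulAut (FreeGroup (Fin n))) (iF hn x)) := rfl

theorem retE_pF (φ : PSigma n) (x : FreeGroup (Fin n)) :
    retE hn φ (pF n x) = pF n ((φ : MulAut (FreeGroup (Fin n))) x) := by
  have : (retE hn φ).comp (pF n) = (pF n).comp (φ : MulAut (FreeGroup (Fin n))).toMonoidHom := by
    ext j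
    change retE hn φ (pF n (FreeGroup.of j)) = pF n ((φ : MulAut (FreeGroup (Fin n))) (FreeGroup.of j))
    by_cases h : j.val < 4
    · rw [pF_of, dif_pos h]; rfl
    · obtain ⟨w, hw⟩ := φ.2 j
      rw [hw, map_mul, map_mul, map_inv, pF_of, dif_neg h]
      simp
  exact DFunLike.congr_fun this x

theorem retE_mul (φ ψ : PSigma n) (x) : retE hn (φ * ψ) x = retE hn φ (retE hn ψ x) := by
  rw [retE_apply hn ψ, retE_pF]; rfl

theorem retE_one (x) : retE hn 1 x = x := pF_iF hn x

/-- The retraction. -/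
def ret : PSigma n →* PSigma 4 :=
  MonoidHom.mk' (fun φ => ⟨MonoidHom.toMulEquiv (retE hn φ) (retE hn φ⁻¹)
      (MonoidHom.ext fun x => by
        change retE hn φ⁻¹ (retE hn φ x) = x
        rw [← retE_mul, inv_mul_cancel, retE_one])
      (MonoidHom.ext fun x => by
        change retE hn φ (retE hn φ⁻¹ x) = x
        rw [← retE_mul, mul_inv_cancel, retE_one]),
    fun i => by
      obtain ⟨w, hw⟩ := φ.2 (Fin.castLE hn i)
      refine ⟨pF n w, ?_⟩
      change retE hn φ (FreeGroup.of i) = _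
      rw [retE_apply, iF_of, hw, map_mul, map_mul, map_inv, ← iF_of, pF_iF]⟩)
    fun φ ψ => Subtype.ext (MulEquiv.ext fun x => retE_mul hn φ ψ x)

/-- The induced endomorphism in rank `n`. -/
def incE (ψ : PSigma 4) : FreeGroup (Fin n) →* FreeGroup (Fin n) :=
  FreeGroup.lift fun j => if h : j.val < 4 then
    iF hn ((ψ : MulAut (FreeGroup (Fin 4))) (FreeGroup.of ⟨j.val, h⟩)) else FreeGroup.of j

theorem incE_of (ψ : PSigma 4) (j : Fin n) : incE hn ψ (FreeGroup.of j) = if h : j.val < 4 then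
    iF hn ((ψ : MulAut (FreeGroup (Fin 4))) (FreeGroup.of ⟨j.val, h⟩)) else FreeGroup.of j := by
  simp [incE]

theorem incE_iF (ψ : PSigma 4) (x) :
    incE hn ψ (iF hn x) = iF hn ((ψ : MulAut (FreeGroup (Fin 4))) x) := by
  have : (incE hn ψ).comp (iF hn) = (iF hn).comp (ψ : MulAut (FreeGroup (Fin 4))).toMonoidHom := by
    ext i
    change incE hn ψ (iF hn (FreeGroup.of i)) = _
    rw [iF_of, incE_of, dif_pos (show (Fin.castLE hn i).val < 4 from i.2)]
    rfl
  exact DFunLike.congr_fun this x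

theorem incE_mul (φ ψ : PSigma 4) (x) : incE hn (φ * ψ) x = incE hn φ (incE hn ψ x) := by
  have : incE hn (φ * ψ) = (incE hn φ).comp (incE hn ψ) := by
    ext j
    change _ = incE hn φ (incE hn ψ (FreeGroup.of j))
    rw [incE_of, incE_of]
    split_ifs with h
    · rw [incE_iF]; rfl
    · rw [incE_of, dif_neg h]
  exact DFunLike.congr_fun this x

theorem incE_one (x) : incE hn 1 x = x := by
  have : incE hn 1 = MonoidHom.id _ := by
    ext j
    rw [incE_of]
    split_ifs with h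
    · rfl
    · rfl
  exact DFunLike.congr_fun this x

/-- The inclusion. -/
def inc : PSigma 4 →* PSigma n :=
  MonoidHom.mk' (fun φ => ⟨MonoidHom.toMulEquiv (incE hn φ) (incE hn φ⁻¹)
      (MonoidHom.ext fun x => by
        change incE hn φ⁻¹ (incE hn φ x) = x
        rw [← incE_mul, inv_mul_cancel, incE_one])
      (MonoidHom.ext fun x => by
        change incE hn φ (incE hn φ⁻¹ x) = x
        rw [← incE_mul, mul_inv_cancel, incE_one]),
    fun j => by
      change ∃ w, incE hn φ (FreeGroup.of j) = _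
      rw [incE_of]
      split_ifs with h
      · obtain ⟨w, hw⟩ := φ.2 ⟨j.val, h⟩
        exact ⟨iF hn w, by rw [hw, map_mul, map_mul, map_inv]; rfl⟩
      · exact ⟨1, by simp⟩⟩)
    fun φ ψ => Subtype.ext (MulEquiv.ext fun x => incE_mul hn φ ψ x)

theorem ret_inc (ψ : PSigma 4) : ret hn (inc hn ψ) = ψ := by
  refine Subtype.ext (MulEquiv.ext fun x => ?_)
  change pF n (incE hn ψ (iF hn x)) = _
  rw [incE_iF, pF_iF]

theorem lam_mul' {G C : Type} [Group G] [LieRing C] (X : Lt → C) (ρ : G →* PSigma 4) (φ ψ : G) :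
    lamE X (dE (ρ (φ * ψ))) = lamE X (dE (ρ φ)) + lamE X (dE (ρ ψ)) := by
  rw [map_mul, lam_mul]

theorem quad_PS' {G C : Type} [Group G] [LieRing C] (X : Lt → C) (ρ : G →* PSigma 4)
    (r : ∀ j k e, ⁅facP X j k e, facQ X j k e⁆ = 0) :
    quadIdeal (inclOne G) ≤
      (FreeLieRing.extend (lamOf (fun φ => lamE X (dE (ρ φ))) (lam_mul' X ρ))).ker := by
  refine quad_ker _ _ (fun φ => kap X (d3 (ρ φ))) (fun φ ψ => kap X (bet (d2 (ρ φ)) (d2 (ρ ψ))))
    ?_ ?_ ?_
  · intro φ ψ
    rw [← kap_add, map_mul]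
    congr 1
    funext l i j k
    exact d3_mul _ _ l i j k
  · intro φ ψ
    rw [(d2_eq (ρ φ)).2, (d2_eq (ρ ψ)).2]
    exact kap_bet X r _ _ (d2_eq _).1 (d2_eq _).1
  · intro φ hφ ψ
    have : d2 (ρ φ) = fun _ _ _ => 0 := by
      funext l i j
      exact add_vanish (f := fun φ => d2 φ l i j) (fun a b => d2_mul a b l i j) _ (lcs_map ρ _ hφ)
    rw [this]
    exact kap_bet_zero X _

include hn in
theorem main_all :
    (FreeLieRing.extend (inclOne (PSigma n))).ker ≠ quadIdeal (inclOne (PSigma n)) := by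
  obtain ⟨r, h1, h2⟩ := abstract_main FF mu mu_mem ((inc hn).comp piG)
    (lamOf (fun φ => lamE XX (dE (ret hn φ))) (lam_mul' XX (ret hn)))
    (fun x => by rw [lamOf_cl, MonoidHom.comp_apply, ret_inc, piG_of, lam_gen8, mu_of'])
    (sc dS) (Efun_zero dS_lo dS_zero)
    (fun j k e => by rw [MonoidHom.comp_apply, piG_rel, map_one]) mu_rel_mem FF_ten
  intro h
  have hr : r ∈ quadIdeal (inclOne (PSigma n)) := h ▸ LieHom.mem_ker.2 h1
  exact corr_ne dF_rel dF_pair
    (h2.symm.trans (LieHom.mem_ker.1 (quad_PS' XX (ret hn) rel_CC hr)))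

end Pool.Agent.P.MP_df4ecf_al.Q1
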