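import Pool.Agent.P.MP_df4ecf_al.Q1.Words
import Pool.Agent.P.MP_df4ecf_al.Main

/-!
Commutator calculus in the free group: an identity among the leading terms of the relations
produces a relation one degree higher.
-/

namespace Pool.Agent.P.MP_df4ecf_al.Q1

open scoped commutatorElement

attribute [local instance 100] LieRing.ofAssociativeRing

/-- A multiplicative descending filtration of a ring. -/
structure Filt (C : Type) [Ring C] where
  F : ℕ → AddSubgroup C
  mul_mem : ∀ {i j : ℕ} {a b : C}, a ∈ F i → b ∈ F j → a * b ∈ F (i + j)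
  anti : ∀ i, F (i + 1) ≤ F i

section gcls

variable {G : Type} [Group G]

theorem gcls_mul (k : ℕ) (a b : G) (ha : a ∈ lcs G k) (hb : b ∈ lcs G k) :
    gcls k (a * b) (mul_mem ha hb) = gcls k a ha + gcls k b hb := cls_mul k a b ha hb

theorem gcls_inv (k : ℕ) (a : G) (ha : a ∈ lcs G k) :
    gcls k a⁻¹ (inv_mem ha) = - gcls k a ha := cls_inv k a ha

theorem gcls_one (k : ℕ) {a : G} (ha : a ∈ lcs G k) (h : a = 1) : gcls k a ha = 0 :=
  cls_eq_zero k ha h

theorem gcls_congr (k : ℕ) {a b : G} (ha : a ∈ lcs G k) (hb : b ∈ lcs G k) (h : a = b) :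
    gcls k a ha = gcls k b hb := by subst h; rfl

theorem mem_of_gcls (k : ℕ) {a : G} (ha : a ∈ lcs G k) (h : gcls k a ha = 0) :
    a ∈ lcs G (k + 1) := by
  have h1 : DirectSum.of (Piece G) k (pcls k a ha) = DirectSum.of (Piece G) k 0 :=
    h.trans (map_zero _).symm
  have h2 := DirectSum.of_injective k h1
  exact (QuotientGroup.eq_one_iff (N := (lcs G (k + 1)).subgroupOf (lcs G k)) ⟨a, ha⟩).1 h2

theorem lcs_map {K : Type} [Group K] (π : K →* G) (k : ℕ) :
    ∀ {a : K}, a ∈ lcs K k → π a ∈ lcs G k := by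
  induction k with
  | zero => intro a _; exact Subgroup.mem_top _
  | succ k ih =>
    intro a ha
    rw [lcs, Subgroup.mem_lowerCentralSeries_succ_iff] at ha
    induction ha using Subgroup.closure_induction with
    | mem x hx =>
      obtain ⟨p, hp, q, -, rfl⟩ := hx
      rw [map_commutatorElement]
      exact lcs_comm_top_mem (ih hp) _
    | one => rw [map_one]; exact one_mem _
    | mul x y _ _ hx hy => rw [map_mul]; exact mul_mem hx hy
    | inv x _ hx => rw [map_inv]; exact inv_mem hx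

end gcls

section Calc

variable {C : Type} [Ring C] (Φ : Filt C)

theorem Filt.mono {i j : ℕ} (h : i ≤ j) {a : C} (ha : a ∈ Φ.F j) : a ∈ Φ.F i := by
  induction h with
  | refl => exact ha
  | step _ ih => exact ih (Φ.anti _ ha)

theorem Filt.mul_le {i j k : ℕ} {a b : C} (ha : a ∈ Φ.F i) (hb : b ∈ Φ.F j) (h : k ≤ i + j) :
    a * b ∈ Φ.F k := Φ.mono h (Φ.mul_mem ha hb)

theorem Filt.lie_le {i j k : ℕ} {a b : C} (ha : a ∈ Φ.F i) (hb : b ∈ Φ.F j) (h : k ≤ i + j) :
    ⁅a, b⁆ ∈ Φ.F k :=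
  sub_mem (Φ.mul_le ha hb h) (Φ.mul_le hb ha (by omega))

variable (μ : FreeGroup Lt →* Cˣ) (hμ : ∀ g, (μ g : C) - 1 ∈ Φ.F 1)

theorem mu_mul (a b : FreeGroup Lt) : (μ (a * b) : C) - 1 =
    ((μ a : C) - 1) + ((μ b : C) - 1) + ((μ a : C) - 1) * ((μ b : C) - 1) := by
  rw [map_mul, Units.val_mul]; noncomm_ring

theorem mu_inv (a : FreeGroup Lt) : (μ a⁻¹ : C) - 1 =
    - ((μ a : C) - 1) - ((μ a⁻¹ : C) - 1) * ((μ a : C) - 1) := by
  have := mu_mul μ a⁻¹ a
  rw [inv_mul_cancel, map_one, Units.val_one, sub_self] at this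
  rw [← sub_eq_zero, this]; abel

theorem mu_comm (a b : FreeGroup Lt) : (μ ⁅a, b⁆ : C) - 1 =
    ⁅(μ a : C) - 1, (μ b : C) - 1⁆ + ⁅(μ a : C) - 1, (μ b : C) - 1⁆ * ((μ (b * a)⁻¹ : C) - 1) := by
  have e : ⁅a, b⁆ = a * b * (b * a)⁻¹ := by simp [commutatorElement_def, mul_assoc]
  have h : (μ b : C) * μ a * μ (b * a)⁻¹ = 1 := by
    rw [← Units.val_mul, ← Units.val_mul, ← map_mul, ← map_mul, mul_inv_cancel, map_one,
      Units.val_one]
  rw [e, map_mul, map_mul, Units.val_mul, Units.val_mul, Ring.lie_def]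
  conv_lhs => rw [← h]
  noncomm_ring

variable {G : Type} [Group G] (π : FreeGroup Lt →* G)

/-- The natural map to the graded Lie ring of the free group. -/
noncomputable def natF : FreeLieAlgebra ℤ Lt →ₗ⁅ℤ⁆ Gr (FreeGroup Lt) :=
  FreeLieAlgebra.lift ℤ fun x => gcls 0 (FreeGroup.of x) (mem_zero _)

theorem natF_of (x : Lt) : natF (FreeLieAlgebra.of ℤ x) = gcls 0 (FreeGroup.of x) (mem_zero _) :=
  FreeLieAlgebra.lift_of_apply _ _

include hμ in
/-- Pairs of leading and next to leading terms of relations. -/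
def good (k : ℕ) : AddSubgroup (FreeLieAlgebra ℤ Lt × C) where
  carrier := {p | ∃ (g : FreeGroup Lt) (h : g ∈ lcs _ k), π g = 1 ∧ natF p.1 = gcls k g h ∧
    (μ g : C) - 1 - p.2 ∈ Φ.F (k + 3) ∧ p.2 ∈ Φ.F (k + 2)}
  zero_mem' := ⟨1, one_mem _, map_one _, by rw [gcls_one k _ rfl]; exact map_zero _,
    by simp, zero_mem _⟩
  add_mem' := by
    rintro p q ⟨g, h, h1, h2, h3, h4⟩ ⟨g', h', h1', h2', h3', h4'⟩
    refine ⟨g * g', mul_mem h h', by rw [map_mul, h1, h1', one_mul],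
      by rw [gcls_mul k g g' h h', ← h2, ← h2']; exact map_add _ _ _, ?_, add_mem h4 h4'⟩
    have h5 : (μ g : C) - 1 ∈ Φ.F (k + 2) := by
      simpa using add_mem (Φ.anti _ h3) h4
    have := add_mem (add_mem h3 h3') (Φ.mul_le h5 (hμ g') (k := k + 3) le_rfl)
    convert this using 1
    rw [mu_mul, Prod.snd_add]; abel
  neg_mem' := by
    rintro p ⟨g, h, h1, h2, h3, h4⟩
    refine ⟨g⁻¹, inv_mem h, by rw [map_inv, h1, inv_one],
      by rw [gcls_inv k g h, ← h2]; exact map_neg _ _, ?_, neg_mem h4⟩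
    have h5 : (μ g : C) - 1 ∈ Φ.F (k + 2) := by
      simpa using add_mem (Φ.anti _ h3) h4
    have := sub_mem (neg_mem h3) (Φ.mul_le (hμ g⁻¹) h5 (k := k + 3) (by omega))
    convert this using 1
    conv_lhs => rw [mu_inv]
    rw [Prod.snd_neg]; abel

theorem good_lie (k : ℕ) (l : FreeLieAlgebra ℤ Lt) (o : C) (h : (l, o) ∈ good Φ μ hμ π k) (y : Lt) :
    (⁅l, FreeLieAlgebra.of ℤ y⁆, ⁅o, (μ (FreeGroup.of y) : C) - 1⁆) ∈ good Φ μ hμ π (k + 1) := by
  obtain ⟨g, h, h1, h2, h3, h4⟩ := h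
  refine ⟨⁅g, FreeGroup.of y⁆, lcs_comm_top_mem h _, by rw [map_commutatorElement, h1]; simp,
    ?_, ?_, Φ.lie_le h4 (hμ _) (by omega)⟩
  · change natF ⁅l, _⁆ = _
    rw [LieHom.map_lie, natF_of]
    change ⁅natF (l, o).1, _⁆ = _
    rw [h2, lie_gcls]
  · have h5 : (μ g : C) - 1 ∈ Φ.F (k + 2) := by
      simpa using add_mem (Φ.anti _ h3) h4
    have := add_mem (Φ.lie_le h3 (hμ (FreeGroup.of y)) (k := k + 1 + 3) (by omega))
      (Φ.mul_le (Φ.lie_le h5 (hμ (FreeGroup.of y)) (k := k + 3) (by omega))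
        (hμ (FreeGroup.of y * g)⁻¹) (k := k + 1 + 3) (by omega))
    convert this using 1
    rw [mu_comm, sub_lie (μ g - 1 : C)]
    abel

/-- The left factor of a group relation. -/
def gP (j k : Cl) (e : Bool) : FreeGroup Lt :=
  (if relP j k e false then FreeGroup.of (j, false) else 1) *
    (if relP j k e true then FreeGroup.of (j, true) else 1)

/-- The right factor of a group relation. -/
def gQ (j k : Cl) (e : Bool) : FreeGroup Lt :=
  (if relQ j k e false then FreeGroup.of (k, false) else 1) *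
    (if relQ j k e true then FreeGroup.of (k, true) else 1)

theorem natF_fac (p q : Bool) (x y : Lt) :
    natF ((if q then FreeLieAlgebra.of ℤ y else 0) + (if p then FreeLieAlgebra.of ℤ x else 0)) =
      gcls 0 ((if p then FreeGroup.of x else 1) * (if q then FreeGroup.of y else 1))
        (mem_zero _) := by
  rw [gcls_mul 0 _ _ (mem_zero _) (mem_zero _), map_add, add_comm]
  congr 1
  · cases p
    · exact (map_zero _).trans (gcls_one 0 _ rfl).symm
    · exact natF_of x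
  · cases q
    · exact (map_zero _).trans (gcls_one 0 _ rfl).symm
    · exact natF_of y

theorem good_base (j k : Cl) (e : Bool) (h1 : π ⁅gP j k e, gQ j k e⁆ = 1)
    (h2 : ⁅(μ (gP j k e) : C) - 1, (μ (gQ j k e) : C) - 1⁆ ∈ Φ.F 3) :
    (⁅facP (FreeLieAlgebra.of ℤ) j k e, facQ (FreeLieAlgebra.of ℤ) j k e⁆,
      ⁅(μ (gP j k e) : C) - 1, (μ (gQ j k e) : C) - 1⁆) ∈ good Φ μ hμ π 1 := by
  refine ⟨⁅gP j k e, gQ j k e⁆, lcs_comm_top_mem (k := 0) (mem_zero _) _, h1, ?_, ?_, h2⟩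
  · change natF ⁅_, _⁆ = _
    rw [LieHom.map_lie, facP, facQ, Fintype.sum_bool, Fintype.sum_bool, natF_fac, natF_fac,
      lie_gcls]
    rfl
  · change (μ ⁅gP j k e, gQ j k e⁆ : C) - 1 - ⁅_, _⁆ ∈ _
    rw [mu_comm, add_sub_cancel_left]
    exact Φ.mul_le h2 (hμ _) le_rfl

theorem good_lseq (B : List Lt → FreeLieAlgebra ℤ Lt) (B' : List Lt → C)
    (h : ∀ u, (B u, B' u) ∈ good Φ μ hμ π 1) (k : ℕ) :
    ∀ u, (lseq (FreeLieAlgebra.of ℤ) B k u,
      lseq (fun y => (μ (FreeGroup.of y) : C) - 1) B' k u) ∈ good Φ μ hμ π (k + 1) := by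
  induction k with
  | zero => exact h
  | succ k ih =>
    intro u
    have := sum_mem (S := good Φ μ hμ π (k + 1 + 1)) (t := Finset.univ)
      fun y _ => good_lie Φ μ hμ π (k + 1) _ _ (ih (y :: u)) y
    rwa [← prod_mk_sum] at this

variable (lam : Piece G 0 →+ C) (hlam : ∀ x, lam (cl (π (FreeGroup.of x))) = μ (FreeGroup.of x) - 1)

include hμ hlam in
theorem rep (k : ℕ) : ∀ (g : FreeGroup Lt) (h : g ∈ lcs _ k), ∃ r : FreeLieRing (Piece G 0),
    natMap G r = gcls k (π g) (lcs_map π k h) ∧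
      (μ g : C) - 1 - FreeLieRing.extend lam r ∈ Φ.F (k + 2) ∧
        FreeLieRing.extend lam r ∈ Φ.F (k + 1) := by
  let P : ℕ → FreeGroup Lt → Prop := fun k g => ∃ h : g ∈ lcs _ k,
    ∃ r : FreeLieRing (Piece G 0), natMap G r = gcls k (π g) (lcs_map π k h) ∧
      (μ g : C) - 1 - FreeLieRing.extend lam r ∈ Φ.F (k + 2) ∧
        FreeLieRing.extend lam r ∈ Φ.F (k + 1)
  have low : ∀ {k} {g : FreeGroup Lt} {c : C}, (μ g : C) - 1 - c ∈ Φ.F (k + 2) → c ∈ Φ.F (k + 1) →
      (μ g : C) - 1 ∈ Φ.F (k + 1) := by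
    intro k g c h1 h2
    simpa using add_mem (Φ.anti _ h1) h2
  have one : ∀ k, P k 1 := fun k =>
    ⟨one_mem _, 0, by rw [gcls_one k _ (map_one π)]; exact map_zero _, by simp, by simp⟩
  have mul : ∀ k a b, P k a → P k b → P k (a * b) := by
    rintro k a b ⟨h, r, h1, h2, h3⟩ ⟨h', r', h1', h2', h3'⟩
    refine ⟨mul_mem h h', r + r', ?_, ?_, by rw [map_add]; exact add_mem h3 h3'⟩
    · rw [map_add, h1, h1', ← gcls_mul]
      exact gcls_congr _ _ _ (map_mul _ _ _).symm
    · have := add_mem (add_mem h2 h2') (Φ.mul_le (low h2 h3) (hμ b) (k := k + 2) le_rfl)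
      convert this using 1
      rw [mu_mul, map_add]; abel
  have inv : ∀ k a, P k a → P k a⁻¹ := by
    rintro k a ⟨h, r, h1, h2, h3⟩
    refine ⟨inv_mem h, -r, ?_, ?_, by rw [map_neg]; exact neg_mem h3⟩
    · rw [map_neg, h1, ← gcls_inv]
      exact gcls_congr _ _ _ (map_inv _ _).symm
    · have := sub_mem (neg_mem h2) (Φ.mul_le (hμ a⁻¹) (low h2 h3) (k := k + 2) (by omega))
      convert this using 1
      conv_lhs => rw [mu_inv]
      rw [map_neg]; abel
  have base : ∀ g, P 0 g := by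
    intro g
    induction g using FreeGroup.induction_on with
    | C1 => exact one 0
    | of x =>
      refine ⟨mem_zero _, FreeLieRing.gen (cl (π (FreeGroup.of x))), natMap_gen _, ?_, ?_⟩
      · rw [lift_gen, hlam, sub_self]; exact zero_mem _
      · rw [lift_gen, hlam]; exact hμ _
    | inv_of x h => exact inv 0 _ h
    | mul a b ha hb => exact mul 0 _ _ ha hb
  have main : ∀ k g, g ∈ lcs _ k → P k g := by
    intro k
    induction k with
    | zero => intro g _; exact base g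
    | succ k ih =>
      intro g hg
      rw [lcs, Subgroup.mem_lowerCentralSeries_succ_iff] at hg
      induction hg using Subgroup.closure_induction with
      | mem x hx =>
        obtain ⟨p, hp, q, -, rfl⟩ := hx
        obtain ⟨h, r, h1, h2, h3⟩ := ih p hp
        obtain ⟨h', r', h1', h2', h3'⟩ := base q
        refine ⟨lcs_comm_top_mem h _, ⁅r, r'⁆, ?_, ?_, ?_⟩
        · rw [LieHom.map_lie, h1, h1', lie_gcls]
          exact gcls_congr _ _ _ (map_commutatorElement _ _ _).symm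
        · have := add_mem (add_mem (Φ.lie_le h2 (hμ q) (k := k + 1 + 2) (by omega))
            (Φ.lie_le h3 h2' (k := k + 1 + 2) (by omega)))
            (Φ.mul_le (Φ.lie_le (low h2 h3) (hμ q) (k := k + 2) (by omega))
              (hμ (q * p)⁻¹) (k := k + 1 + 2) (by omega))
          convert this using 1
          rw [mu_comm, LieHom.map_lie, sub_lie (μ p - 1 : C), lie_sub _ (μ q - 1 : C)]
          abel
        · rw [LieHom.map_lie]
          exact Φ.lie_le h3 h3' (by omega)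
      | one => exact one _
      | mul x y _ _ hx hy => exact mul _ _ _ hx hy
      | inv x _ hx => exact inv _ _ hx
  intro g h
  exact (main k g h).2

include hμ hlam in
theorem abstract_main (s : Cl → Cl → Bool → List Lt → ℤ)
    (hs : ∀ w, w.length = 8 → Efun (Ffun s) 1 7 w = 0)
    (h1 : ∀ j k e, π ⁅gP j k e, gQ j k e⁆ = 1)
    (h2 : ∀ j k e, ⁅(μ (gP j k e) : C) - 1, (μ (gQ j k e) : C) - 1⁆ ∈ Φ.F 3)
    (h10 : ∀ c ∈ Φ.F 10, c = 0) :
    ∃ r : FreeLieRing (Piece G 0), natMap G r = 0 ∧ FreeLieRing.extend lam r =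
      lseq (fun y => (μ (FreeGroup.of y) : C) - 1) (fun u => ∑ j, ∑ k, ∑ e, s j k e u •
        ⁅(μ (gP j k e) : C) - 1, (μ (gQ j k e) : C) - 1⁆) 6 [] := by
  have h := good_lseq Φ μ hμ π (fun u => ∑ j, ∑ k, ∑ e, s j k e u •
      ⁅facP (FreeLieAlgebra.of ℤ) j k e, facQ (FreeLieAlgebra.of ℤ) j k e⁆)
    (fun u => ∑ j, ∑ k, ∑ e, s j k e u • ⁅(μ (gP j k e) : C) - 1, (μ (gQ j k e) : C) - 1⁆)
    (fun u => by
      have := sum_mem (S := good Φ μ hμ π 1) (t := Finset.univ) fun j _ =>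
        sum_mem (t := Finset.univ) fun k _ => sum_mem (t := Finset.univ) fun e _ =>
          zsmul_mem (good_base Φ μ hμ π j k e (h1 j k e) (h2 j k e)) (s j k e u)
      simpa only [Prod.smul_mk, ← prod_mk_sum] using this) 6 []
  rw [lie_identity s hs] at h
  obtain ⟨g, hg, e1, e2, e3, -⟩ := h
  have hg' : g ∈ lcs _ 8 := mem_of_gcls 7 hg (e2.symm.trans (map_zero _))
  obtain ⟨r, f1, f2, -⟩ := rep Φ μ hμ π lam hlam 8 g hg'
  refine ⟨r, f1.trans (gcls_one _ _ e1), ?_⟩
  have := h10 _ (sub_mem e3 f2)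
  rw [sub_sub_sub_cancel_left, sub_eq_zero] at this
  exact this

end Calc

end Pool.Agent.P.MP_df4ecf_al.Q1
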