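import Pool.Agent.P.MP_df4ecf_al.Q1.Lin
import Pool.Agent.P.MP_df4ecf_al.Q1.Defs
import Pool.Agent.P.MP_df4ecf_al.Main

/-!
The quadratic relations of the graded Lie ring of the basis-conjugating group of rank four.
-/

namespace Pool.Agent.P.MP_df4ecf_al.Q1

open scoped commutatorElement

section General

variable {G : Type} [Group G] {C : Type} [LieRing C]

/-- A function on the `k`-th term that is additive and kills the next term descends. -/
def descendC (k : ℕ) (f : G → C)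
    (hf : ∀ a ∈ lcs G k, ∀ b ∈ lcs G k, f (a * b) = f a + f b)
    (h0 : ∀ a ∈ lcs G (k + 1), f a = 0) : Piece G k →+ C :=
  MonoidHom.toAdditiveLeft
    (QuotientGroup.lift ((lcs G (k + 1)).subgroupOf (lcs G k))
      (MonoidHom.mk' (fun a => Multiplicative.ofAdd (f (a : G)))
        (fun a b => congrArg Multiplicative.ofAdd (hf a a.2 b b.2)))
      (fun a ha => congrArg Multiplicative.ofAdd (h0 a ha)))

theorem addC_vanish {f : G → C} (hf : ∀ a b, f (a * b) = f a + f b) :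
    ∀ a ∈ lcs G (0 + 1), f a = 0 := by
  let φ : G →* Multiplicative C :=
    MonoidHom.mk' (fun a => Multiplicative.ofAdd (f a)) fun a b => congrArg _ (hf a b)
  intro a ha
  exact Abelianization.commutator_subset_ker φ ha

/-- The additive map on the degree one part. -/
def lamOf (f : G → C) (hf : ∀ a b, f (a * b) = f a + f b) : Piece G 0 →+ C :=
  descendC 0 f (fun a _ b _ => hf a b) (addC_vanish hf)

theorem lamOf_cl (f : G → C) (hf) (g : G) : lamOf f hf (cl g) = f g := rfl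

theorem quad_ker (f : G → C) (hf : ∀ a b, f (a * b) = f a + f b) (θ : G → C) (β : G → G → C)
    (hθ : ∀ a b, θ (a * b) = θ a + θ b + β a b) (hβ : ∀ a b, β a b - β b a = ⁅f a, f b⁆)
    (hβ0 : ∀ a ∈ lcs G (0 + 1), ∀ b, β a b = 0) :
    quadIdeal (inclOne G) ≤ (FreeLieRing.extend (lamOf f hf)).ker := by
  have hcomm : ∀ a b : G, θ ⁅a, b⁆ = ⁅f a, f b⁆ := by
    intro a b
    have m1 : ⁅a, b⁆ ∈ lcs G (0 + 1) := lcs_comm_top_mem (k := 0) (Subgroup.mem_top a) b
    have e : ⁅a, b⁆ * (b * a) = a * b := by simp [commutatorElement_def, mul_assoc]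
    have h1 := hθ ⁅a, b⁆ (b * a)
    rw [e, hθ, hθ, hβ0 _ m1] at h1
    rw [← hβ]
    linear_combination (norm := abel1) -h1
  have hθ1 : ∀ a ∈ lcs G 1, ∀ b ∈ lcs G 1, θ (a * b) = θ a + θ b := by
    intro a ha b _
    rw [hθ, hβ0 _ ha, add_zero]
  have hθone : θ 1 = 0 := by
    have := hθ1 1 (one_mem _) 1 (one_mem _)
    rw [mul_one] at this
    exact left_eq_add.1 this
  have hθ0 : ∀ a ∈ lcs G (1 + 1), θ a = 0 := by
    intro a ha
    rw [lcs, Subgroup.mem_lowerCentralSeries_succ_iff] at ha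
    induction ha using Subgroup.closure_induction with
    | mem x hx =>
      obtain ⟨s, hs, t, -, rfl⟩ := hx
      rw [hcomm, addC_vanish hf _ hs, zero_lie]
    | one => exact hθone
    | mul x y hx' hy' hx hy =>
      rw [hθ1 x (lcs_succ_le 1 hx') y (lcs_succ_le 1 hy'), hx, hy, add_zero]
    | inv x hx' hx =>
      have := hθ1 x (lcs_succ_le 1 hx') x⁻¹ (inv_mem (lcs_succ_le 1 hx'))
      rw [mul_inv_cancel, hθone, hx, zero_add] at this
      exact this.symm
  let θ1 : Piece G 1 →+ C := descendC 1 θ hθ1 hθ0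
  let θ' : Gr G →+ C := θ1.comp (DFinsupp.evalAddMonoidHom 1)
  have hθ' : ∀ g h, θ' (gcls 1 g h) = θ g := by
    intro g h
    change θ1 ((DirectSum.of (Piece G) 1 (pcls 1 g h)) 1) = θ1 (pcls 1 g h)
    rw [DirectSum.of_eq_same]
  have key : ∀ w ∈ FreeLieRing.degTwo (Piece G 0),
      FreeLieRing.extend (lamOf f hf) w = θ' (natMap G w) := by
    intro w hw
    induction hw using AddSubgroup.closure_induction with
    | mem w hw =>
      obtain ⟨a', b', rfl⟩ := hw
      obtain ⟨a, rfl⟩ := cl_surj a'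
      obtain ⟨b, rfl⟩ := cl_surj b'
      rw [LieHom.map_lie, LieHom.map_lie, lift_gen, lift_gen, natMap_gen, natMap_gen, incl_cl,
        incl_cl, lamOf_cl, lamOf_cl, ← hcomm, lie_gcls]
      exact (hθ' _ _).symm
    | zero => rw [map_zero, map_zero, map_zero]
    | add x y _ _ hx hy => rw [map_add, map_add, map_add, hx, hy]
    | neg x _ hx => rw [map_neg, map_neg, map_neg, hx]
  apply LieSubmodule.lieSpan_le.2
  rintro w ⟨h1, h2⟩
  apply LieHom.mem_ker.2
  have h1' : natMap G w = 0 := h1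
  rw [key w h2, h1', map_zero]

end General

/-- Noncommutative power series in four variables with constant term one, modulo degree four. -/
@[ext] structure Tq where
  a1 : Fin 4 → ℤ
  a2 : Fin 4 → Fin 4 → ℤ
  a3 : Fin 4 → Fin 4 → Fin 4 → ℤ

instance : Mul Tq where
  mul a b := ⟨fun i => a.a1 i + b.a1 i, fun i j => a.a2 i j + b.a2 i j + a.a1 i * b.a1 j,
    fun i j k => a.a3 i j k + b.a3 i j k + a.a1 i * b.a2 j k + a.a2 i j * b.a1 k⟩

instance : One Tq where
  one := ⟨fun _ => 0, fun _ _ => 0, fun _ _ _ => 0⟩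

instance : Inv Tq where
  inv a := ⟨fun i => - a.a1 i, fun i j => - a.a2 i j + a.a1 i * a.a1 j,
    fun i j k => - a.a3 i j k + a.a1 i * a.a2 j k + a.a2 i j * a.a1 k - a.a1 i * a.a1 j * a.a1 k⟩

namespace Tq

@[simp] theorem mul_a1 (a b : Tq) (i) : (a * b).a1 i = a.a1 i + b.a1 i := rfl
@[simp] theorem mul_a2 (a b : Tq) (i j) :
    (a * b).a2 i j = a.a2 i j + b.a2 i j + a.a1 i * b.a1 j := rfl
@[simp] theorem mul_a3 (a b : Tq) (i j k) :
    (a * b).a3 i j k = a.a3 i j k + b.a3 i j k + a.a1 i * b.a2 j k + a.a2 i j * b.a1 k := rfl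
@[simp] theorem one_a1 (i) : (1 : Tq).a1 i = 0 := rfl
@[simp] theorem one_a2 (i j) : (1 : Tq).a2 i j = 0 := rfl
@[simp] theorem one_a3 (i j k) : (1 : Tq).a3 i j k = 0 := rfl
@[simp] theorem inv_a1 (a : Tq) (i) : (a⁻¹).a1 i = - a.a1 i := rfl
@[simp] theorem inv_a2 (a : Tq) (i j) : (a⁻¹).a2 i j = - a.a2 i j + a.a1 i * a.a1 j := rfl
@[simp] theorem inv_a3 (a : Tq) (i j k) : (a⁻¹).a3 i j k =
    - a.a3 i j k + a.a1 i * a.a2 j k + a.a2 i j * a.a1 k - a.a1 i * a.a1 j * a.a1 k := rfl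

instance : Group Tq := Group.ofLeftAxioms
  (by intro a b c; ext <;> simp <;> ring)
  (by intro a; ext <;> simp)
  (by intro a; ext <;> simp; ring)

/-- Substitution of `X l + D2 l + D3 l` for the variable `X l`. -/
def subst (D2 : Fin 4 → Fin 4 → Fin 4 → ℤ) (D3 : Fin 4 → Fin 4 → Fin 4 → Fin 4 → ℤ) :
    Tq →* Tq :=
  MonoidHom.mk' (fun a => ⟨a.a1, fun i j => a.a2 i j + ∑ l, a.a1 l * D2 l i j,
    fun i j k => a.a3 i j k + ∑ l, a.a1 l * D3 l i j k + ∑ l, a.a2 i l * D2 l j k +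
      ∑ l, a.a2 l k * D2 l i j⟩)
    (by intro a b; ext <;> simp [Fin.sum_univ_four] <;> ring)

end Tq

/-- The truncated Magnus expansion. -/
def mag : FreeGroup (Fin 4) →* Tq :=
  FreeGroup.lift fun l => ⟨fun i => if i = l then 1 else 0, fun _ _ => 0, fun _ _ _ => 0⟩

theorem mag_of (l : Fin 4) : mag (FreeGroup.of l) =
    ⟨fun i => if i = l then 1 else 0, fun _ _ => 0, fun _ _ _ => 0⟩ := by
  simp [mag]

/-- Degree two Magnus coefficients. -/
def d2 (φ : PSigma 4) (l i j : Fin 4) : ℤ :=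
  (mag ((φ : MulAut (FreeGroup (Fin 4))) (FreeGroup.of l))).a2 i j

/-- Degree three Magnus coefficients. -/
def d3 (φ : PSigma 4) (l i j k : Fin 4) : ℤ :=
  (mag ((φ : MulAut (FreeGroup (Fin 4))) (FreeGroup.of l))).a3 i j k

/-- The exponents of the conjugating elements. -/
def dE (φ : PSigma 4) (l i : Fin 4) : ℤ := d2 φ l i l

theorem mag_a1 (φ : PSigma 4) (l : Fin 4) :
    (mag ((φ : MulAut (FreeGroup (Fin 4))) (FreeGroup.of l))).a1 = fun i => if i = l then 1 else 0 := by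
  obtain ⟨w, hw⟩ := φ.2 l
  funext i
  simp [hw, mag_of]

theorem d2_eq (φ : PSigma 4) : (∀ l, dE φ l l = 0) ∧ d2 φ = cE (dE φ) := by
  constructor
  · intro l
    obtain ⟨w, hw⟩ := φ.2 l
    simp [dE, d2, hw, mag_of]
    ring
  · funext l p q
    obtain ⟨w, hw⟩ := φ.2 l
    by_cases h1 : p = l <;> by_cases h2 : q = l <;> simp [cE, dE, d2, hw, mag_of, h1, h2] <;> ring

theorem mag_PS (φ : PSigma 4) (x : FreeGroup (Fin 4)) :
    mag ((φ : MulAut (FreeGroup (Fin 4))) x) = Tq.subst (d2 φ) (d3 φ) (mag x) := by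
  have : mag.comp (φ : MulAut (FreeGroup (Fin 4))).toMonoidHom =
      (Tq.subst (d2 φ) (d3 φ)).comp mag := by
    apply FreeGroup.ext_hom
    intro l
    have h1 := mag_a1 φ l
    ext
    · simp [h1, Tq.subst, mag_of]
    · simp [Tq.subst, mag_of, d2]
    · simp [Tq.subst, mag_of, d3]
  exact DFunLike.congr_fun this x

theorem d2_mul (φ ψ : PSigma 4) (l i j : Fin 4) : d2 (φ * ψ) l i j = d2 φ l i j + d2 ψ l i j := by
  have h := mag_PS φ ((ψ : MulAut (FreeGroup (Fin 4))) (FreeGroup.of l))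
  have h1 := mag_a1 ψ l
  have : d2 (φ * ψ) l i j = (mag ((φ : MulAut (FreeGroup (Fin 4)))
      ((ψ : MulAut (FreeGroup (Fin 4))) (FreeGroup.of l)))).a2 i j := rfl
  rw [this, h]
  simp [Tq.subst, h1, d2, add_comm]

theorem d3_mul (φ ψ : PSigma 4) (l i j k : Fin 4) :
    d3 (φ * ψ) l i j k = d3 φ l i j k + d3 ψ l i j k + bet (d2 φ) (d2 ψ) l i j k := by
  have h := mag_PS φ ((ψ : MulAut (FreeGroup (Fin 4))) (FreeGroup.of l))
  have h1 := mag_a1 ψ l
  have : d3 (φ * ψ) l i j k = (mag ((φ : MulAut (FreeGroup (Fin 4)))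
      ((ψ : MulAut (FreeGroup (Fin 4))) (FreeGroup.of l)))).a3 i j k := rfl
  rw [this, h]
  simp [Tq.subst, h1, bet]
  simp only [d2, d3]
  ring

variable {C : Type} [LieRing C] (X : Lt → C)

theorem lam_mul (φ ψ : PSigma 4) : lamE X (dE (φ * ψ)) = lamE X (dE φ) + lamE X (dE ψ) := by
  rw [← lamE_add]
  congr 1
  funext i j
  exact d2_mul φ ψ i j i

theorem quad_PS (r : ∀ j k e, ⁅facP X j k e, facQ X j k e⁆ = 0) :
    quadIdeal (inclOne (PSigma 4)) ≤
      (FreeLieRing.extend (lamOf (fun φ => lamE X (dE φ)) (lam_mul X))).ker := by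
  refine quad_ker _ _ (fun φ => kap X (d3 φ)) (fun φ ψ => kap X (bet (d2 φ) (d2 ψ))) ?_ ?_ ?_
  · intro φ ψ
    rw [← kap_add]
    congr 1
    funext l i j k
    exact d3_mul φ ψ l i j k
  · intro φ ψ
    rw [(d2_eq φ).2, (d2_eq ψ).2]
    exact kap_bet X r _ _ (d2_eq φ).1 (d2_eq ψ).1
  · intro φ hφ ψ
    have : d2 φ = fun _ _ _ => 0 := by
      funext l i j
      exact add_vanish (f := fun φ => d2 φ l i j) (fun a b => d2_mul a b l i j) φ hφ
    rw [this]
    exact kap_bet_zero X _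

/-- The endomorphism that conjugates generator `i` by `u`. -/
def cj (i : Fin 4) (u : FreeGroup (Fin 4)) : FreeGroup (Fin 4) →* FreeGroup (Fin 4) :=
  FreeGroup.lift fun l => if l = i then u * FreeGroup.of i * u⁻¹ else FreeGroup.of l

theorem cj_of (i l : Fin 4) (u : FreeGroup (Fin 4)) :
    cj i u (FreeGroup.of l) = if l = i then u * FreeGroup.of i * u⁻¹ else FreeGroup.of l := by
  simp [cj]

/-- The standard generators. -/
def alpha (i j : Fin 4) (h : j ≠ i) : PSigma 4 :=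
  ⟨MonoidHom.toMulEquiv (cj i (FreeGroup.of j)) (cj i (FreeGroup.of j)⁻¹)
    (by ext l; by_cases hl : l = i <;> simp [cj_of, hl, h, mul_assoc])
    (by ext l; by_cases hl : l = i <;> simp [cj_of, hl, h, mul_assoc]),
    fun l => by
      change ∃ w, cj i (FreeGroup.of j) (FreeGroup.of l) = _
      by_cases hl : l = i
      · exact ⟨FreeGroup.of j, by rw [cj_of, if_pos hl, hl]⟩
      · exact ⟨1, by rw [cj_of, if_neg hl]; simp⟩⟩

theorem alpha_apply (i j : Fin 4) (h : j ≠ i) (x : FreeGroup (Fin 4)) :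
    (alpha i j h : MulAut (FreeGroup (Fin 4))) x = cj i (FreeGroup.of j) x := rfl

/-- The eight generators. -/
def gen8 : Lt → PSigma 4
  | (.c0, false) => alpha 2 0 (by decide)
  | (.c0, true) => alpha 3 0 (by decide)
  | (.c1, false) => alpha 2 1 (by decide)
  | (.c1, true) => alpha 3 1 (by decide)
  | (.c2, false) => alpha 1 2 (by decide)
  | (.c2, true) => alpha 3 2 (by decide)
  | (.c3, false) => alpha 1 3 (by decide)
  | (.c3, true) => alpha 2 3 (by decide)

theorem dE_alpha (i j : Fin 4) (h : j ≠ i) (l p : Fin 4) :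
    dE (alpha i j h) l p = if l = i ∧ p = j then 1 else 0 := by
  unfold dE d2
  rw [alpha_apply, cj_of]
  by_cases hl : l = i
  · subst hl
    by_cases hp : p = j <;> simp [mag_of, hp, h, h.symm]
  · simp [hl, mag_of]

theorem lam_gen8 (x : Lt) : lamE X (dE (gen8 x)) = X x := by
  obtain ⟨c, b⟩ := x
  cases c <;> cases b <;> simp [lamE, gen8, dE_alpha]

end Pool.Agent.P.MP_df4ecf_al.Q1
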