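import Pool.Agent.P.MP_df4ecf_al.Q1.Words

/-!
The linear algebra behind the quadratic relations.
-/

namespace Pool.Agent.P.MP_df4ecf_al.Q1

variable {C : Type} [LieRing C] (X : Lt → C)

/-- The linear part. -/
def lamE (E : Fin 4 → Fin 4 → ℤ) : C :=
  (E 2 0 - E 1 0) • X (.c0, false) + (E 3 0 - E 1 0) • X (.c0, true) +
    (E 2 1 - E 0 1) • X (.c1, false) + (E 3 1 - E 0 1) • X (.c1, true) +
    (E 1 2 - E 0 2) • X (.c2, false) + (E 3 2 - E 0 2) • X (.c2, true) +
    (E 1 3 - E 0 3) • X (.c3, false) + (E 2 3 - E 0 3) • X (.c3, true)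

/-- The quadratic part. -/
def kap (t : Fin 4 → Fin 4 → Fin 4 → Fin 4 → ℤ) : C :=
  (-t 0 1 0 0 - t 2 0 1 2) • ⁅X (.c0, false), X (.c1, false)⁆ +
    (-t 0 1 0 0 - t 3 0 1 3) • ⁅X (.c0, true), X (.c1, true)⁆ +
    (t 0 2 0 0 + t 1 0 2 1) • ⁅X (.c0, false), X (.c2, false)⁆ +
    (-t 0 2 0 0 - t 3 0 2 3) • ⁅X (.c0, true), X (.c2, true)⁆ +
    (t 0 3 0 0 + t 1 0 3 1) • ⁅X (.c0, true), X (.c3, false)⁆ +
    (t 0 3 0 0 + t 2 0 3 2) • ⁅X (.c0, true), X (.c3, true)⁆ +
    (-t 0 1 2 0 - t 1 2 1 1) • ⁅X (.c1, false), X (.c2, false)⁆ +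
    (t 0 1 2 0 - t 3 1 2 3) • ⁅X (.c1, true), X (.c2, true)⁆ +
    (-t 0 1 3 0 - t 1 3 1 1) • ⁅X (.c1, true), X (.c3, false)⁆ +
    (-t 0 1 3 0 + t 2 1 3 2) • ⁅X (.c1, true), X (.c3, true)⁆ +
    (-t 0 2 3 0 + t 1 2 3 1) • ⁅X (.c2, true), X (.c3, false)⁆ +
    (-t 0 2 3 0 - t 2 3 2 2) • ⁅X (.c2, true), X (.c3, true)⁆

/-- The cocycle. -/
def bet (c c' : Fin 4 → Fin 4 → Fin 4 → ℤ) (l i j k : Fin 4) : ℤ :=
  ∑ m, c' l i m * c m j k + ∑ m, c' l m k * c m i j

/-- Degree two coefficients of a conjugating automorphism. -/
def cE (E : Fin 4 → Fin 4 → ℤ) (l p q : Fin 4) : ℤ :=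
  (if q = l then E l p else 0) - (if p = l then E l q else 0)

theorem lamE_add (E E' : Fin 4 → Fin 4 → ℤ) :
    lamE X (fun i j => E i j + E' i j) = lamE X E + lamE X E' := by
  simp only [lamE]
  module

theorem kap_add (t t' t'' : Fin 4 → Fin 4 → Fin 4 → Fin 4 → ℤ) :
    kap X (fun l i j k => t l i j k + t' l i j k + t'' l i j k) = kap X t + kap X t' + kap X t'' := by
  simp only [kap]
  module

theorem kap_bet_zero (c' : Fin 4 → Fin 4 → Fin 4 → ℤ) : kap X (bet (fun _ _ _ => 0) c') = 0 := by
  simp [kap, bet]

set_option linter.unusedSimpArgs false in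
set_option linter.unreachableTactic false in
set_option linter.unusedTactic false in
theorem kap_bet (r : ∀ j k e, ⁅facP X j k e, facQ X j k e⁆ = 0) (E E' : Fin 4 → Fin 4 → ℤ)
    (hE : ∀ l, E l l = 0) (hE' : ∀ l, E' l l = 0) :
    kap X (bet (cE E) (cE E')) - kap X (bet (cE E') (cE E)) = ⁅lamE X E, lamE X E'⁆ := by
  have a0 : ⁅X (.c0, false), X (.c0, true)⁆ = 0 := by
    simpa [facP, facQ, relP, relQ] using r .c0 .c0 false
  have a1 : ⁅X (.c1, false), X (.c1, true)⁆ = 0 := by
    simpa [facP, facQ, relP, relQ] using r .c1 .c1 false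
  have a2 : ⁅X (.c2, false), X (.c2, true)⁆ = 0 := by
    simpa [facP, facQ, relP, relQ] using r .c2 .c2 false
  have a3 : ⁅X (.c3, false), X (.c3, true)⁆ = 0 := by
    simpa [facP, facQ, relP, relQ] using r .c3 .c3 false
  have r010 := r .c0 .c1 false
  have r011 := r .c0 .c1 true
  simp only [facP, facQ, relP, relQ, Fintype.sum_bool, Bool.not_true, Bool.not_false, if_true,
    Bool.false_eq_true, if_false, add_zero, zero_add, add_lie, lie_add] at r010 r011
  have e0101 : ⁅X (.c0, false), X (.c1, true)⁆ = 0 := by
    first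
    | linear_combination (norm := abel1) r010
    | linear_combination (norm := abel1) r011
    | linear_combination (norm := abel1) r011 - r010
  have e0110 : ⁅X (.c0, true), X (.c1, false)⁆ = 0 := by
    first
    | linear_combination (norm := abel1) r010
    | linear_combination (norm := abel1) r011
    | linear_combination (norm := abel1) r011 - r010
  have r020 := r .c0 .c2 false
  have r021 := r .c0 .c2 true
  simp only [facP, facQ, relP, relQ, Fintype.sum_bool, Bool.not_true, Bool.not_false, if_true,
    Bool.false_eq_true, if_false, add_zero, zero_add, add_lie, lie_add] at r020 r021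
  have e0201 : ⁅X (.c0, false), X (.c2, true)⁆ = -⁅X (.c0, true), X (.c2, true)⁆ := by
    first
    | linear_combination (norm := abel1) r020
    | linear_combination (norm := abel1) r021
    | linear_combination (norm := abel1) r021 - r020
  have e0210 : ⁅X (.c0, true), X (.c2, false)⁆ = 0 := by
    first
    | linear_combination (norm := abel1) r020
    | linear_combination (norm := abel1) r021
    | linear_combination (norm := abel1) r021 - r020
  have r030 := r .c0 .c3 false
  have r031 := r .c0 .c3 true
  simp only [facP, facQ, relP, relQ, Fintype.sum_bool, Bool.not_true, Bool.not_false, if_true,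
    Bool.false_eq_true, if_false, add_zero, zero_add, add_lie, lie_add] at r030 r031
  have e0300 : ⁅X (.c0, false), X (.c3, false)⁆ = 0 := by
    first
    | linear_combination (norm := abel1) r030
    | linear_combination (norm := abel1) r031
    | linear_combination (norm := abel1) r031 - r030
  have e0301 : ⁅X (.c0, false), X (.c3, true)⁆ = -⁅X (.c0, true), X (.c3, true)⁆ := by
    first
    | linear_combination (norm := abel1) r030
    | linear_combination (norm := abel1) r031
    | linear_combination (norm := abel1) r031 - r030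
  have r120 := r .c1 .c2 false
  have r121 := r .c1 .c2 true
  simp only [facP, facQ, relP, relQ, Fintype.sum_bool, Bool.not_true, Bool.not_false, if_true,
    Bool.false_eq_true, if_false, add_zero, zero_add, add_lie, lie_add] at r120 r121
  have e1201 : ⁅X (.c1, false), X (.c2, true)⁆ = -⁅X (.c1, true), X (.c2, true)⁆ := by
    first
    | linear_combination (norm := abel1) r120
    | linear_combination (norm := abel1) r121
    | linear_combination (norm := abel1) r121 - r120
  have e1210 : ⁅X (.c1, true), X (.c2, false)⁆ = -⁅X (.c1, true), X (.c2, true)⁆ := by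
    first
    | linear_combination (norm := abel1) r120
    | linear_combination (norm := abel1) r121
    | linear_combination (norm := abel1) r121 - r120
  have r130 := r .c1 .c3 false
  have r131 := r .c1 .c3 true
  simp only [facP, facQ, relP, relQ, Fintype.sum_bool, Bool.not_true, Bool.not_false, if_true,
    Bool.false_eq_true, if_false, add_zero, zero_add, add_lie, lie_add] at r130 r131
  have e1300 : ⁅X (.c1, false), X (.c3, false)⁆ = ⁅X (.c1, true), X (.c3, true)⁆ := by
    first
    | linear_combination (norm := abel1) r130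
    | linear_combination (norm := abel1) r131
    | linear_combination (norm := abel1) r131 - r130
  have e1301 : ⁅X (.c1, false), X (.c3, true)⁆ = -⁅X (.c1, true), X (.c3, true)⁆ := by
    first
    | linear_combination (norm := abel1) r130
    | linear_combination (norm := abel1) r131
    | linear_combination (norm := abel1) r131 - r130
  have r230 := r .c2 .c3 false
  have r231 := r .c2 .c3 true
  simp only [facP, facQ, relP, relQ, Fintype.sum_bool, Bool.not_true, Bool.not_false, if_true,
    Bool.false_eq_true, if_false, add_zero, zero_add, add_lie, lie_add] at r230 r231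
  have e2300 : ⁅X (.c2, false), X (.c3, false)⁆ = -⁅X (.c2, true), X (.c3, false)⁆ := by
    first
    | linear_combination (norm := abel1) r230
    | linear_combination (norm := abel1) r231
    | linear_combination (norm := abel1) r231 - r230
  have e2301 : ⁅X (.c2, false), X (.c3, true)⁆ = ⁅X (.c2, true), X (.c3, false)⁆ := by
    first
    | linear_combination (norm := abel1) r230
    | linear_combination (norm := abel1) r231
    | linear_combination (norm := abel1) r231 - r230
  have sk : ∀ x y, ⁅X x, X y⁆ = -⁅X y, X x⁆ := fun _ _ => (lie_skew _ _).symm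
  simp only [lamE, add_lie, lie_add, smul_lie, lie_smul, lie_self,
    sk (.c0, true) (.c0, false), sk (.c1, false) (.c0, false), sk (.c1, false) (.c0, true), sk
    (.c1, true) (.c0, false), sk (.c1, true) (.c0, true), sk (.c1, true) (.c1, false), sk (.c2,
    false) (.c0, false), sk (.c2, false) (.c0, true), sk (.c2, false) (.c1, false), sk (.c2,
    false) (.c1, true), sk (.c2, true) (.c0, false), sk (.c2, true) (.c0, true), sk (.c2, true)
    (.c1, false), sk (.c2, true) (.c1, true), sk (.c2, true) (.c2, false), sk (.c3, false) (.c0,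
    false), sk (.c3, false) (.c0, true), sk (.c3, false) (.c1, false), sk (.c3, false) (.c1,
    true), sk (.c3, false) (.c2, false), sk (.c3, false) (.c2, true), sk (.c3, true) (.c0,
    false), sk (.c3, true) (.c0, true), sk (.c3, true) (.c1, false), sk (.c3, true) (.c1, true),
    sk (.c3, true) (.c2, false), sk (.c3, true) (.c2, true), sk (.c3, true) (.c3, false), a0,
    a1, a2, a3, e0101, e0110, e0201, e0210, e0300, e0301, e1201, e1210, e1300, e1301, e2300,
    e2301]
  simp only [kap, bet, cE, Fin.sum_univ_four, hE, hE', Fin.reduceEq, if_true, if_false]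
  module

end Pool.Agent.P.MP_df4ecf_al.Q1
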