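import Pool.Agent.P.MP_df4ecf_al.Q1.Comp
import Pool.Agent.P.MP_df4ecf_al.Q1.Good

/-!
A filtered ring in which the quadratic relations hold and the new relation does not.
-/

namespace Pool.Agent.P.MP_df4ecf_al.Q1

attribute [local instance 100] LieRing.ofAssociativeRing

/-- Functionals on words of length at most nine that kill the quadratic relations. -/
def MM : AddSubgroup (List Lt → ZMod 2) where
  carrier := {g | (∀ a b j k e, relSum g a b j k e = 0) ∧ ∀ w : List Lt, 10 ≤ w.length → g w = 0}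
  zero_mem' := ⟨fun a b j k e => by simp [relSum], fun _ _ => rfl⟩
  add_mem' := by
    rintro g g' ⟨h1, h2⟩ ⟨h1', h2'⟩
    refine ⟨fun a b j k e => ?_, fun w hw => by rw [Pi.add_apply, h2 w hw, h2' w hw, add_zero]⟩
    have e1 := h1 a b j k e
    have e2 := h1' a b j k e
    simp only [relSum, Fintype.sum_bool, Pi.add_apply] at e1 e2 ⊢
    split_ifs at e1 e2 ⊢ <;> linear_combination e1 + e2
  neg_mem' := by
    rintro g ⟨h1, h2⟩
    have : -g = g := funext fun w => CharTwo.neg_eq _
    rw [this]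
    exact ⟨h1, h2⟩

/-- The ring. -/
abbrev CC : Type := AddMonoid.End MM

/-- The generators. -/
def XX (x : Lt) : CC :=
  AddMonoidHom.mk' (fun g => ⟨fun w => g.1 (w ++ [x]),
    fun a b j k e => by simpa [relSum] using g.2.1 a (b ++ [x]) j k e,
    fun w hw => g.2.2 _ (by simp; omega)⟩) (fun _ _ => rfl)

theorem XX_apply (x : Lt) (g : MM) (w : List Lt) : (XX x g).1 w = g.1 (w ++ [x]) := rfl

theorem mon_apply (v : List Lt) (g : MM) : ∀ w : List Lt, (mon XX v g).1 w = g.1 (w ++ v) := by
  induction v with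
  | nil => intro w; simp [mon]
  | cons x v ih =>
    intro w
    change (XX x (mon XX v g)).1 w = _
    rw [XX_apply, ih]
    simp

/-- The filtration. -/
def FF : Filt CC where
  F k :=
    { carrier := {c | ∀ (j : ℕ) (g : MM), (∀ w : List Lt, j + k ≤ w.length → g.1 w = 0) →
        ∀ w : List Lt, j ≤ w.length → (c g).1 w = 0}
      zero_mem' := fun _ _ _ _ _ => rfl
      add_mem' := by
        intro c c' h h' j g hg w hw
        change (c g).1 w + (c' g).1 w = 0
        rw [h j g hg w hw, h' j g hg w hw, add_zero]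
      neg_mem' := by
        intro c h j g hg w hw
        change -(c g).1 w = 0
        rw [h j g hg w hw, neg_zero] }
  mul_mem := by
    intro i j a b ha hb l g hg
    exact ha l (b g) (hb (l + i) g fun w hw => hg w (by omega))
  anti := by
    intro i c hc j g hg
    exact hc j g fun w hw => hg w (by omega)

theorem FF_ten (c : CC) (h : c ∈ FF.F 10) : c = 0 := by
  ext g w
  exact h 0 g (fun w hw => g.2.2 w (by omega)) w (Nat.zero_le _)

theorem XX_mem (x : Lt) : XX x ∈ FF.F 1 := by
  intro j g hg w hw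
  exact hg _ (by simp; omega)

theorem one_memF : (1 : CC) ∈ FF.F 0 := fun _ _ hg => hg

theorem pow_memF {c : CC} (h : c ∈ FF.F 1) (n : ℕ) : c ^ n ∈ FF.F n := by
  induction n with
  | zero => exact one_memF
  | succ n ih => rw [pow_succ]; exact FF.mul_mem ih h

theorem inv_memF (u : CCˣ) (h : (u : CC) - 1 ∈ FF.F 1) : ((u⁻¹ : CCˣ) : CC) - 1 ∈ FF.F 1 := by
  have h' : 1 - (u : CC) ∈ FF.F 1 := by simpa using neg_mem h
  have e : ((u⁻¹ : CCˣ) : CC) = 1 + (1 - (u : CC)) * ((u⁻¹ : CCˣ) : CC) := by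
    rw [sub_mul, one_mul, Units.mul_inv]; abel
  have key : ∀ n : ℕ, ∃ a ∈ FF.F 0, ((u⁻¹ : CCˣ) : CC) = a + (1 - (u : CC)) ^ n * (u⁻¹ : CCˣ) := by
    intro n
    induction n with
    | zero => exact ⟨0, zero_mem _, by simp⟩
    | succ n ih =>
      obtain ⟨a, ha, e1⟩ := ih
      refine ⟨a + (1 - (u : CC)) ^ n, add_mem ha (FF.mono (Nat.zero_le _) (pow_memF h' n)), ?_⟩
      rw [pow_succ, mul_assoc, add_assoc, ← mul_one_add, ← e]
      exact e1
  obtain ⟨a, ha, e1⟩ := key 10
  rw [FF_ten _ (pow_memF h' 10), zero_mul, add_zero] at e1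
  rw [e, add_sub_cancel_left, e1]
  exact FF.mul_mem h' ha

theorem unit_XX (x : Lt) : IsUnit (1 + XX x) :=
  IsNilpotent.isUnit_one_add ⟨10, FF_ten _ (pow_memF (XX_mem x) 10)⟩

/-- The Magnus map into the ring. -/
noncomputable def mu : FreeGroup Lt →* CCˣ := FreeGroup.lift fun x => (unit_XX x).unit

theorem mu_of (x : Lt) : (mu (FreeGroup.of x) : CC) = 1 + XX x := by simp [mu]

theorem mu_of' (x : Lt) : (mu (FreeGroup.of x) : CC) - 1 = XX x := by
  rw [mu_of, add_sub_cancel_left]

theorem mu_mem (g : FreeGroup Lt) : (mu g : CC) - 1 ∈ FF.F 1 := by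
  induction g using FreeGroup.induction_on with
  | C1 => simp
  | of x => rw [mu_of']; exact XX_mem x
  | inv_of x h => rw [map_inv]; exact inv_memF _ h
  | mul a b ha hb => rw [mu_mul]; exact add_mem (add_mem ha hb) (FF.mul_le ha hb (by omega))

theorem rel_CC (j k : Cl) (e : Bool) : ⁅facP XX j k e, facQ XX j k e⁆ = 0 := by
  ext g w
  have h := g.2.1 w [] j k e
  have e1 : ∀ x y : Lt, ((⁅XX x, XX y⁆ : CC) g).1 w = g.1 (w ++ [x, y]) + g.1 (w ++ [y, x]) := by
    intro x y
    change (XX x (XX y g)).1 w - (XX y (XX x g)).1 w = _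
    simp only [XX_apply, List.append_assoc, CharTwo.sub_eq_add]
    rfl
  have e2 : ∀ c c' : CC, ((c + c') g).1 w = (c g).1 w + (c' g).1 w := fun _ _ => rfl
  have e3 : ((0 : CC) g).1 w = 0 := rfl
  change ((⁅facP XX j k e, facQ XX j k e⁆ : CC) g).1 w = 0
  simp only [relSum, facP, facQ, Fintype.sum_bool] at h ⊢
  revert h
  cases relP j k e true <;> cases relP j k e false <;> cases relQ j k e true <;>
    cases relQ j k e false <;>
    simp only [if_true, Bool.false_eq_true, if_false, add_zero, zero_add, lie_zero, zero_lie,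
      add_lie, lie_add, e1, e2, e3, Bool.and_true, Bool.and_false, imp_self]
  all_goals intro h; linear_combination h

theorem mu_fac (p q : Bool) (x y : Lt) :
    (mu ((if p then FreeGroup.of x else 1) * (if q then FreeGroup.of y else 1)) : CC) - 1 =
      ((if q then XX y else 0) + (if p then XX x else 0)) + if p && q then XX x * XX y else 0 := by
  rw [mu_mul]
  cases p <;> cases q <;> simp [mu_of', add_comm]

theorem mu_rel (j k : Cl) (e : Bool) : ⁅(mu (gP j k e) : CC) - 1, (mu (gQ j k e) : CC) - 1⁆ =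
    ⁅if relP j k e false && relP j k e true then XX (j, false) * XX (j, true) else 0,
      facQ XX j k e⁆ +
    ⁅facP XX j k e,
      if relQ j k e false && relQ j k e true then XX (k, false) * XX (k, true) else 0⁆ := by
  have h := rel_CC j k e
  have key : ∀ a a' b b' : CC, ⁅a, b⁆ = 0 → ⁅a', b'⁆ = 0 → ⁅a + a', b + b'⁆ = ⁅a', b⁆ + ⁅a, b'⁆ := by
    intro a a' b b' h1 h2
    rw [add_lie, lie_add, lie_add, h1, h2, zero_add, add_zero, add_comm]
  rw [facP, facQ, Fintype.sum_bool, Fintype.sum_bool] at h ⊢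
  rw [gP, gQ, mu_fac, mu_fac]
  refine key _ _ _ _ h ?_
  have : (relP j k e false && relP j k e true) = false ∨
      (relQ j k e false && relQ j k e true) = false := by clear h key; revert j k e; decide
  rcases this with h1 | h1 <;> rw [h1]
  · exact zero_lie _
  · exact lie_zero _

theorem mu_rel_mem (j k : Cl) (e : Bool) :
    ⁅(mu (gP j k e) : CC) - 1, (mu (gQ j k e) : CC) - 1⁆ ∈ FF.F 3 := by
  have h1 : ∀ (p : Bool) (x y : Lt), (if p then XX x * XX y else 0) ∈ FF.F 2 := by
    intro p x y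
    cases p
    · exact zero_mem _
    · exact FF.mul_mem (XX_mem x) (XX_mem y)
  have h2 : ∀ (p : Bool) (x : Lt), (if p then XX x else 0) ∈ FF.F 1 := by
    intro p x
    cases p
    · exact zero_mem _
    · exact XX_mem x
  rw [mu_rel]
  exact add_mem (FF.lie_le (h1 _ _ _) (sum_mem fun b _ => h2 _ _) le_rfl)
    (FF.lie_le (sum_mem fun b _ => h2 _ _) (h1 _ _ _) le_rfl)

end Pool.Agent.P.MP_df4ecf_al.Q1
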