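import Pool.Agent.P.MP_df4ecf_al.Q1.Trie

/-!
The meaning of the tries: integer valued functions on words.
-/

namespace Pool.Agent.P.MP_df4ecf_al.Q1

open Tr

/-- The bits of the letters of a given colour. -/
def bits (c : Cl) : List Lt → List Bool
  | [] => []
  | l :: w => if l.1 = c then l.2 :: bits c w else bits c w

theorem bits_append (c : Cl) (a b : List Lt) : bits c (a ++ b) = bits c a ++ bits c b := by
  induction a with
  | nil => rfl
  | cons l a ih => simp only [List.cons_append, bits, ih]; split_ifs <;> rfl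

/-- The index built from eight bits. -/
def ix8 (a0 a1 b0 b1 c0 c1 d0 d1 : Bool) : ℕ :=
  a0.toNat + 2 * b0.toNat + 4 * c0.toNat + 8 * d0.toNat +
    16 * a1.toNat + 32 * b1.toNat + 64 * c1.toNat + 128 * d1.toNat

/-- The index of a family of bit lists. -/
def ixG (g : Cl → List Bool) : ℕ :=
  ix8 ((g .c0).getD 0 false) ((g .c0).getD 1 false) ((g .c1).getD 0 false) ((g .c1).getD 1 false)
    ((g .c2).getD 0 false) ((g .c2).getD 1 false) ((g .c3).getD 0 false) ((g .c3).getD 1 false)

/-- The index of a word. -/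
def idx (w : List Lt) : ℕ := ixG fun c => bits c w

/-- Words with at most two letters of each colour. -/
def valid (w : List Lt) : Prop := ∀ c, (bits c w).length ≤ 2

instance (w : List Lt) : Decidable (valid w) := by unfold valid; infer_instance

/-- The value of a trie at a word. -/
noncomputable def ev (t : Tr) (w : List Lt) : ℤ :=
  if valid w then val (t.sub (w.map Prod.fst)) (idx w) else 0

theorem bits_swap_ne (a b : List Lt) (x y : Lt) (h : x.1 ≠ y.1) (c : Cl) :
    bits c (a ++ x :: y :: b) = bits c (a ++ y :: x :: b) := by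
  rw [bits_append, bits_append]
  congr 1
  simp only [bits]
  by_cases hx : x.1 = c
  · have hy : ¬ y.1 = c := fun hy => h (hx.trans hy.symm)
    simp [hx, hy]
  · simp [hx]

theorem bits_len_swap (a b : List Lt) (x y : Lt) (c : Cl) :
    (bits c (a ++ x :: y :: b)).length = (bits c (a ++ y :: x :: b)).length := by
  simp only [bits_append, bits, List.length_append]
  split_ifs <;> simp

theorem ixG_swap (g g' : Cl → List Bool) (c : Cl) (p q : Bool) (h : g c = [p, q])
    (h' : g' c = [q, p]) (ho : ∀ c', c' ≠ c → g' c' = g c') : piA c (ixG g) = ixG g' := by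
  have key : ∀ a0 a1 b0 b1 c0 c1 d0 d1 : Bool,
      piA .c0 (ix8 a0 a1 b0 b1 c0 c1 d0 d1) = ix8 a1 a0 b0 b1 c0 c1 d0 d1 ∧
      piA .c1 (ix8 a0 a1 b0 b1 c0 c1 d0 d1) = ix8 a0 a1 b1 b0 c0 c1 d0 d1 ∧
      piA .c2 (ix8 a0 a1 b0 b1 c0 c1 d0 d1) = ix8 a0 a1 b0 b1 c1 c0 d0 d1 ∧
      piA .c3 (ix8 a0 a1 b0 b1 c0 c1 d0 d1) = ix8 a0 a1 b0 b1 c0 c1 d1 d0 := by decide +kernel
  unfold ixG
  cases c
  · rw [(key ..).1, h, h', ho .c1 (by decide), ho .c2 (by decide), ho .c3 (by decide)]; rfl
  · rw [(key ..).2.1, h, h', ho .c0 (by decide), ho .c2 (by decide), ho .c3 (by decide)]; rfl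
  · rw [(key ..).2.2.1, h, h', ho .c0 (by decide), ho .c1 (by decide), ho .c3 (by decide)]; rfl
  · rw [(key ..).2.2.2, h, h', ho .c0 (by decide), ho .c1 (by decide), ho .c2 (by decide)]; rfl

theorem ev_swapAt (t : Tr) (a b : List Lt) (x y : Lt) :
    ev (swapAt a.length t) (a ++ x :: y :: b) = ev t (a ++ y :: x :: b) := by
  have hv : valid (a ++ x :: y :: b) ↔ valid (a ++ y :: x :: b) := by
    simp only [valid, bits_len_swap a b x y]
  unfold ev
  by_cases h : valid (a ++ x :: y :: b)
  swap
  · rw [if_neg h, if_neg (hv.not.1 h)]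
  rw [if_pos h, if_pos (hv.1 h)]
  have e := swapAt_sub (a.map Prod.fst) x.1 y.1 (b.map Prod.fst) t
  rw [List.length_map] at e
  simp only [List.map_append, List.map_cons]
  rw [e]
  by_cases hxy : x.1 = y.1
  · rw [if_pos hxy, val_dsw, ← hxy]
    congr 1
    have h2 := h x.1
    simp only [bits_append, bits, if_true, hxy.symm, List.length_append, List.length_cons] at h2
    have ha : bits x.1 a = [] := List.eq_nil_of_length_eq_zero (by omega)
    have hb : bits x.1 b = [] := List.eq_nil_of_length_eq_zero (by omega)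
    apply ixG_swap _ _ x.1 x.2 y.2
    · simp [bits_append, bits, ha, hb, hxy.symm]
    · simp [bits_append, bits, ha, hb, hxy.symm]
    · intro c' hc'
      have h3 : ¬ x.1 = c' := fun h => hc' h.symm
      have h4 : ¬ y.1 = c' := fun h => hc' (hxy.trans h).symm
      simp [bits_append, bits, h3, h4]
  · rw [if_neg hxy]
    congr 1
    unfold idx
    congr 1
    funext c
    exact bits_swap_ne a b x y hxy c

theorem ev_rot (k : ℕ) : ∀ (t : Tr) (z : Lt) (v u : List Lt), v.length = k →
    ev (rot k t) (z :: (v ++ u)) = ev t (v ++ z :: u) := by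
  induction k with
  | zero =>
    intro t z v u hv
    rw [List.eq_nil_of_length_eq_zero hv]; rfl
  | succ k ih =>
    intro t z v u hv
    obtain ⟨v', y, rfl⟩ : ∃ v' y, v = v' ++ [y] := by
      rcases List.eq_nil_or_concat v with h | ⟨v', y, h⟩
      · subst h; simp at hv
      · exact ⟨v', y, by simpa using h⟩
    have hv' : v'.length = k := by simpa using hv
    change ev (rot k (swapAt k t)) _ = _
    rw [List.append_assoc, ih _ _ _ _ hv', ← hv']
    rw [List.append_assoc]
    exact ev_swapAt t v' u z y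

theorem ev_dif {d K K' : ℕ} {s t : Tr} (hs : Bd d K s) (ht : Bd d K' t) (hK : K + K' < 65536)
    (w : List Lt) (hw : w.length = d) : ev (dif d s t) w = ev s w - ev t w := by
  unfold ev
  split_ifs
  · exact val_dif hs ht hK _ (by simpa using hw) _
  · simp

/-- Moving the first letter `k` places to the right. -/
def rotw (k : ℕ) : List Lt → List Lt
  | [] => []
  | z :: w => w.take k ++ z :: w.drop k

/-- The successive commutator expansions of a coefficient function. -/
def Efun (F : List Lt → ℤ) (m : ℕ) : ℕ → List Lt → ℤ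
  | 0, w => F w
  | k + 1, w => Efun F m k w - Efun F m k (rotw (k + m) w)

theorem rotw_length (k : ℕ) (w : List Lt) : (rotw k w).length = w.length := by
  cases w with
  | nil => rfl
  | cons z w => simp [rotw]; omega

theorem chain_spec {K : ℕ} {T : Tr} (hT : Bd 8 K T) (hK : K * 2 ^ 7 < 65536) (F : List Lt → ℤ)
    (hF : ∀ w, w.length = 8 → ev T w = F w) (k : ℕ) (hk : k ≤ 7) :
    Bd 8 (K * 2 ^ k) (chain T k) ∧ ∀ w, w.length = 8 → ev (chain T k) w = Efun F 1 k w := by
  induction k with
  | zero => exact ⟨by rw [pow_zero, mul_one]; exact hT, hF⟩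
  | succ k ih =>
    obtain ⟨h1, h2⟩ := ih (by omega)
    have h3 : Bd 8 (K * 2 ^ k) (rot (k + 1) (chain T k)) := Bd.rot _ h1 (by omega)
    have h4 : K * 2 ^ k + K * 2 ^ k = K * 2 ^ (k + 1) := by ring
    have h5 : K * 2 ^ k + K * 2 ^ k < 65536 := by
      rw [h4]
      exact (Nat.mul_le_mul_left K (Nat.pow_le_pow_right (by norm_num) hk)).trans_lt hK
    refine ⟨h4 ▸ h1.dif h3 h5, fun w hw => ?_⟩
    change ev (dif 8 (chain T k) (rot (k + 1) (chain T k))) w = _
    rw [ev_dif h1 h3 h5 w hw, h2 w hw, Efun, ← h2 _ ((rotw_length _ _).trans hw)]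
    congr 1
    cases w with
    | nil => simp at hw
    | cons z w =>
      have := ev_rot (k + 1) (chain T k) z (w.take (k + 1)) (w.drop (k + 1))
        (by simp at hw ⊢; omega)
      rw [List.take_append_drop] at this
      exact this

/-- The coefficient of a relation. -/
noncomputable def sc (S : Tr) (j k : Cl) (e : Bool) (u : List Lt) : ℤ :=
  ev S ((j, e) :: (k, false) :: u) - ev S ((j, e) :: (k, true) :: u)

/-- The expansion of a combination of relations. -/
def Ffun (s : Cl → Cl → Bool → List Lt → ℤ) : List Lt → ℤ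
  | x :: y :: u => ∑ e : Bool,
      if (relP x.1 y.1 e x.2 && relQ x.1 y.1 e y.2) = true then s x.1 y.1 e u else 0
  | _ => 0

theorem idx_off (j k : Cl) (b b' : Bool) (u : List Lt) :
    idx ((j, b) :: (k, b') :: u) = idx ((j, false) :: (k, false) :: u) + off j k b b' ∧
      inZ j k (idx ((j, false) :: (k, false) :: u)) = true := by
  cases j <;> cases k <;>
    simp only [idx, ixG, bits, reduceCtorEq, if_true, if_false, List.getD_cons_zero,
      List.getD_cons_succ] <;>
    generalize (bits .c0 u).getD 0 false = a0 <;> generalize (bits .c0 u).getD 1 false = a1 <;>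
    generalize (bits .c1 u).getD 0 false = b0 <;> generalize (bits .c1 u).getD 1 false = b1 <;>
    generalize (bits .c2 u).getD 0 false = c0 <;> generalize (bits .c2 u).getD 1 false = c1 <;>
    generalize (bits .c3 u).getD 0 false = d0 <;> generalize (bits .c3 u).getD 1 false = d1 <;>
    revert b b' a0 a1 b0 b1 c0 c1 d0 d1 <;> decide +kernel

theorem valid_bits (j k : Cl) (b b' e e' : Bool) (u : List Lt) :
    valid ((j, b) :: (k, b') :: u) ↔ valid ((j, e) :: (k, e') :: u) := by
  have : ∀ c, (bits c ((j, b) :: (k, b') :: u)).length = (bits c ((j, e) :: (k, e') :: u)).length := by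
    intro c
    simp only [bits]
    split_ifs <;> rfl
  simp only [valid, this]

theorem fld_ext (j k : Cl) (o x i : ℕ) :
    fld (ext (mZ j k) o x) i = if inZ j k i then fld x (i + o) else 0 := by
  rw [ext, fld_and, fld_shr, mZ_fld]
  split_ifs
  · exact and_full (fld_lt _ _)
  · exact Nat.and_zero _

theorem Bd_ext {d K : ℕ} {t : Tr} (h : Bd d K t) (j k : Cl) (o : ℕ) :
    Bd d K (mapL (ext (mZ j k) o) t) := by
  intro w hw i
  rw [mapL_sub, mapL_pos (ext_zero _ _), mapL_neg (ext_zero _ _), fld_ext, fld_ext]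
  split_ifs
  · exact h w hw _
  · exact ⟨Nat.zero_le _, Nat.zero_le _⟩

theorem Bd_shl {d K : ℕ} {t : Tr} (h : Bd d K t) (o : ℕ) : Bd d K (mapL (shl o) t) := by
  intro w hw i
  rw [mapL_sub, mapL_pos (shl_zero _), mapL_neg (shl_zero _), shl, shl, fld_shl, fld_shl]
  split_ifs
  · exact ⟨Nat.zero_le _, Nat.zero_le _⟩
  · exact h w hw _

theorem val_ext (j k : Cl) (o : ℕ) (t : Tr) (i : ℕ) :
    val (mapL (ext (mZ j k) o) t) i = if inZ j k i then val t (i + o) else 0 := by
  simp only [val, mapL_pos (ext_zero _ _), mapL_neg (ext_zero _ _), fld_ext]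
  split_ifs <;> simp

theorem val_shl (o : ℕ) (t : Tr) (i : ℕ) :
    val (mapL (shl o) t) i = if i < o then 0 else val t (i - o) := by
  simp only [val, mapL_pos (shl_zero _), mapL_neg (shl_zero _), shl, fld_shl]
  split_ifs <;> simp

section mkF

variable {S : Tr} (hS : Bd 8 31 S) (j k : Cl)
include hS

theorem Bd_negS (e : Bool) : Bd 6 62 (negS S j k e) :=
  (Bd_ext ((hS.ch j).ch k) j k _).dif (Bd_ext ((hS.ch j).ch k) j k _) (by norm_num)

theorem val_negS (e : Bool) (p : List Cl) (hp : p.length = 6) (i : ℕ) :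
    val ((negS S j k e).sub p) i = if inZ j k i then
      val (((S.ch j).ch k).sub p) (i + off j k e true) -
        val (((S.ch j).ch k).sub p) (i + off j k e false) else 0 := by
  rw [negS, val_dif (Bd_ext ((hS.ch j).ch k) j k _) (Bd_ext ((hS.ch j).ch k) j k _) (by norm_num)
    p hp, mapL_sub, mapL_sub, val_ext, val_ext]
  split_ifs <;> simp

theorem addF_spec (e b b' : Bool) {K : ℕ} {acc : Tr} (h : Bd 6 K acc) (hK : K + 62 < 65536) :
    Bd 6 (K + 62) (addF S j k e b b' acc) ∧
      ∀ p : List Cl, p.length = 6 → ∀ i, inZ j k i = true → ∀ c c' : Bool,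
        val ((addF S j k e b b' acc).sub p) (i + off j k c c') =
          val (acc.sub p) (i + off j k c c') +
            if (c = b ∧ c' = b') ∧ (relP j k e b && relQ j k e b') = true then
              val (((S.ch j).ch k).sub p) (i + off j k e false) -
                val (((S.ch j).ch k).sub p) (i + off j k e true) else 0 := by
  unfold addF
  cases relP j k e b && relQ j k e b'
  · exact ⟨h.mono (by omega), fun p _ i _ c c' => by simp⟩
  · have h1 := Bd_shl (Bd_negS hS j k e) (off j k b b')
    refine ⟨h.dif h1 hK, fun p hp i hi c c' => ?_⟩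
    change val ((dif 6 acc _).sub p) _ = _
    rw [val_dif h h1 hK p hp, mapL_sub, val_shl, val_negS hS j k e p hp]
    have h2 := off_spec j k i hi c c' b b'
    by_cases hc : c = b ∧ c' = b'
    · obtain ⟨h3, h4⟩ := h2.2 hc
      rw [if_neg h3, if_pos h4, if_pos ⟨hc, rfl⟩, hc.1, hc.2, Nat.add_sub_cancel]
      ring
    · have h3 := h2.not.2 hc
      rw [if_neg (fun h : _ ∧ _ => hc h.1)]
      split_ifs with h4 h5
      · simp
      · exact absurd ⟨h4, h5⟩ h3
      · simp

theorem subF_spec : Bd 6 496 (subF S j k) ∧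
    ∀ p : List Cl, p.length = 6 → ∀ i, inZ j k i = true → ∀ c c' : Bool,
      val ((subF S j k).sub p) (i + off j k c c') =
        ∑ e : Bool, if (relP j k e c && relQ j k e c') = true then
          val (((S.ch j).ch k).sub p) (i + off j k e false) -
            val (((S.ch j).ch k).sub p) (i + off j k e true) else 0 := by
  have h1 := addF_spec hS j k false false false (Bd_nil 6 0) (by norm_num)
  have h2 := addF_spec hS j k false false true h1.1 (by norm_num)
  have h3 := addF_spec hS j k false true false h2.1 (by norm_num)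
  have h4 := addF_spec hS j k false true true h3.1 (by norm_num)
  have h5 := addF_spec hS j k true false false h4.1 (by norm_num)
  have h6 := addF_spec hS j k true false true h5.1 (by norm_num)
  have h7 := addF_spec hS j k true true false h6.1 (by norm_num)
  have h8 := addF_spec hS j k true true true h7.1 (by norm_num)
  refine ⟨h8.1, fun p hp i hi c c' => ?_⟩
  unfold subF
  rw [h8.2 p hp i hi, h7.2 p hp i hi, h6.2 p hp i hi, h5.2 p hp i hi, h4.2 p hp i hi,
    h3.2 p hp i hi, h2.2 p hp i hi, h1.2 p hp i hi, nil_sub, val_nil, Fintype.sum_bool]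
  cases c <;> cases c' <;> simp [add_comm]

omit hS in
theorem mkF_ch : ((mkF S).ch j).ch k = subF S j k := by cases j <;> cases k <;> rfl

end mkF

theorem Bd_mkF {S : Tr} (hS : Bd 8 31 S) : Bd 8 496 (mkF S) := by
  intro w hw i
  match w, hw with
  | j :: k :: p, hw =>
    rw [sub_cons, sub_cons, mkF_ch]
    exact (subF_spec hS j k).1 p (by simpa using hw) i

theorem ev_mkF {S : Tr} (hS : Bd 8 31 S) (w : List Lt) (hw : w.length = 8) :
    ev (mkF S) w = Ffun (sc S) w := by
  match w, hw with
  | (j, b) :: (k, b') :: u, hw =>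
    simp only [Ffun, sc, ev, valid_bits j k _ _ false false u, List.map_cons, sub_cons, mkF_ch]
    split_ifs with hv
    · obtain ⟨I, hI, hz⟩ : ∃ I, (∀ b b', idx ((j, b) :: (k, b') :: u) = I + off j k b b') ∧
          inZ j k I = true := ⟨_, fun b b' => (idx_off j k b b' u).1, (idx_off j k b b' u).2⟩
      simp only [hI]
      exact (subF_spec hS j k).2 (u.map Prod.fst) (by simpa using hw) _ hz b b'
    · simp

theorem Efun_zero {S : Tr} (h1 : okLo S = true) (h2 : okZero S = true) (w : List Lt)
    (hw : w.length = 8) : Efun (Ffun (sc S)) 1 7 w = 0 := by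
  have hS : Bd 8 31 S := by
    intro p hp i
    have := allL_sub (g := fun p n => Nat.beq (Nat.land p mLo) p && Nat.beq (Nat.land n mLo) n)
      (by decide +kernel) p S (hp ▸ h1)
    rw [Bool.and_eq_true, Nat.beq_eq, Nat.beq_eq] at this
    exact ⟨fld_le_of_lo this.1 i, fld_le_of_lo this.2 i⟩
  rw [← (chain_spec (Bd_mkF hS) (by norm_num) _ (ev_mkF hS) 7 le_rfl).2 w hw]
  unfold ev
  split_ifs
  · have hp : (w.map Prod.fst).length = 8 := by simpa using hw
    have := allL_sub (g := Nat.beq) rfl (w.map Prod.fst) (chain (mkF S) 7) (hp ▸ h2)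
    rw [Nat.beq_eq] at this
    rw [val, this, sub_self]
  · rfl

end Pool.Agent.P.MP_df4ecf_al.Q1
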