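import Pool.Agent.P.MP_df4ecf_al.Q1.Fld

/-!
Tries of packed vectors indexed by colour patterns, and the operations on them.
-/

namespace Pool.Agent.P.MP_df4ecf_al.Q1

/-- Tries with four children; a leaf holds a positive and a negative packed vector. -/
inductive Tr
  | nil
  | leaf (p n : ℕ)
  | node (a b c d : Tr)

noncomputable section

namespace Tr

def ch0 (t : Tr) : Tr := Tr.rec nil (fun _ _ => nil) (fun a _ _ _ _ _ _ _ => a) t
def ch1 (t : Tr) : Tr := Tr.rec nil (fun _ _ => nil) (fun _ b _ _ _ _ _ _ => b) t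
def ch2 (t : Tr) : Tr := Tr.rec nil (fun _ _ => nil) (fun _ _ c _ _ _ _ _ => c) t
def ch3 (t : Tr) : Tr := Tr.rec nil (fun _ _ => nil) (fun _ _ _ d _ _ _ _ => d) t
def pos (t : Tr) : ℕ := Tr.rec 0 (fun p _ => p) (fun _ _ _ _ _ _ _ _ => 0) t
def neg (t : Tr) : ℕ := Tr.rec 0 (fun _ n => n) (fun _ _ _ _ _ _ _ _ => 0) t

/-- The child of a given colour. -/
def ch (t : Tr) (c : Cl) : Tr := Cl.rec t.ch0 t.ch1 t.ch2 t.ch3 c

/-- The subtrie at a pattern. -/
def sub (t : Tr) (w : List Cl) : Tr := List.rec (fun t => t) (fun c _ ih t => ih (t.ch c)) w t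

theorem sub_nil' (t : Tr) : t.sub [] = t := rfl
theorem sub_cons (t : Tr) (c : Cl) (w : List Cl) : t.sub (c :: w) = (t.ch c).sub w := rfl
theorem ch_nil (c : Cl) : nil.ch c = nil := by cases c <;> rfl
theorem ch_leaf (p n : ℕ) (c : Cl) : (leaf p n).ch c = nil := by cases c <;> rfl

theorem nil_sub (w : List Cl) : nil.sub w = nil := by
  induction w with
  | nil => rfl
  | cons c w ih => rw [sub_cons, ch_nil, ih]

theorem sub_append (a b : List Cl) : ∀ t : Tr, t.sub (a ++ b) = (t.sub a).sub b := by
  induction a with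
  | nil => intro t; rfl
  | cons c a ih => intro t; exact ih _

/-- Case distinction: empty or not. -/
def ifNil {α : Type} (t : Tr) (x y : α) : α :=
  Tr.rec x (fun _ _ => y) (fun _ _ _ _ _ _ _ _ => y) t

/-- A node, or the empty trie if all children are empty. -/
def mk (a b c d : Tr) : Tr :=
  (fun x => a.ifNil (b.ifNil (c.ifNil (d.ifNil nil x) x) x) x) (node a b c d)

theorem mk_ch (a b c d : Tr) (e : Cl) : (mk a b c d).ch e = (node a b c d).ch e := by
  cases a <;> cases b <;> cases c <;> cases d <;> rfl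

/-- Apply a function to all packed vectors. -/
def mapL (g : ℕ → ℕ) (t : Tr) : Tr :=
  Tr.rec nil (fun p n => leaf (g p) (g n)) (fun _ _ _ _ a b c d => node a b c d) t

theorem mapL_ch (g : ℕ → ℕ) (t : Tr) (c : Cl) : (mapL g t).ch c = mapL g (t.ch c) := by
  cases t <;> cases c <;> rfl

theorem mapL_sub (g : ℕ → ℕ) (w : List Cl) : ∀ t : Tr, (mapL g t).sub w = mapL g (t.sub w) := by
  induction w with
  | nil => intro t; rfl
  | cons c w ih => intro t; rw [sub_cons, sub_cons, mapL_ch, ih]

theorem mapL_pos {g : ℕ → ℕ} (hg : g 0 = 0) (t : Tr) : (mapL g t).pos = g t.pos := by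
  cases t
  · exact hg.symm
  · rfl
  · exact hg.symm

theorem mapL_neg {g : ℕ → ℕ} (hg : g 0 = 0) (t : Tr) : (mapL g t).neg = g t.neg := by
  cases t
  · exact hg.symm
  · rfl
  · exact hg.symm

/-- Exchange of the first two letters. -/
def sw0 (t : Tr) : Tr :=
  Tr.rec nil (fun _ _ => nil) (fun a b c d _ _ _ _ =>
    node (mk (mapL (dsw (mA .c0) (dA .c0)) a.ch0) b.ch0 c.ch0 d.ch0)
      (mk a.ch1 (mapL (dsw (mA .c1) (dA .c1)) b.ch1) c.ch1 d.ch1)
      (mk a.ch2 b.ch2 (mapL (dsw (mA .c2) (dA .c2)) c.ch2) d.ch2)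
      (mk a.ch3 b.ch3 c.ch3 (mapL (dsw (mA .c3) (dA .c3)) d.ch3))) t

theorem sw0_ch (t : Tr) (x y : Cl) : ((sw0 t).ch x).ch y =
    if x = y then mapL (dsw (mA x) (dA x)) ((t.ch x).ch x) else (t.ch y).ch x := by
  cases t with
  | nil => cases x <;> cases y <;> rfl
  | leaf p n => cases x <;> cases y <;> rfl
  | node a b c d =>
    cases x
    · exact (mk_ch _ _ _ _ y).trans (by cases y <;> rfl)
    · exact (mk_ch _ _ _ _ y).trans (by cases y <;> rfl)
    · exact (mk_ch _ _ _ _ y).trans (by cases y <;> rfl)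
    · exact (mk_ch _ _ _ _ y).trans (by cases y <;> rfl)

/-- Exchange of the letters in places `i` and `i + 1`. -/
def swapAt (i : ℕ) : Tr → Tr :=
  Nat.rec sw0 (fun _ ih t =>
    Tr.rec nil (fun _ _ => nil) (fun a b c d _ _ _ _ => node (ih a) (ih b) (ih c) (ih d)) t) i

theorem swapAt_nil (i : ℕ) : swapAt i nil = nil := by cases i <;> rfl

theorem swapAt_ch (i : ℕ) (t : Tr) (c : Cl) : (swapAt (i + 1) t).ch c = swapAt i (t.ch c) := by
  cases t with
  | nil => rw [ch_nil, swapAt_nil, swapAt_nil, ch_nil]
  | leaf p n => rw [ch_leaf, swapAt_nil]; exact ch_nil c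
  | node a b c' d => cases c <;> rfl

theorem swapAt_sub (a : List Cl) (x y : Cl) (b : List Cl) : ∀ t : Tr,
    (swapAt a.length t).sub (a ++ x :: y :: b) =
      if x = y then mapL (dsw (mA x) (dA x)) (t.sub (a ++ x :: x :: b))
      else t.sub (a ++ y :: x :: b) := by
  induction a with
  | nil =>
    intro t
    change (((sw0 t).ch x).ch y).sub b = if x = y then mapL _ (((t.ch x).ch x).sub b)
      else ((t.ch y).ch x).sub b
    rw [sw0_ch]
    split_ifs
    · exact mapL_sub _ _ _
    · rfl
  | cons c a ih =>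
    intro t
    simp only [List.length_cons, List.cons_append, sub_cons, swapAt_ch]
    exact ih _

/-- Rotation of the first `k + 1` letters. -/
def rot (k : ℕ) : Tr → Tr := Nat.rec (fun t => t) (fun k ih t => ih (swapAt k t)) k

/-- Difference of two tries of depth `d`. -/
def dif (d : ℕ) : Tr → Tr → Tr :=
  Nat.rec
    (fun s t => (fun x => s.ifNil (t.ifNil nil x) x)
      (leaf (Nat.add s.pos t.neg) (Nat.add s.neg t.pos)))
    (fun _ ih s t => (fun x => s.ifNil (t.ifNil nil x) x)
      (node (ih s.ch0 t.ch0) (ih s.ch1 t.ch1) (ih s.ch2 t.ch2) (ih s.ch3 t.ch3))) d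

theorem dif_nil (d : ℕ) : dif d nil nil = nil := by cases d <;> rfl

theorem dif_ch (d : ℕ) (s t : Tr) (c : Cl) :
    (dif (d + 1) s t).ch c = dif d (s.ch c) (t.ch c) := by
  cases s <;> cases t <;> cases c <;> first | rfl | exact (dif_nil d).symm

theorem dif_sub (w : List Cl) : ∀ s t : Tr,
    (dif w.length s t).sub w = dif 0 (s.sub w) (t.sub w) := by
  induction w with
  | nil => intro s t; rfl
  | cons c w ih => intro s t; rw [List.length_cons, sub_cons, dif_ch, ih]; rfl

theorem dif_pos (s t : Tr) : (dif 0 s t).pos = Nat.add s.pos t.neg := by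
  cases s <;> cases t <;> rfl

theorem dif_neg (s t : Tr) : (dif 0 s t).neg = Nat.add s.neg t.pos := by
  cases s <;> cases t <;> rfl

/-- A test on all leaves in depth `d`. -/
def allL (g : ℕ → ℕ → Bool) (d : ℕ) : Tr → Bool :=
  Nat.rec (fun t => g t.pos t.neg)
    (fun _ ih t => Tr.rec true (fun _ _ => true) (fun a b c d _ _ _ _ =>
      Bool.rec false (Bool.rec false (Bool.rec false (ih d) (ih c)) (ih b)) (ih a)) t) d

theorem allL_sub {g : ℕ → ℕ → Bool} (hg : g 0 0 = true) (w : List Cl) : ∀ t : Tr,
    allL g w.length t = true → g (t.sub w).pos (t.sub w).neg = true := by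
  induction w with
  | nil => intro t h; exact h
  | cons e w ih =>
    intro t h
    rw [sub_cons]
    cases t with
    | nil => rw [ch_nil, nil_sub]; exact hg
    | leaf p n => rw [ch_leaf, nil_sub]; exact hg
    | node a b c d =>
      apply ih
      change Bool.rec false (Bool.rec false (Bool.rec false (allL g w.length d) (allL g w.length c))
        (allL g w.length b)) (allL g w.length a) = true at h
      have h' : allL g w.length a = true ∧ allL g w.length b = true ∧ allL g w.length c = true ∧
          allL g w.length d = true := by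
        revert h
        cases allL g w.length a <;> cases allL g w.length b <;> cases allL g w.length c <;>
          cases allL g w.length d <;> simp
      cases e
      · exact h'.1
      · exact h'.2.1
      · exact h'.2.2.1
      · exact h'.2.2.2

/-- All fields in depth `d` are at most `K`. -/
def Bd (d K : ℕ) (t : Tr) : Prop :=
  ∀ w : List Cl, w.length = d → ∀ i, fld (t.sub w).pos i ≤ K ∧ fld (t.sub w).neg i ≤ K

/-- The signed value of a field of a leaf. -/
def val (t : Tr) (i : ℕ) : ℤ := (fld t.pos i : ℤ) - fld t.neg i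

theorem val_nil (i : ℕ) : val nil i = 0 := sub_self _

theorem Bd.mono {d K K' : ℕ} {t : Tr} (h : Bd d K t) (hK : K ≤ K') : Bd d K' t :=
  fun w hw i => ⟨(h w hw i).1.trans hK, (h w hw i).2.trans hK⟩

theorem Bd_nil (d K : ℕ) : Bd d K nil := by
  intro w _ i
  rw [nil_sub]
  exact ⟨(fld_zero i).le.trans (Nat.zero_le _), (fld_zero i).le.trans (Nat.zero_le _)⟩

theorem Bd.ch {d K : ℕ} {t : Tr} (h : Bd (d + 1) K t) (c : Cl) : Bd d K (t.ch c) :=
  fun w hw i => h (c :: w) (by simp [hw]) i

theorem dif_spec {d K K' : ℕ} {s t : Tr} (hs : Bd d K s) (ht : Bd d K' t) (hK : K + K' < 65536)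
    (w : List Cl) (hw : w.length = d) (i : ℕ) :
    fld ((dif d s t).sub w).pos i = fld (s.sub w).pos i + fld (t.sub w).neg i ∧
      fld ((dif d s t).sub w).neg i = fld (s.sub w).neg i + fld (t.sub w).pos i := by
  subst hw
  rw [dif_sub, dif_pos, dif_neg]
  constructor <;> apply fld_add <;> intro j <;>
    have h1 := hs w rfl j <;> have h2 := ht w rfl j <;> omega

theorem Bd.dif {d K K' : ℕ} {s t : Tr} (hs : Bd d K s) (ht : Bd d K' t) (hK : K + K' < 65536) :
    Bd d (K + K') (dif d s t) := by
  intro w hw i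
  have h := dif_spec hs ht hK w hw i
  have h1 := hs w hw i
  have h2 := ht w hw i
  omega

theorem val_dif {d K K' : ℕ} {s t : Tr} (hs : Bd d K s) (ht : Bd d K' t) (hK : K + K' < 65536)
    (w : List Cl) (hw : w.length = d) (i : ℕ) :
    val ((dif d s t).sub w) i = val (s.sub w) i - val (t.sub w) i := by
  have h := dif_spec hs ht hK w hw i
  simp only [val, h.1, h.2]
  push_cast
  ring

theorem val_dsw (c : Cl) (t : Tr) (i : ℕ) :
    val (mapL (dsw (mA c) (dA c)) t) i = val t (piA c i) := by
  simp only [val, mapL_pos (dsw_zero _ _), mapL_neg (dsw_zero _ _), fld_dsw]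

theorem Bd.swapAt {d K i : ℕ} {t : Tr} (h : Bd d K t) (hi : i + 2 ≤ d) : Bd d K (swapAt i t) := by
  intro w hw j
  obtain ⟨a, x, y, b, rfl, rfl⟩ : ∃ a x y b, w = a ++ x :: y :: b ∧ i = a.length := by
    have h1 : (w.drop i).length = d - i := by simp [hw]
    match hd : w.drop i, h1 with
    | [], h1 => simp at h1; omega
    | [_], h1 => simp at h1; omega
    | x :: y :: b, _ =>
      exact ⟨w.take i, x, y, b, by rw [← hd, List.take_append_drop], by simp; omega⟩
  rw [swapAt_sub]
  split_ifs
  · rw [mapL_pos (dsw_zero _ _), mapL_neg (dsw_zero _ _), fld_dsw, fld_dsw]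
    exact h _ (by simpa using hw) _
  · exact h _ (by simpa using hw) _

theorem Bd.rot {d K : ℕ} (k : ℕ) : ∀ {t : Tr}, Bd d K t → k + 1 ≤ d → Bd d K (rot k t) := by
  induction k with
  | zero => intro t h _; exact h
  | succ k ih => intro t h hk; exact ih (h.swapAt (by omega)) (by omega)

/-- Extraction of a slot. -/
def ext (m o x : ℕ) : ℕ := Nat.land (Nat.shiftRight x (Nat.mul 16 o)) m

/-- Placement into a slot. -/
def shl (o x : ℕ) : ℕ := Nat.shiftLeft x (Nat.mul 16 o)

theorem ext_zero (m o : ℕ) : ext m o 0 = 0 := by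
  change (0 >>> (16 * o)) &&& m = 0
  simp

theorem shl_zero (o : ℕ) : shl o 0 = 0 := by
  change 0 <<< (16 * o) = 0
  simp

end Tr

open Cl in
/-- The left factors of the sixteen relations. -/
def relP : Cl → Cl → Bool → Bool → Bool
  | c0, c0, false, b | c1, c1, false, b | c2, c2, false, b | c3, c3, false, b => !b
  | c0, c1, false, b => !b
  | c0, c1, true, b => b
  | c0, c2, false, _ => true
  | c0, c2, true, b => b
  | c0, c3, false, _ => true
  | c0, c3, true, b => !b
  | c1, c2, false, _ => true
  | c1, c2, true, b => b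
  | c1, c3, false, _ => true
  | c1, c3, true, b => !b
  | c2, c3, false, _ => true
  | c2, c3, true, b => !b
  | _, _, _, _ => false

open Cl in
/-- The right factors of the sixteen relations. -/
def relQ : Cl → Cl → Bool → Bool → Bool
  | c0, c0, false, b | c1, c1, false, b | c2, c2, false, b | c3, c3, false, b => b
  | c0, c1, false, b => b
  | c0, c1, true, b => !b
  | c0, c2, false, b => b
  | c0, c2, true, b => !b
  | c0, c3, false, b => b
  | c0, c3, true, b => !b
  | c1, c2, false, b => b
  | c1, c2, true, _ => true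
  | c1, c3, false, b => b
  | c1, c3, true, _ => true
  | c2, c3, false, b => !b
  | c2, c3, true, _ => true
  | _, _, _, _ => false

namespace Tr

/-- The negative of the coefficients of a relation, in the leading slot. -/
def negS (S : Tr) (j k : Cl) (e : Bool) : Tr :=
  dif 6 (mapL (ext (mZ j k) (off j k e true)) ((S.ch j).ch k))
    (mapL (ext (mZ j k) (off j k e false)) ((S.ch j).ch k))

/-- One term of the expansion of the relations. -/
def addF (S : Tr) (j k : Cl) (e b b' : Bool) (acc : Tr) : Tr :=
  Bool.rec acc (dif 6 acc (mapL (shl (off j k b b')) (negS S j k e))) (relP j k e b && relQ j k e b')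

/-- The expansion of the relations with given colours. -/
def subF (S : Tr) (j k : Cl) : Tr :=
  addF S j k true true true <| addF S j k true true false <| addF S j k true false true <|
    addF S j k true false false <| addF S j k false true true <| addF S j k false true false <|
      addF S j k false false true <| addF S j k false false false nil

/-- The expansion of the relations. -/
def mkF (S : Tr) : Tr :=
  node (node (subF S .c0 .c0) (subF S .c0 .c1) (subF S .c0 .c2) (subF S .c0 .c3))
    (node (subF S .c1 .c0) (subF S .c1 .c1) (subF S .c1 .c2) (subF S .c1 .c3))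
    (node (subF S .c2 .c0) (subF S .c2 .c1) (subF S .c2 .c2) (subF S .c2 .c3))
    (node (subF S .c3 .c0) (subF S .c3 .c1) (subF S .c3 .c2) (subF S .c3 .c3))

/-- The successive commutator expansions. -/
def chain (F : Tr) (k : ℕ) : Tr := Nat.rec F (fun k ih => dif 8 ih (rot (k + 1) ih)) k

/-- The check of the bound on the data. -/
def okLo (S : Tr) : Bool :=
  allL (fun p n => Nat.beq (Nat.land p mLo) p && Nat.beq (Nat.land n mLo) n) 8 S

/-- The check of the identity. -/
def okZero (S : Tr) : Bool := allL Nat.beq 8 (chain (mkF S) 7)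

end Tr

end

end Pool.Agent.P.MP_df4ecf_al.Q1
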