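import Mathlib

/-!
The free Lie ring embeds in the free associative ring (homogeneous elements, finite alphabets),
proved by elimination of one letter at a time.
-/

namespace Pool.Agent.P.MP_df4ecf_al.Q1

attribute [local instance 100] LieRing.ofAssociativeRing

/-- Homogeneous elements of a given weight. -/
inductive Hm {Y : Type} (wt : Y → ℕ) : ℕ → FreeLieAlgebra ℤ Y → Prop
  | of (y : Y) : Hm wt (wt y) (FreeLieAlgebra.of ℤ y)
  | zero (e : ℕ) : Hm wt e 0
  | add {e : ℕ} {a b : FreeLieAlgebra ℤ Y} : Hm wt e a → Hm wt e b → Hm wt e (a + b)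
  | smul {e : ℕ} {a : FreeLieAlgebra ℤ Y} (c : ℤ) : Hm wt e a → Hm wt e (c • a)
  | lie {e e' : ℕ} {a b : FreeLieAlgebra ℤ Y} : Hm wt e a → Hm wt e' b → Hm wt (e + e') ⁅a, b⁆

theorem Hm.cast {Y : Type} {wt : Y → ℕ} {e e' : ℕ} {a : FreeLieAlgebra ℤ Y} (h : Hm wt e a)
    (he : e = e') : Hm wt e' a := he ▸ h

theorem Hm.sum {Y ι : Type} {wt : Y → ℕ} {e : ℕ} (s : Finset ι) (g : ι → FreeLieAlgebra ℤ Y)
    (h : ∀ i, Hm wt e (g i)) : Hm wt e (∑ i ∈ s, g i) :=
  Finset.sum_induction g (Hm wt e) (fun _ _ => Hm.add) (Hm.zero e) (fun i _ => h i)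

/-- The canonical map to the free associative ring. -/
noncomputable def iot (Y : Type) : FreeLieAlgebra ℤ Y →ₗ⁅ℤ⁆ FreeAlgebra ℤ Y :=
  FreeLieAlgebra.lift ℤ (FreeAlgebra.ι ℤ)

theorem iot_of {Y : Type} (y : Y) : iot Y (FreeLieAlgebra.of ℤ y) = FreeAlgebra.ι ℤ y :=
  FreeLieAlgebra.lift_of_apply _ _

theorem Hm.low {Y : Type} {wt : Y → ℕ} {k : ℕ} (hk : ∀ y, k ≤ wt y) {e : ℕ}
    {a : FreeLieAlgebra ℤ Y} (h : Hm wt e a) : e < k → a = 0 := by
  induction h with
  | of y => intro h; exact absurd (hk y) (by omega)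
  | zero e => intro _; rfl
  | add _ _ iha ihb => intro h; rw [iha h, ihb h, add_zero]
  | smul c _ ih => intro h; rw [ih h, smul_zero]
  | lie _ _ iha _ => intro h; rw [iha (by omega), zero_lie]

section Elim

variable {Y : Type} (z : Y)

/-- The alphabet after eliminating `z`. -/
abbrev Al (z : Y) : Type := {x : Y // x ≠ z} × ℕ

/-- Iterated bracket. -/
def itr {L : Type} [LieRing L] (a : L) : ℕ → L → L
  | 0, b => b
  | j + 1, b => ⁅a, itr a j b⁆

/-- The new weights. -/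
def wt' (wt : Y → ℕ) (p : Al z) : ℕ := wt p.1.1 + p.2 * wt z

/-- The map of free Lie rings. -/
noncomputable def phi : FreeLieAlgebra ℤ (Al z) →ₗ⁅ℤ⁆ FreeLieAlgebra ℤ Y :=
  FreeLieAlgebra.lift ℤ fun p => itr (FreeLieAlgebra.of ℤ z) p.2 (FreeLieAlgebra.of ℤ p.1.1)

theorem phi_of (p : Al z) : phi z (FreeLieAlgebra.of ℤ p) =
    itr (FreeLieAlgebra.of ℤ z) p.2 (FreeLieAlgebra.of ℤ p.1.1) :=
  FreeLieAlgebra.lift_of_apply _ _

theorem adphi (wt : Y → ℕ) {e : ℕ} {a : FreeLieAlgebra ℤ (Al z)} (h : Hm (wt' z wt) e a) :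
    ∃ b, Hm (wt' z wt) (e + wt z) b ∧ ⁅FreeLieAlgebra.of ℤ z, phi z a⁆ = phi z b := by
  induction h with
  | of p =>
    refine ⟨FreeLieAlgebra.of ℤ (p.1, p.2 + 1), (Hm.of _).cast ?_, ?_⟩
    · simp only [wt']; ring
    · rw [phi_of, phi_of]; rfl
  | zero e => exact ⟨0, Hm.zero _, by simp⟩
  | add _ _ iha ihb =>
    obtain ⟨a', h1, e1⟩ := iha
    obtain ⟨b', h2, e2⟩ := ihb
    exact ⟨a' + b', h1.add h2, by rw [map_add, map_add, lie_add, e1, e2]⟩
  | smul c _ ih =>
    obtain ⟨a', h1, e1⟩ := ih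
    exact ⟨c • a', h1.smul c, by rw [map_smul, map_smul, lie_smul, e1]⟩
  | @lie e e' a b ha hb iha ihb =>
    obtain ⟨a', h1, e1⟩ := iha
    obtain ⟨b', h2, e2⟩ := ihb
    refine ⟨⁅a', b⁆ + ⁅a, b'⁆, ((h1.lie hb).cast (by ring)).add ((ha.lie h2).cast (by ring)), ?_⟩
    rw [map_add, LieHom.map_lie, LieHom.map_lie, LieHom.map_lie, leibniz_lie, e1, e2]

theorem decomp (wt : Y → ℕ) {e : ℕ} {a : FreeLieAlgebra ℤ Y} (h : Hm wt e a) :
    ∃ (c : ℤ) (b : FreeLieAlgebra ℤ (Al z)), Hm (wt' z wt) e b ∧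
      a = c • FreeLieAlgebra.of ℤ z + phi z b ∧ (c = 0 ∨ e = wt z) := by
  induction h with
  | of y =>
    by_cases hy : y = z
    · subst hy
      exact ⟨1, 0, Hm.zero _, by simp, Or.inr rfl⟩
    · refine ⟨0, FreeLieAlgebra.of ℤ (⟨y, hy⟩, 0), (Hm.of _).cast ?_, ?_, Or.inl rfl⟩
      · simp [wt']
      · rw [phi_of]; simp [itr]
  | zero e => exact ⟨0, 0, Hm.zero _, by simp, Or.inl rfl⟩
  | add _ _ iha ihb =>
    obtain ⟨c, a', h1, e1, o1⟩ := iha
    obtain ⟨c', b', h2, e2, o2⟩ := ihb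
    refine ⟨c + c', a' + b', h1.add h2, by rw [e1, e2, map_add, add_smul]; abel, ?_⟩
    rcases o1 with o1 | o1
    · rcases o2 with o2 | o2
      · left; rw [o1, o2, add_zero]
      · exact Or.inr o2
    · exact Or.inr o1
  | smul c' _ ih =>
    obtain ⟨c, a', h1, e1, o1⟩ := ih
    refine ⟨c' * c, c' • a', h1.smul c', by rw [e1, map_smul, smul_add, mul_smul], ?_⟩
    rcases o1 with o1 | o1
    · left; rw [o1, mul_zero]
    · exact Or.inr o1
  | @lie e e' a b _ _ iha ihb =>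
    obtain ⟨c, a', h1, e1, o1⟩ := iha
    obtain ⟨c', b', h2, e2, o2⟩ := ihb
    obtain ⟨a'', h3, e3⟩ := adphi z wt h1
    obtain ⟨b'', h4, e4⟩ := adphi z wt h2
    have k1 : Hm (wt' z wt) (e + e') (c • b'') := by
      rcases o1 with o1 | o1
      · rw [o1, zero_smul]; exact Hm.zero _
      · exact (h4.smul c).cast (by omega)
    have k2 : Hm (wt' z wt) (e + e') ((-c') • a'') := by
      rcases o2 with o2 | o2
      · rw [o2, neg_zero, zero_smul]; exact Hm.zero _
      · exact (h3.smul _).cast (by omega)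
    refine ⟨0, c • b'' + (-c') • a'' + ⁅a', b'⁆, (k1.add k2).add (h1.lie h2), ?_, Or.inl rfl⟩
    rw [e1, e2, map_add, map_add, map_smul, map_smul, LieHom.map_lie, ← e3, ← e4]
    simp only [add_lie, lie_add, smul_lie, lie_smul, lie_self, smul_zero, zero_smul, zero_add]
    rw [← lie_skew (phi z a') (FreeLieAlgebra.of ℤ z)]
    simp only [smul_neg, neg_smul]
    abel

/-- The map of free associative rings. -/
noncomputable def Phi : FreeAlgebra ℤ (Al z) →ₐ[ℤ] FreeAlgebra ℤ Y :=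
  FreeAlgebra.lift ℤ fun p => itr (FreeAlgebra.ι ℤ z) p.2 (FreeAlgebra.ι ℤ p.1.1)

theorem iot_itr (j : ℕ) (x : Y) :
    iot Y (itr (FreeLieAlgebra.of ℤ z) j (FreeLieAlgebra.of ℤ x)) =
      itr (FreeAlgebra.ι ℤ z) j (FreeAlgebra.ι ℤ x) := by
  induction j with
  | zero => exact iot_of x
  | succ j ih => rw [itr, itr, LieHom.map_lie, ih, iot_of]

theorem iot_phi (b : FreeLieAlgebra ℤ (Al z)) : iot Y (phi z b) = Phi z (iot (Al z) b) := by
  have : (iot Y).comp (phi z) = ((Phi z).toLieHom).comp (iot (Al z)) := by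
    apply FreeLieAlgebra.hom_ext
    intro p
    change iot Y (phi z (FreeLieAlgebra.of ℤ p)) = Phi z (iot (Al z) (FreeLieAlgebra.of ℤ p))
    rw [phi_of, iot_itr, iot_of, Phi, FreeAlgebra.lift_ι_apply]
  exact DFunLike.congr_fun this b

/-- A triangular representation that produces the shift derivation. -/
noncomputable def psi :
    FreeAlgebra ℤ (Al z) →ₐ[ℤ] Matrix (Fin 2) (Fin 2) (FreeAlgebra ℤ (Al z)) :=
  FreeAlgebra.lift ℤ fun p =>
    !![FreeAlgebra.ι ℤ p, FreeAlgebra.ι ℤ (p.1, p.2 + 1); 0, FreeAlgebra.ι ℤ p]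

theorem psi_diag (t : FreeAlgebra ℤ (Al z)) : psi z t 1 1 = t ∧ psi z t 1 0 = 0 := by
  induction t using FreeAlgebra.induction with
  | grade0 r => rw [AlgHom.commutes]; simp [Matrix.algebraMap_matrix_apply]
  | grade1 p => simp [psi]
  | mul a b ha hb => simp [Matrix.mul_apply, Fin.sum_univ_two, ha.1, ha.2, hb.1, hb.2]
  | add a b ha hb => simp [ha.1, ha.2, hb.1, hb.2]

/-- The shift derivation. -/
noncomputable def der : Module.End ℤ (FreeAlgebra ℤ (Al z)) where
  toFun t := psi z t 0 1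
  map_add' a b := by simp
  map_smul' c a := by rw [map_smul]; rfl

theorem der_one : der z 1 = 0 := by
  change psi z 1 0 1 = 0
  simp

theorem der_mul (p : Al z) (t : FreeAlgebra ℤ (Al z)) :
    der z (FreeAlgebra.ι ℤ p * t) =
      FreeAlgebra.ι ℤ p * der z t + FreeAlgebra.ι ℤ (p.1, p.2 + 1) * t := by
  change psi z (FreeAlgebra.ι ℤ p * t) 0 1 = _ * psi z t 0 1 + _
  rw [map_mul, Matrix.mul_apply, Fin.sum_univ_two, (psi_diag z t).1]
  simp [psi]

open Classical in
/-- The action of the old ring on the new one. -/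
noncomputable def rho : FreeAlgebra ℤ Y →ₐ[ℤ] Module.End ℤ (FreeAlgebra ℤ (Al z)) :=
  FreeAlgebra.lift ℤ fun y => if h : y = z then der z else
    Algebra.lmul ℤ _ (FreeAlgebra.ι ℤ ((⟨y, h⟩, 0) : Al z))

theorem rho_z : rho z (FreeAlgebra.ι ℤ z) = der z := by simp [rho]

theorem rho_itr (x : {x : Y // x ≠ z}) (j : ℕ) :
    rho z (itr (FreeAlgebra.ι ℤ z) j (FreeAlgebra.ι ℤ x.1)) =
      Algebra.lmul ℤ _ (FreeAlgebra.ι ℤ ((x, j) : Al z)) := by
  induction j with
  | zero => simp [rho, itr, x.2]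
  | succ j ih =>
    rw [itr, Ring.lie_def, map_sub, map_mul, map_mul, ih, rho_z]
    ext t
    change der z (FreeAlgebra.ι ℤ ((x, j) : Al z) * t) - FreeAlgebra.ι ℤ ((x, j) : Al z) * der z t =
      FreeAlgebra.ι ℤ ((x, j + 1) : Al z) * t
    rw [der_mul, add_sub_cancel_left]

theorem rho_Phi (t : FreeAlgebra ℤ (Al z)) : rho z (Phi z t) 1 = t := by
  have : (rho z).comp (Phi z) = Algebra.lmul ℤ _ := by
    apply FreeAlgebra.hom_ext
    funext p
    simp only [Function.comp_apply, AlgHom.comp_apply, Phi, FreeAlgebra.lift_ι_apply]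
    exact rho_itr z p.1 p.2
  have h := DFunLike.congr_fun this t
  rw [AlgHom.comp_apply] at h
  rw [h]
  exact mul_one t

end Elim

theorem witt_aux (d : ℕ) : ∀ m k : ℕ, k + m = d + 1 → 1 ≤ k → ∀ (n : ℕ) (Y : Type) (wt : Y → ℕ),
    (∀ y, k ≤ wt y) → {y | wt y ≤ d}.Finite → {y | wt y = k}.ncard ≤ n →
      ∀ a, Hm wt d a → iot Y a = 0 → a = 0 := by
  intro m
  induction m with
  | zero => intro k hk _ n Y wt h1 _ _ a ha _; exact ha.low h1 (by omega)
  | succ m ihm =>
    intro k hk hk1 n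
    have none : ∀ (Y : Type) (wt : Y → ℕ), (∀ y, k ≤ wt y) → {y | wt y ≤ d}.Finite →
        (¬ ∃ z, wt z = k) → ∀ a, Hm wt d a → iot Y a = 0 → a = 0 := by
      intro Y wt h1 h2 h3
      refine ihm (k + 1) (by omega) (by omega) _ Y wt (fun y => ?_) h2 le_rfl
      have := h1 y
      have : wt y ≠ k := fun h => h3 ⟨y, h⟩
      omega
    have fin : ∀ (Y : Type) (wt : Y → ℕ), {y | wt y ≤ d}.Finite → {y | wt y = k}.Finite :=
      fun Y wt h2 => h2.subset (fun y hy => by simp only [Set.mem_ofPred_eq] at hy ⊢; omega)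
    induction n with
    | zero =>
      intro Y wt h1 h2 h3
      apply none Y wt h1 h2
      rintro ⟨z, hz⟩
      have := (Set.ncard_pos (fin Y wt h2)).2 ⟨z, hz⟩
      omega
    | succ n ihn =>
      intro Y wt h1 h2 h3
      by_cases hz : ∃ z, wt z = k
      swap
      · exact none Y wt h1 h2 hz
      obtain ⟨z, hz⟩ := hz
      intro a ha h0
      obtain ⟨c, b, hb, e, -⟩ := decomp z wt ha
      have g1 : ∀ p : Al z, k ≤ wt' z wt p := fun p => (h1 p.1.1).trans (Nat.le_add_right _ _)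
      have g2 : {p : Al z | wt' z wt p ≤ d}.Finite := by
        have f1 : (Subtype.val ⁻¹' {y | wt y ≤ d} : Set {x : Y // x ≠ z}).Finite :=
          h2.preimage Subtype.val_injective.injOn
        refine (f1.prod (Set.finite_le_nat d)).subset ?_
        intro p hp
        simp only [Set.mem_ofPred_eq, wt', hz] at hp
        refine ⟨by simp only [Set.mem_preimage, Set.mem_ofPred_eq]; omega, ?_⟩
        have : p.2 * 1 ≤ p.2 * k := Nat.mul_le_mul_left _ hk1
        simp only [Set.mem_ofPred_eq]; omega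
      have g3 : {p : Al z | wt' z wt p = k}.ncard ≤ n := by
        have j0 : ∀ p : Al z, wt' z wt p = k → p.2 = 0 ∧ wt p.1.1 = k := by
          intro p hp
          simp only [wt', hz] at hp
          have := h1 p.1.1
          have : p.2 * 1 ≤ p.2 * k := Nat.mul_le_mul_left _ hk1
          omega
        have := Set.ncard_le_ncard_of_injOn (s := {p : Al z | wt' z wt p = k})
          (t := {y | wt y = k} \ {z}) (fun p => p.1.1)
          (fun p hp => ⟨(j0 p hp).2, p.1.2⟩)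
          (fun p hp q hq hpq => Prod.ext (Subtype.ext hpq) (by rw [(j0 p hp).1, (j0 q hq).1]))
          ((fin Y wt h2).subset Set.sdiff_subset)
        rw [Set.ncard_sdiff_singleton_of_mem (show z ∈ {y | wt y = k} from hz)] at this
        omega
      rw [e, map_add, map_smul, iot_of, iot_phi] at h0
      have h4 := congrArg (fun t => rho z t 1) h0
      simp only [map_add, map_smul, rho_z, LinearMap.add_apply, LinearMap.smul_apply, der_one,
        rho_Phi, smul_zero, zero_add, map_zero, LinearMap.zero_apply] at h4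
      have hb0 := ihn (Al z) (wt' z wt) g1 g2 g3 b hb h4
      rw [h4, map_zero, add_zero] at h0
      have h5 := congrArg (FreeAlgebra.lift ℤ (fun _ : Y => (1 : ℤ))) h0
      simp only [map_smul, FreeAlgebra.lift_ι_apply, map_zero, smul_eq_mul, mul_one] at h5
      rw [e, hb0, h5]; simp

/-- A homogeneous element of the free Lie ring on a finite set that vanishes in the free
associative ring is zero. -/
theorem witt {Y : Type} [Finite Y] (d : ℕ) (a : FreeLieAlgebra ℤ Y) (ha : Hm (fun _ => 1) d a)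
    (h0 : iot Y a = 0) : a = 0 :=
  witt_aux d d 1 (by omega) le_rfl _ Y _ (fun _ => le_rfl) (Set.toFinite _) le_rfl a ha h0

end Pool.Agent.P.MP_df4ecf_al.Q1
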