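import Pool.Agent.P.MP_df4ecf_al.Q1.Sem
import Pool.Agent.P.MP_df4ecf_al.Q1.Witt

/-!
Sums over words, iterated brackets and their expansions in associative rings.
-/

namespace Pool.Agent.P.MP_df4ecf_al.Q1

attribute [local instance 100] LieRing.ofAssociativeRing

/-- The sum over all words of a given length. -/
def sumW {M : Type} [AddCommMonoid M] : ℕ → (List Lt → M) → M
  | 0, g => g []
  | n + 1, g => ∑ x, sumW n fun v => g (x :: v)

section sumW

variable {M N : Type} [AddCommGroup M] [AddCommGroup N]

theorem sumW_congr (n : ℕ) : ∀ {g g' : List Lt → M}, (∀ v, v.length = n → g v = g' v) →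
    sumW n g = sumW n g' := by
  induction n with
  | zero => intro g g' h; exact h [] rfl
  | succ n ih =>
    intro g g' h
    exact Finset.sum_congr rfl fun x _ => ih fun v hv => h _ (by simp [hv])

theorem sumW_map (φ : M →+ N) (n : ℕ) : ∀ g : List Lt → M,
    φ (sumW n g) = sumW n fun v => φ (g v) := by
  induction n with
  | zero => intro g; rfl
  | succ n ih => intro g; simp only [sumW, map_sum, ih]

theorem sumW_zero (n : ℕ) : sumW n (fun _ => (0 : M)) = 0 := by
  induction n with
  | zero => rfl
  | succ n ih => simp only [sumW, ih, Finset.sum_const_zero]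

theorem sumW_sub (n : ℕ) : ∀ g g' : List Lt → M,
    sumW n (fun v => g v - g' v) = sumW n g - sumW n g' := by
  induction n with
  | zero => intro g g'; rfl
  | succ n ih => intro g g'; simp only [sumW, ih, Finset.sum_sub_distrib]

theorem sumW_snoc (n : ℕ) : ∀ g : List Lt → M,
    sumW (n + 1) g = ∑ x, sumW n fun v => g (v ++ [x]) := by
  induction n with
  | zero => intro g; rfl
  | succ n ih =>
    intro g
    rw [sumW, Finset.sum_congr rfl fun x _ => ih fun v => g (x :: v), Finset.sum_comm]
    rfl

end sumW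

/-- Iterated brackets with the generators. -/
def lseq {L : Type} [LieRing L] (X : Lt → L) (B : List Lt → L) : ℕ → List Lt → L
  | 0, u => B u
  | k + 1, u => ∑ y, ⁅lseq X B k (y :: u), X y⁆

theorem lseq_succ' {L : Type} [LieRing L] (X : Lt → L) (B : List Lt → L) (k : ℕ) :
    ∀ u, lseq X B (k + 1) u = lseq X (lseq X B 1) k u := by
  induction k with
  | zero => intro u; rfl
  | succ k ih => intro u; rw [lseq]; simp only [ih]; rfl

theorem lseq_map {L L' : Type} [LieRing L] [LieRing L'] (φ : L →ₗ⁅ℤ⁆ L') (X : Lt → L)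
    (B : List Lt → L) (k : ℕ) :
    ∀ u, φ (lseq X B k u) = lseq (fun x => φ (X x)) (fun u => φ (B u)) k u := by
  induction k with
  | zero => intro u; rfl
  | succ k ih => intro u; simp only [lseq, map_sum, LieHom.map_lie, ih]

/-- The monomial of a word. -/
def mon {C : Type} [Ring C] (X : Lt → C) (v : List Lt) : C := (v.map X).prod

theorem lseq_expand {C : Type} [Ring C] (X : Lt → C) (B : List Lt → C) (F : List Lt → ℤ) (m : ℕ)
    (hB : ∀ u, B u = sumW m fun v => F (v ++ u) • mon X v) (k : ℕ) :
    ∀ u, lseq X B k u = sumW (k + m) fun v => Efun F m k (v ++ u) • mon X v := by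
  induction k with
  | zero => intro u; rw [zero_add]; exact hB u
  | succ k ih =>
    intro u
    rw [lseq, show k + 1 + m = k + m + 1 by ring]
    simp only [ih, Ring.lie_def, Finset.sum_sub_distrib, Efun, sub_smul, sumW_sub]
    congr 1
    · rw [sumW_snoc]
      refine Finset.sum_congr rfl fun y _ => ?_
      refine (sumW_map (AddMonoidHom.mulRight (X y)) _ _).trans (sumW_congr _ fun v _ => ?_)
      simp [mon, mul_assoc]
    · rw [sumW]
      refine Finset.sum_congr rfl fun y _ => ?_
      refine (sumW_map (AddMonoidHom.mulLeft (X y)) _ _).trans (sumW_congr _ fun v hv => ?_)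
      simp [mon, rotw, ← hv, -zsmul_eq_mul]

/-- The left factor of a relation. -/
def facP {L : Type} [AddCommGroup L] (X : Lt → L) (j k : Cl) (e : Bool) : L :=
  ∑ b, if relP j k e b then X (j, b) else 0

/-- The right factor of a relation. -/
def facQ {L : Type} [AddCommGroup L] (X : Lt → L) (j k : Cl) (e : Bool) : L :=
  ∑ b, if relQ j k e b then X (k, b) else 0

theorem lseq_one {L : Type} [LieRing L] (X : Lt → L) (s : Cl → Cl → Bool → List Lt → ℤ)
    (u : List Lt) : lseq X (fun u => ∑ x, Ffun s (x :: u) • X x) 1 u =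
      ∑ j, ∑ k, ∑ e, s j k e u • ⁅facP X j k e, facQ X j k e⁆ := by
  simp only [lseq, Ffun, facP, facQ, sum_lie, lie_sum, smul_lie, Finset.sum_smul, Finset.smul_sum,
    Fintype.sum_prod_type]
  have : ∀ (k : Cl) (b' : Bool), (∑ j : Cl, ∑ b : Bool, ∑ e : Bool,
      (if (relP j k e b && relQ j k e b') = true then s j k e u else 0) • ⁅X (j, b), X (k, b')⁆) =
      ∑ j : Cl, ∑ e : Bool, ∑ b : Bool, s j k e u •
        ⁅if relP j k e b = true then X (j, b) else 0, if relQ j k e b' = true then X (k, b') else 0⁆ := by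
    intro k b'
    refine Finset.sum_congr rfl fun j _ => ?_
    rw [Finset.sum_comm]
    refine Finset.sum_congr rfl fun e _ => Finset.sum_congr rfl fun b _ => ?_
    cases relP j k e b <;> cases relQ j k e b' <;> simp
  simp only [this]
  conv_rhs => rw [Finset.sum_comm]
  refine Finset.sum_congr rfl fun k _ => ?_
  rw [Finset.sum_comm]
  refine Finset.sum_congr rfl fun j _ => ?_
  rw [Finset.sum_comm]

/-- The identity among the relations, in the free Lie ring. -/
theorem lie_identity (s : Cl → Cl → Bool → List Lt → ℤ)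
    (hs : ∀ w, w.length = 8 → Efun (Ffun s) 1 7 w = 0) :
    lseq (FreeLieAlgebra.of ℤ) (fun u => ∑ j, ∑ k, ∑ e, s j k e u •
      ⁅facP (FreeLieAlgebra.of ℤ) j k e, facQ (FreeLieAlgebra.of ℤ) j k e⁆) 6 [] = 0 := by
  have e1 := lseq_succ' (FreeLieAlgebra.of ℤ : Lt → _)
    (fun u => ∑ x, Ffun s (x :: u) • FreeLieAlgebra.of ℤ x) 6 []
  rw [funext (lseq_one (FreeLieAlgebra.of ℤ) s)] at e1
  rw [← e1]
  apply witt 8
  · have : ∀ k u, Hm (fun _ : Lt => 1) (k + 1) (lseq (FreeLieAlgebra.of ℤ : Lt → _)
        (fun u => ∑ x, Ffun s (x :: u) • FreeLieAlgebra.of ℤ x) k u) := by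
      intro k
      induction k with
      | zero => intro u; exact Hm.sum _ _ fun x => (Hm.of x).smul _
      | succ k ih => intro u; exact Hm.sum _ _ fun y => (ih _).lie (Hm.of y)
    exact this 7 []
  · rw [lseq_map, lseq_expand _ _ (Ffun s) 1]
    · rw [← sumW_zero 8]
      refine sumW_congr _ fun v hv => ?_
      rw [List.append_nil, hs v hv, zero_smul]
    · intro u
      simp [sumW, mon]

end Pool.Agent.P.MP_df4ecf_al.Q1
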